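import Pool.Agent.Lib.MP_ad5d82_an.h24.HDefs

set_option autoImplicit false

namespace Pool.MP_ad5d82_an.Wl

open Real Set MeasureTheory Filter Topology
open scoped ContDiff

variable {ι : Type} [Fintype ι] [DecidableEq ι]

/-! ### H1 basic properties of the energy space -/
theorem wt_pos (z : ℂ) : 0 < wt z := by
  unfold wt
  positivity

theorem wt_le_one (z : ℂ) : wt z ≤ 1 := by
  unfold wt
  apply inv_le_one_of_one_le₀
  have : 0 ≤ ‖z‖ ^ 2 := sq_nonneg _
  nlinarith

theorem continuous_wt : Continuous wt := by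
  unfold wt
  refine Continuous.inv₀ (by fun_prop) fun z => ?_
  positivity

omit [DecidableEq ι] in
theorem H1_nsq_nonneg (z : ℂ) (u : Ev ι × Ev ι × Ev ι) : 0 ≤ nsq z u := by
  unfold nsq gsq
  have := (wt_pos z).le
  positivity

omit [DecidableEq ι] in
theorem H1_nsq_smul (z : ℂ) (t : ℝ) (u : Ev ι × Ev ι × Ev ι) :
    nsq z (t • u) = t ^ 2 * nsq z u := by
  unfold nsq gsq
  simp only [Prod.smul_fst, Prod.smul_snd, norm_smul, Real.norm_eq_abs, mul_pow, sq_abs]
  ring

private theorem H1_norm_add_sq_le {E : Type*} [SeminormedAddCommGroup E] (a b : E) :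
    ‖a + b‖ ^ 2 ≤ 2 * ‖a‖ ^ 2 + 2 * ‖b‖ ^ 2 := by
  have h := norm_add_le a b
  have h1 := norm_nonneg (a + b)
  nlinarith [sq_nonneg (‖a‖ - ‖b‖)]

omit [DecidableEq ι] in
theorem H1_nsq_add_le (z : ℂ) (u v : Ev ι × Ev ι × Ev ι) :
    nsq z (u + v) ≤ 2 * nsq z u + 2 * nsq z v := by
  unfold nsq gsq
  simp only [Prod.fst_add, Prod.snd_add]
  have h1 := H1_norm_add_sq_le u.1 v.1
  have h2 := H1_norm_add_sq_le u.2.1 v.2.1
  have h3 := H1_norm_add_sq_le u.2.2 v.2.2
  have := mul_le_mul_of_nonneg_left h1 (wt_pos z).le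
  linarith

omit [DecidableEq ι] in
theorem H1_nsq_neg (z : ℂ) (u : Ev ι × Ev ι × Ev ι) : nsq z (-u) = nsq z u := by
  unfold nsq gsq
  simp

omit [DecidableEq ι] in
theorem H1_continuous_nsq : Continuous fun p : ℂ × (Ev ι × Ev ι × Ev ι) => nsq p.1 p.2 := by
  unfold nsq gsq
  have := continuous_wt
  fun_prop

omit [DecidableEq ι] in
theorem H1_aesm {U : Fld ι} (hU : AEStronglyMeasurable U volume) :
    AEStronglyMeasurable (fun z => nsq z (U z)) volume := by
  have h1 : AEStronglyMeasurable (fun z : ℂ => (U z).1) volume :=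
    continuous_fst.comp_aestronglyMeasurable hU
  have h2 : AEStronglyMeasurable (fun z : ℂ => (U z).2.1) volume :=
    (continuous_fst.comp continuous_snd).comp_aestronglyMeasurable hU
  have h3 : AEStronglyMeasurable (fun z : ℂ => (U z).2.2) volume :=
    (continuous_snd.comp continuous_snd).comp_aestronglyMeasurable hU
  have h0 : AEStronglyMeasurable wt volume := continuous_wt.aestronglyMeasurable
  exact (h0.mul (h1.norm.pow 2)).add ((h2.norm.pow 2).add (h3.norm.pow 2))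

omit [DecidableEq ι] in
theorem H1_aem {U : Fld ι} (hU : AEStronglyMeasurable U volume) :
    AEMeasurable (fun z => ENNReal.ofReal (nsq z (U z))) volume :=
  (H1_aesm hU).aemeasurable.ennreal_ofReal

/-- the energy as an extended nonnegative number -/
noncomputable def H1_E0 (U : Fld ι) : ENNReal := ∫⁻ z, ENNReal.ofReal (nsq z (U z))

omit [DecidableEq ι] in
theorem H1_E0_add_le {U V : Fld ι} (hU : AEStronglyMeasurable U volume) :
    H1_E0 (U + V) ≤ 2 * H1_E0 U + 2 * H1_E0 V := by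
  unfold H1_E0
  rw [← lintegral_const_mul' _ _ (by norm_num), ← lintegral_const_mul' _ _ (by norm_num),
    ← lintegral_add_left' ((H1_aem hU).const_mul _)]
  refine lintegral_mono fun z => ?_
  have h := H1_nsq_add_le z (U z) (V z)
  calc ENNReal.ofReal (nsq z ((U + V) z)) ≤ ENNReal.ofReal (2 * nsq z (U z) + 2 * nsq z (V z)) :=
        ENNReal.ofReal_le_ofReal h
    _ = 2 * ENNReal.ofReal (nsq z (U z)) + 2 * ENNReal.ofReal (nsq z (V z)) := by
        rw [ENNReal.ofReal_add (by have := H1_nsq_nonneg z (U z); positivity)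
          (by have := H1_nsq_nonneg z (V z); positivity),
          ENNReal.ofReal_mul (by norm_num), ENNReal.ofReal_mul (by norm_num)]
        norm_num

omit [DecidableEq ι] in
theorem H1_E0_smul (t : ℝ) (U : Fld ι) : H1_E0 (t • U) = ENNReal.ofReal (t ^ 2) * H1_E0 U := by
  unfold H1_E0
  rw [← lintegral_const_mul' _ _ ENNReal.ofReal_ne_top]
  refine lintegral_congr fun z => ?_
  rw [Pi.smul_apply, H1_nsq_smul, ENNReal.ofReal_mul (sq_nonneg _)]

omit [DecidableEq ι] in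
theorem H1_E0_congr {U V : Fld ι} (h : U =ᵐ[volume] V) : H1_E0 U = H1_E0 V := by
  unfold H1_E0
  refine lintegral_congr_ae ?_
  filter_upwards [h] with z hz
  rw [hz]

omit [DecidableEq ι] in
theorem H1_jet_continuous {φ : ℂ → Ev ι} (hφ : ContDiff ℝ ∞ φ) : Continuous (jet φ) := by
  unfold jet
  have h1 : Continuous φ := hφ.continuous
  have h2 : Continuous (fderiv ℝ φ) := hφ.continuous_fderiv (by simp)
  exact h1.prodMk ((h2.clm_apply continuous_const).prodMk (h2.clm_apply continuous_const))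

omit [DecidableEq ι] in
theorem H1_jet_aesm {φ : ℂ → Ev ι} (hφ : ContDiff ℝ ∞ φ) : AEStronglyMeasurable (jet φ) volume :=
  (H1_jet_continuous hφ).aestronglyMeasurable

omit [DecidableEq ι] in
theorem H1_jet_add {φ ψ : ℂ → Ev ι} (hφ : ContDiff ℝ ∞ φ) (hψ : ContDiff ℝ ∞ ψ) :
    jet (φ + ψ) = jet φ + jet ψ := by
  funext z
  have h1 : DifferentiableAt ℝ φ z := (hφ.differentiable (by simp)).differentiableAt
  have h2 : DifferentiableAt ℝ ψ z := (hψ.differentiable (by simp)).differentiableAt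
  simp only [jet, Pi.add_apply, fderiv_add h1 h2, _root_.add_apply, Prod.mk_add_mk]

omit [DecidableEq ι] in
theorem H1_jet_smul {φ : ℂ → Ev ι} (t : ℝ) (hφ : ContDiff ℝ ∞ φ) :
    jet (t • φ) = t • jet φ := by
  funext z
  have h1 : DifferentiableAt ℝ φ z := (hφ.differentiable (by simp)).differentiableAt
  simp only [jet, Pi.smul_apply, fderiv_const_smul h1, _root_.smul_apply,
    Prod.smul_mk]

omit [DecidableEq ι] in
theorem IsTest.add {φ ψ : ℂ → Ev ι} (hφ : IsTest φ) (hψ : IsTest ψ) : IsTest (φ + ψ) :=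
  ⟨hφ.1.add hψ.1, hφ.2.add hψ.2⟩

omit [DecidableEq ι] in
theorem IsTest.smul {φ : ℂ → Ev ι} (t : ℝ) (hφ : IsTest φ) : IsTest (t • φ) := by
  refine ⟨contDiff_const.smul hφ.1, ?_⟩
  have h := hφ.2
  exact HasCompactSupport.smul_left (f := fun _ => t) h

omit [DecidableEq ι] in
theorem isSob_jet {φ : ℂ → Ev ι} (hφ : IsTest φ) : IsSob (jet φ) := by
  refine ⟨H1_jet_aesm hφ.1, fun _ => φ, fun _ => hφ, ?_⟩
  have : ∀ z : ℂ, ENNReal.ofReal (nsq z (jet φ z - jet φ z)) = 0 := by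
    intro z
    rw [sub_self]
    simp [nsq, gsq]
  simp only [this, lintegral_zero]
  exact tendsto_const_nhds

omit [DecidableEq ι] in
theorem IsSob.zero : IsSob (0 : Fld ι) := by
  have h : IsTest (0 : ℂ → Ev ι) := by
    refine ⟨contDiff_const, ?_⟩
    exact HasCompactSupport.zero
  have h2 : jet (0 : ℂ → Ev ι) = (0 : Fld ι) := by
    funext z
    simp [jet]
  rw [← h2]
  exact isSob_jet h

omit [DecidableEq ι] in
theorem H1_E0_tendsto {U : Fld ι} {φ : ℕ → ℂ → Ev ι}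
    (h : Tendsto (fun n => ∫⁻ z, ENNReal.ofReal (nsq z (U z - jet (φ n) z))) atTop (𝓝 0)) :
    Tendsto (fun n => H1_E0 (U - jet (φ n))) atTop (𝓝 0) := h

omit [DecidableEq ι] in
theorem IsSob.add {U V : Fld ι} (hU : IsSob U) (hV : IsSob V) : IsSob (U + V) := by
  obtain ⟨mU, φ, hφ, tφ⟩ := hU
  obtain ⟨mV, ψ, hψ, tψ⟩ := hV
  refine ⟨mU.add mV, fun n => φ n + ψ n, fun n => (hφ n).add (hψ n), ?_⟩
  have h1 : ∀ n, H1_E0 (U + V - jet (φ n + ψ n)) ≤
      2 * H1_E0 (U - jet (φ n)) + 2 * H1_E0 (V - jet (ψ n)) := by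
    intro n
    have : U + V - jet (φ n + ψ n) = (U - jet (φ n)) + (V - jet (ψ n)) := by
      rw [H1_jet_add (hφ n).1 (hψ n).1]
      abel
    rw [this]
    exact H1_E0_add_le (mU.sub (H1_jet_aesm (hφ n).1))
  have h2 : Tendsto (fun n => 2 * H1_E0 (U - jet (φ n)) + 2 * H1_E0 (V - jet (ψ n))) atTop
      (𝓝 (2 * 0 + 2 * 0)) := by
    refine (ENNReal.Tendsto.const_mul (H1_E0_tendsto tφ) (Or.inr (by norm_num))).add
      (ENNReal.Tendsto.const_mul (H1_E0_tendsto tψ) (Or.inr (by norm_num)))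
  rw [mul_zero, add_zero] at h2
  exact tendsto_of_tendsto_of_tendsto_of_le_of_le tendsto_const_nhds h2 (fun n => zero_le) h1

omit [DecidableEq ι] in
theorem IsSob.smul {U : Fld ι} (hU : IsSob U) (t : ℝ) : IsSob (t • U) := by
  obtain ⟨mU, φ, hφ, tφ⟩ := hU
  refine ⟨mU.const_smul t, fun n => t • φ n, fun n => (hφ n).smul t, ?_⟩
  have h1 : ∀ n, H1_E0 (t • U - jet (t • φ n)) =
      ENNReal.ofReal (t ^ 2) * H1_E0 (U - jet (φ n)) := by
    intro n
    rw [H1_jet_smul t (hφ n).1, ← smul_sub, H1_E0_smul]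
  have h2 : Tendsto (fun n => ENNReal.ofReal (t ^ 2) * H1_E0 (U - jet (φ n))) atTop
      (𝓝 (ENNReal.ofReal (t ^ 2) * 0)) :=
    ENNReal.Tendsto.const_mul (H1_E0_tendsto tφ) (Or.inr ENNReal.ofReal_ne_top)
  rw [mul_zero] at h2
  have h3 : Tendsto (fun n => H1_E0 (t • U - jet (t • φ n))) atTop (𝓝 0) := by
    simp_rw [h1]
    exact h2
  exact h3

omit [DecidableEq ι] in
theorem IsSob.neg {U : Fld ι} (hU : IsSob U) : IsSob (-U) := by
  have := hU.smul (-1)
  rwa [neg_one_smul] at this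

omit [DecidableEq ι] in
theorem IsSob.sub {U V : Fld ι} (hU : IsSob U) (hV : IsSob V) : IsSob (U - V) := by
  rw [sub_eq_add_neg]
  exact hU.add hV.neg

omit [DecidableEq ι] in
theorem H1_E0_jet_lt {φ : ℂ → Ev ι} (hφ : IsTest φ) : H1_E0 (jet φ) < ⊤ := by
  have hc : Continuous fun z => nsq z (jet φ z) := by
    have h9 := H1_continuous_nsq.comp (continuous_id.prodMk (H1_jet_continuous hφ.1))
    exact h9
  have hs : HasCompactSupport fun z => nsq z (jet φ z) := by
    have h1 : HasCompactSupport (fderiv ℝ φ) := hφ.2.fderiv ℝ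
    refine HasCompactSupport.intro' (K := tsupport φ) hφ.2 (isClosed_tsupport _) ?_
    intro z hz
    have h2 : φ z = 0 := image_eq_zero_of_notMem_tsupport hz
    have h3 : fderiv ℝ φ z = 0 := by
      have : z ∉ tsupport (fderiv ℝ φ) := fun h => hz (tsupport_fderiv_subset ℝ h)
      exact image_eq_zero_of_notMem_tsupport this
    simp [nsq, gsq, jet, h2, h3]
  have hi : Integrable (fun z => nsq z (jet φ z)) volume := hc.integrable_of_hasCompactSupport hs
  have := hi.hasFiniteIntegral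
  rw [hasFiniteIntegral_iff_ofReal (Eventually.of_forall fun z => H1_nsq_nonneg z _)] at this
  exact this

omit [DecidableEq ι] in
theorem IsSob.integrable {U : Fld ι} (hU : IsSob U) : Integrable (fun z => nsq z (U z)) volume := by
  obtain ⟨mU, φ, hφ, tφ⟩ := hU
  refine ⟨H1_aesm mU, ?_⟩
  rw [hasFiniteIntegral_iff_ofReal (Eventually.of_forall fun z => H1_nsq_nonneg z _)]
  have h1 : ∀ᶠ n in atTop, H1_E0 (U - jet (φ n)) < 1 :=
    (H1_E0_tendsto tφ).eventually_lt_const (by norm_num)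
  obtain ⟨n, hn⟩ := h1.exists
  have h2 := H1_E0_add_le (U := U - jet (φ n)) (V := jet (φ n))
    (mU.sub (H1_jet_aesm (hφ n).1))
  rw [sub_add_cancel] at h2
  refine lt_of_le_of_lt h2 ?_
  refine ENNReal.add_lt_top.2 ⟨?_, ?_⟩
  · exact ENNReal.mul_lt_top (by norm_num) (lt_trans hn (by norm_num))
  · exact ENNReal.mul_lt_top (by norm_num) (H1_E0_jet_lt (hφ n))

omit [DecidableEq ι] in
theorem IsSob.congr {U V : Fld ι} (hU : IsSob U) (h : U =ᵐ[volume] V) : IsSob V := by
  obtain ⟨mU, φ, hφ, tφ⟩ := hU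
  refine ⟨mU.congr h, φ, hφ, ?_⟩
  refine tφ.congr fun n => ?_
  refine lintegral_congr_ae ?_
  filter_upwards [h] with z hz
  rw [hz]

omit [DecidableEq ι] in
theorem H1_wt_ball {R : ℝ} {z : ℂ} (hz : z ∈ Metric.ball (0 : ℂ) R) :
    ((1 + R ^ 2) ^ 2)⁻¹ ≤ wt z := by
  rw [mem_ball_zero_iff] at hz
  unfold wt
  have h0 := norm_nonneg z
  gcongr

omit [DecidableEq ι] in
/-- square integrability on balls of the value. -/
theorem IsSob.integrableOn_sq {U : Fld ι} (hU : IsSob U) (R : ℝ) :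
    IntegrableOn (fun z => ‖(U z).1‖ ^ 2) (Metric.ball 0 R) volume := by
  have h1 : IntegrableOn (fun z => (1 + R ^ 2) ^ 2 * nsq z (U z)) (Metric.ball 0 R) volume :=
    (hU.integrable.const_mul _).integrableOn
  refine Integrable.mono' h1 ?_ ?_
  · exact ((continuous_fst.norm.pow 2).comp_aestronglyMeasurable hU.1).restrict
  · filter_upwards [ae_restrict_mem measurableSet_ball] with z hz
    have h2 := H1_wt_ball hz
    rw [Real.norm_of_nonneg (sq_nonneg _)]
    have h3 : (0 : ℝ) < (1 + R ^ 2) ^ 2 := by positivity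
    have h4 : 1 ≤ (1 + R ^ 2) ^ 2 * wt z := by
      calc (1 : ℝ) = (1 + R ^ 2) ^ 2 * ((1 + R ^ 2) ^ 2)⁻¹ := (mul_inv_cancel₀ h3.ne').symm
        _ ≤ _ := mul_le_mul_of_nonneg_left h2 h3.le
    have h5 : 0 ≤ gsq (U z) := by unfold gsq; positivity
    have h6 : 0 ≤ ‖(U z).1‖ ^ 2 := sq_nonneg _
    calc ‖(U z).1‖ ^ 2 = 1 * ‖(U z).1‖ ^ 2 := (one_mul _).symm
      _ ≤ (1 + R ^ 2) ^ 2 * wt z * ‖(U z).1‖ ^ 2 := mul_le_mul_of_nonneg_right h4 h6
      _ ≤ (1 + R ^ 2) ^ 2 * nsq z (U z) := by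
          unfold nsq
          rw [mul_add, ← mul_assoc]
          have : 0 ≤ (1 + R ^ 2) ^ 2 * gsq (U z) := by positivity
          linarith

omit [DecidableEq ι] in
/-- integrability on balls of the value. -/
theorem IsSob.integrableOn {U : Fld ι} (hU : IsSob U) (R : ℝ) :
    IntegrableOn (fun z => ‖(U z).1‖) (Metric.ball 0 R) volume := by
  have h1 : IntegrableOn (fun z => 1 + ‖(U z).1‖ ^ 2) (Metric.ball (0 : ℂ) R) volume := by
    refine Integrable.add ?_ (hU.integrableOn_sq R)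
    exact integrableOn_const (by exact measure_ball_lt_top.ne)
  refine Integrable.mono' h1 ?_ ?_
  · exact (continuous_fst.norm.comp_aestronglyMeasurable hU.1).restrict
  · refine Eventually.of_forall fun z => ?_
    rw [norm_norm]
    nlinarith [sq_nonneg (‖(U z).1‖ - 1), norm_nonneg (U z).1]

omit [DecidableEq ι] in
theorem IsSob.integrable_gsq {U : Fld ι} (hU : IsSob U) : Integrable (fun z => gsq (U z)) volume := by
  refine Integrable.mono' hU.integrable ?_ ?_
  · have : Continuous fun u : Ev ι × Ev ι × Ev ι => gsq u := by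
      unfold gsq
      fun_prop
    exact this.comp_aestronglyMeasurable hU.1
  · refine Eventually.of_forall fun z => ?_
    have h1 : 0 ≤ gsq (U z) := by unfold gsq; positivity
    rw [Real.norm_of_nonneg h1]
    unfold nsq
    have := mul_nonneg (wt_pos z).le (sq_nonneg ‖(U z).1‖)
    linarith

omit [DecidableEq ι] in
theorem H1_En_eq {U : Fld ι} (hU : AEStronglyMeasurable U volume) : En U = (H1_E0 U).toReal := by
  unfold En H1_E0
  rw [integral_eq_lintegral_of_nonneg_ae (Eventually.of_forall fun z => H1_nsq_nonneg z _)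
    (H1_aesm hU)]

omit [DecidableEq ι] in
theorem H1_tendsto_of_nsq {z : ℂ} {u : ℕ → Ev ι × Ev ι × Ev ι} {v : Ev ι × Ev ι × Ev ι}
    (h : Tendsto (fun n => nsq z (v - u n)) atTop (𝓝 0)) : Tendsto u atTop (𝓝 v) := by
  have hw := wt_pos z
  have key : ∀ (p : Ev ι × Ev ι × Ev ι), wt z * ‖p.1‖ ^ 2 ≤ nsq z p ∧ ‖p.2.1‖ ^ 2 ≤ nsq z p ∧
      ‖p.2.2‖ ^ 2 ≤ nsq z p := by
    intro p
    unfold nsq gsq
    have h1 : 0 ≤ wt z * ‖p.1‖ ^ 2 := by positivity
    have h2 : 0 ≤ ‖p.2.1‖ ^ 2 := by positivity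
    have h3 : 0 ≤ ‖p.2.2‖ ^ 2 := by positivity
    refine ⟨by linarith, by linarith, by linarith⟩
  have sq0 : ∀ a : ℕ → ℝ, (∀ n, 0 ≤ a n) → Tendsto (fun n => a n ^ 2) atTop (𝓝 0) →
      Tendsto a atTop (𝓝 0) := by
    intro a ha h2
    have h3 := h2.sqrt
    rw [Real.sqrt_zero] at h3
    refine h3.congr fun n => ?_
    rw [Real.sqrt_sq (ha n)]
  have t1 : Tendsto (fun n => ‖(v - u n).1‖ ^ 2) atTop (𝓝 0) := by
    have h2 : Tendsto (fun n => (wt z)⁻¹ * nsq z (v - u n)) atTop (𝓝 ((wt z)⁻¹ * 0)) :=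
      h.const_mul _
    rw [mul_zero] at h2
    refine squeeze_zero (fun n => sq_nonneg _) (fun n => ?_) h2
    have := (key (v - u n)).1
    rw [← div_eq_inv_mul, le_div_iff₀ hw]
    linarith
  have t2 : Tendsto (fun n => ‖(v - u n).2.1‖ ^ 2) atTop (𝓝 0) :=
    squeeze_zero (fun n => sq_nonneg _) (fun n => (key (v - u n)).2.1) h
  have t3 : Tendsto (fun n => ‖(v - u n).2.2‖ ^ 2) atTop (𝓝 0) :=
    squeeze_zero (fun n => sq_nonneg _) (fun n => (key (v - u n)).2.2) h
  have s1 := sq0 _ (fun n => norm_nonneg _) t1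
  have s2 := sq0 _ (fun n => norm_nonneg _) t2
  have s3 := sq0 _ (fun n => norm_nonneg _) t3
  have conv : ∀ (a : ℕ → Ev ι) (b : Ev ι), Tendsto (fun n => ‖b - a n‖) atTop (𝓝 0) →
      Tendsto a atTop (𝓝 b) := by
    intro a b hab
    rw [tendsto_iff_norm_sub_tendsto_zero]
    refine hab.congr fun n => ?_
    rw [norm_sub_rev]
  have r1 : Tendsto (fun n => (u n).1) atTop (𝓝 v.1) := conv _ _ s1
  have r2 : Tendsto (fun n => (u n).2.1) atTop (𝓝 v.2.1) := conv _ _ s2
  have r3 : Tendsto (fun n => (u n).2.2) atTop (𝓝 v.2.2) := conv _ _ s3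
  exact r1.prodMk_nhds (r2.prodMk_nhds r3)

omit [DecidableEq ι] in
/-- fast convergence of the energies gives almost everywhere convergence -/
theorem H1_ae_tendsto {U : Fld ι} {V : ℕ → Fld ι} (hU : AEStronglyMeasurable U volume)
    (hV : ∀ n, AEStronglyMeasurable (V n) volume)
    (h : ∀ n : ℕ, H1_E0 (U - V n) ≤ (2⁻¹ : ENNReal) ^ n) :
    ∀ᵐ z : ℂ, Tendsto (fun n => V n z) atTop (𝓝 (U z)) := by
  have h1 : ∫⁻ z, ∑' n, ENNReal.ofReal (nsq z (U z - V n z)) ≠ ⊤ := by
    have e := lintegral_tsum (μ := (volume : Measure ℂ))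
      (f := fun (n : ℕ) (z : ℂ) => ENNReal.ofReal (nsq z (U z - V n z)))
      (fun n => H1_aem (hU.sub (hV n)))
    rw [e]
    refine ne_of_lt ?_
    calc ∑' n, ∫⁻ z, ENNReal.ofReal (nsq z (U z - V n z)) ≤ ∑' n : ℕ, (2⁻¹ : ENNReal) ^ n :=
          ENNReal.tsum_le_tsum h
      _ < ⊤ := by
          rw [ENNReal.tsum_geometric]
          have : (1 : ENNReal) - 2⁻¹ = 2⁻¹ := by
            rw [ENNReal.one_sub_inv_two]
          rw [this, inv_inv]
          norm_num
  have h2 : AEMeasurable (fun z => ∑' n, ENNReal.ofReal (nsq z (U z - V n z))) volume :=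
    AEMeasurable.ennreal_tsum fun n => H1_aem (hU.sub (hV n))
  filter_upwards [ae_lt_top' h2 h1] with z hz
  have h3 := ENNReal.tendsto_atTop_zero_of_tsum_ne_top hz.ne
  apply H1_tendsto_of_nsq
  have h4 := (ENNReal.tendsto_toReal (ENNReal.zero_ne_top)).comp h3
  rw [ENNReal.toReal_zero] at h4
  refine h4.congr fun n => ?_
  simp only [Function.comp_apply]
  rw [ENNReal.toReal_ofReal (H1_nsq_nonneg _ _)]

omit [DecidableEq ι] in
/-- density with almost everywhere convergence. -/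
theorem IsSob.exists_seq {U : Fld ι} (hU : IsSob U) : ∃ φ : ℕ → ℂ → Ev ι, (∀ n, IsTest (φ n)) ∧
    Tendsto (fun n => En (U - jet (φ n))) atTop (𝓝 0) ∧
    ∀ᵐ z : ℂ, Tendsto (fun n => jet (φ n) z) atTop (𝓝 (U z)) := by
  obtain ⟨mU, φ, hφ, tφ⟩ := hU
  have h1 : ∀ n : ℕ, ∃ k, H1_E0 (U - jet (φ k)) ≤ (2⁻¹ : ENNReal) ^ n := by
    intro n
    have h0 : (0 : ENNReal) < (2⁻¹ : ENNReal) ^ n := ENNReal.pow_pos (by norm_num) n
    obtain ⟨k, hk⟩ := ((H1_E0_tendsto tφ).eventually_lt_const h0).exists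
    exact ⟨k, hk.le⟩
  choose k hk using h1
  refine ⟨fun n => φ (k n), fun n => hφ _, ?_, ?_⟩
  · have h2 : Tendsto (fun n => H1_E0 (U - jet (φ (k n)))) atTop (𝓝 0) := by
      refine tendsto_of_tendsto_of_tendsto_of_le_of_le tendsto_const_nhds
        (ENNReal.tendsto_pow_atTop_nhds_zero_of_lt_one ?_) (fun n => zero_le) hk
      norm_num
    have h4 := (ENNReal.tendsto_toReal (ENNReal.zero_ne_top)).comp h2
    rw [ENNReal.toReal_zero] at h4
    refine h4.congr fun n => ?_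
    rw [Function.comp_apply, H1_En_eq (mU.sub (H1_jet_aesm (hφ _).1))]
  · exact H1_ae_tendsto mU (fun n => H1_jet_aesm (hφ _).1) hk

omit [DecidableEq ι] in
theorem En_nonneg (U : Fld ι) : 0 ≤ En U := integral_nonneg fun z => H1_nsq_nonneg z _

omit [DecidableEq ι] in
theorem En_add_le {U V : Fld ι} (hU : IsSob U) (hV : IsSob V) : En (U + V) ≤ 2 * En U + 2 * En V := by
  unfold En
  rw [← integral_const_mul, ← integral_const_mul, ← integral_add (hU.integrable.const_mul _)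
    (hV.integrable.const_mul _)]
  refine integral_mono (hU.add hV).integrable
    ((hU.integrable.const_mul _).add (hV.integrable.const_mul _)) fun z => ?_
  exact H1_nsq_add_le z (U z) (V z)

end Pool.MP_ad5d82_an.Wl
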