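import Pool.Agent.Lib.MP_ad5d82_an.h24.HDefs
import Pool.Agent.Lib.MP_ad5d82_an.h24.H.H1

set_option autoImplicit false

namespace Pool.MP_ad5d82_an.Wl

open Real Set MeasureTheory Filter Topology
open scoped ContDiff

variable {ι : Type} [Fintype ι] [DecidableEq ι]

/-! ### H9 weak derivatives -/
omit [DecidableEq ι] in
private theorem h9_meas {U : Fld ι} (hU : IsSob U) (j : ι) :
    AEStronglyMeasurable (fun z => (U z).1 j) volume ∧
    AEStronglyMeasurable (fun z => (U z).2.1 j) volume ∧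
    AEStronglyMeasurable (fun z => (U z).2.2 j) volume := by
  have h := hU.1
  refine ⟨?_, ?_, ?_⟩
  · exact (by fun_prop : Continuous fun p : Ev ι × Ev ι × Ev ι => p.1 j).comp_aestronglyMeasurable h
  · exact (by fun_prop : Continuous fun p : Ev ι × Ev ι × Ev ι => p.2.1 j).comp_aestronglyMeasurable h
  · exact (by fun_prop : Continuous fun p : Ev ι × Ev ι × Ev ι => p.2.2 j).comp_aestronglyMeasurable h

omit [DecidableEq ι] in
private theorem h9_coord (x : Ev ι) (j : ι) : (x j) ^ 2 ≤ ‖x‖ ^ 2 := by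
  rw [EuclideanSpace.norm_sq_eq]
  have := Finset.single_le_sum (f := fun i => ‖x i‖ ^ 2) (fun i _ => by positivity)
    (Finset.mem_univ j)
  simpa [Real.norm_eq_abs, sq_abs] using this

private theorem h9_two (x y w t : ℝ) (hw : 0 < w) (ht : 0 < t) :
    |x * y| ≤ (t * (w * x ^ 2) + t⁻¹ * (w⁻¹ * y ^ 2)) / 2 := by
  have hs : 0 < t * w := mul_pos ht hw
  have e : t⁻¹ * (w⁻¹ * y ^ 2) = y ^ 2 / (t * w) := by field_simp
  have e2 : t * (w * x ^ 2) = (t * w) * x ^ 2 := by ring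
  rw [e, e2]
  have h1 : 0 ≤ ((t * w) * |x| - |y|) ^ 2 / (t * w) := by positivity
  have h2 : ((t * w) * |x| - |y|) ^ 2 / (t * w)
      = (t * w) * |x| ^ 2 - 2 * (|x| * |y|) + |y| ^ 2 / (t * w) := by
    field_simp
    ring
  rw [h2, sq_abs, sq_abs] at h1
  rw [abs_mul]
  linarith

omit [DecidableEq ι] in
private theorem h9_ptw (z : ℂ) (u : Ev ι × Ev ι × Ev ι) (j : ι) (a b c t : ℝ) (ht : 0 < t) :
    |u.1 j * a + u.2.1 j * b + u.2.2 j * c| ≤
      (t * nsq z u + t⁻¹ * ((wt z)⁻¹ * a ^ 2 + b ^ 2 + c ^ 2)) / 2 := by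
  have h1 := h9_two (u.1 j) a (wt z) t (wt_pos z) ht
  have h2 := h9_two (u.2.1 j) b 1 t one_pos ht
  have h3 := h9_two (u.2.2 j) c 1 t one_pos ht
  have k1 := h9_coord u.1 j
  have k2 := h9_coord u.2.1 j
  have k3 := h9_coord u.2.2 j
  have l1 : t * (wt z * (u.1 j) ^ 2) ≤ t * (wt z * ‖u.1‖ ^ 2) :=
    mul_le_mul_of_nonneg_left (mul_le_mul_of_nonneg_left k1 (wt_pos z).le) ht.le
  have l2 : t * (u.2.1 j) ^ 2 ≤ t * ‖u.2.1‖ ^ 2 := mul_le_mul_of_nonneg_left k2 ht.le
  have l3 : t * (u.2.2 j) ^ 2 ≤ t * ‖u.2.2‖ ^ 2 := mul_le_mul_of_nonneg_left k3 ht.le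
  have a1 := abs_add_le (u.1 j * a + u.2.1 j * b) (u.2.2 j * c)
  have a2 := abs_add_le (u.1 j * a) (u.2.1 j * b)
  unfold nsq gsq
  simp only [inv_one, one_mul] at h2 h3
  have e : t * (wt z * ‖u.1‖ ^ 2 + (‖u.2.1‖ ^ 2 + ‖u.2.2‖ ^ 2))
      = t * (wt z * ‖u.1‖ ^ 2) + t * ‖u.2.1‖ ^ 2 + t * ‖u.2.2‖ ^ 2 := by ring
  have e' : t⁻¹ * ((wt z)⁻¹ * a ^ 2 + b ^ 2 + c ^ 2)
      = t⁻¹ * ((wt z)⁻¹ * a ^ 2) + t⁻¹ * b ^ 2 + t⁻¹ * c ^ 2 := by ring
  rw [e, e']
  linarith

/-- the linear form attached to three continuous functions. -/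
private noncomputable def h9L (j : ι) (a b c : ℂ → ℝ) (U : Fld ι) (z : ℂ) : ℝ :=
  (U z).1 j * a z + (U z).2.1 j * b z + (U z).2.2 j * c z

private theorem h9_int {U : Fld ι} (hU : IsSob U) (j : ι) {a b c : ℂ → ℝ}
    (ha : Continuous a) (hb : Continuous b) (hc : Continuous c)
    (hK : Integrable (fun z => (wt z)⁻¹ * a z ^ 2 + b z ^ 2 + c z ^ 2) volume) :
    Integrable (h9L j a b c U) volume := by
  obtain ⟨m1, m2, m3⟩ := h9_meas hU j
  have hI := ((hU.integrable.const_mul 1).add (hK.const_mul (1 : ℝ)⁻¹)).div_const 2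
  refine Integrable.mono' hI ?_ ?_
  · exact ((m1.mul ha.aestronglyMeasurable).add (m2.mul hb.aestronglyMeasurable)).add
      (m3.mul hc.aestronglyMeasurable)
  · refine Eventually.of_forall fun z => ?_
    rw [Real.norm_eq_abs]
    exact h9_ptw z (U z) j (a z) (b z) (c z) 1 one_pos

private theorem h9_bound {U : Fld ι} (hU : IsSob U) (j : ι) {a b c : ℂ → ℝ}
    (hK : Integrable (fun z => (wt z)⁻¹ * a z ^ 2 + b z ^ 2 + c z ^ 2) volume) (t : ℝ)
    (ht : 0 < t) :
    |∫ z, h9L j a b c U z| ≤ (t * En U + t⁻¹ * ∫ z, ((wt z)⁻¹ * a z ^ 2 + b z ^ 2 + c z ^ 2)) / 2 := by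
  have hI := ((hU.integrable.const_mul t).add (hK.const_mul t⁻¹)).div_const 2
  have h1 : ‖∫ z, h9L j a b c U z‖ ≤ ∫ z, (t * nsq z (U z) +
      t⁻¹ * ((wt z)⁻¹ * a z ^ 2 + b z ^ 2 + c z ^ 2)) / 2 := by
    refine norm_integral_le_of_norm_le hI (Eventually.of_forall fun z => ?_)
    rw [Real.norm_eq_abs]
    exact h9_ptw z (U z) j (a z) (b z) (c z) t ht
  rw [Real.norm_eq_abs] at h1
  refine h1.trans (le_of_eq ?_)
  rw [integral_div, integral_add (hU.integrable.const_mul t) (hK.const_mul t⁻¹),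
    integral_const_mul, integral_const_mul]
  rfl

private theorem h9_key {U : Fld ι} (hU : IsSob U) (j : ι) {a b c : ℂ → ℝ}
    (ha : Continuous a) (hb : Continuous b) (hc : Continuous c)
    (hK : Integrable (fun z => (wt z)⁻¹ * a z ^ 2 + b z ^ 2 + c z ^ 2) volume)
    (h0 : ∀ φ : ℂ → Ev ι, IsTest φ → ∫ z, h9L j a b c (jet φ) z = 0) :
    ∫ z, h9L j a b c U z = 0 := by
  obtain ⟨φ, hφ, hE, -⟩ := hU.exists_seq
  set K := ∫ z, ((wt z)⁻¹ * a z ^ 2 + b z ^ 2 + c z ^ 2) with hKdef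
  have hK0 : 0 ≤ K := integral_nonneg fun z => by
    have := wt_pos z
    positivity
  have hdiff : ∀ n, ∫ z, h9L j a b c U z = ∫ z, h9L j a b c (U - jet (φ n)) z := by
    intro n
    have hj := isSob_jet (hφ n)
    have e : (h9L j a b c (U - jet (φ n)))
        = fun z => h9L j a b c U z - h9L j a b c (jet (φ n)) z := by
      funext z
      simp only [h9L, Pi.sub_apply, Prod.fst_sub, Prod.snd_sub, PiLp.sub_apply]
      ring
    rw [e, integral_sub (h9_int hU j ha hb hc hK) (h9_int hj j ha hb hc hK), h0 _ (hφ n), sub_zero]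
  have hbd : ∀ n, ∀ t : ℝ, 0 < t →
      |∫ z, h9L j a b c U z| ≤ (t * En (U - jet (φ n)) + t⁻¹ * K) / 2 := by
    intro n t ht
    rw [hdiff n]
    exact h9_bound (hU.sub (isSob_jet (hφ n))) j hK t ht
  have hbd2 : ∀ t : ℝ, 0 < t → |∫ z, h9L j a b c U z| ≤ (t⁻¹ * K) / 2 := by
    intro t ht
    have hl : Tendsto (fun n => (t * En (U - jet (φ n)) + t⁻¹ * K) / 2) atTop
        (𝓝 ((t * 0 + t⁻¹ * K) / 2)) :=
      ((hE.const_mul t).add_const _).div_const 2
    rw [mul_zero, zero_add] at hl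
    exact ge_of_tendsto' hl fun n => hbd n t ht
  by_contra hne
  have hpos : 0 < |∫ z, h9L j a b c U z| := abs_pos.mpr hne
  have h1 := hbd2 ((K + 1) / |∫ z, h9L j a b c U z|) (by positivity)
  have h2 : ((K + 1) / |∫ z, h9L j a b c U z|)⁻¹ * K / 2
      = |∫ z, h9L j a b c U z| * (K / (K + 1)) / 2 := by
    rw [inv_div]; ring
  rw [h2] at h1
  have h3 : K / (K + 1) ≤ 1 := by
    rw [div_le_one (by linarith)]
    linarith
  nlinarith [mul_le_mul_of_nonneg_left h3 hpos.le]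

omit [DecidableEq ι] in
private theorem h9_fderiv_coord {ψ : ℂ → Ev ι} (hψ : ContDiff ℝ ∞ ψ) (j : ι) (z v : ℂ) :
    (fderiv ℝ ψ z v) j = fderiv ℝ (fun w => ψ w j) z v := by
  have h1 : HasFDerivAt ψ (fderiv ℝ ψ z) z :=
    (hψ.differentiable (by simp) z).hasFDerivAt
  have h2 := ((EuclideanSpace.proj j : Ev ι →L[ℝ] ℝ).hasFDerivAt (x := ψ z)).comp z h1
  have h3 : fderiv ℝ (fun w => ψ w j) z
      = (EuclideanSpace.proj j : Ev ι →L[ℝ] ℝ).comp (fderiv ℝ ψ z) := h2.fderiv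
  rw [h3]
  rfl

omit [DecidableEq ι] in
private theorem h9_coord_smooth {ψ : ℂ → Ev ι} (hψ : ContDiff ℝ ∞ ψ) (j : ι) :
    ContDiff ℝ ∞ (fun w => ψ w j) :=
  (EuclideanSpace.proj j : Ev ι →L[ℝ] ℝ).contDiff.comp hψ

/-- integration by parts with one compactly supported factor. -/
private theorem h9_ibp {f g : ℂ → ℝ} (hf : ContDiff ℝ 1 f) (hg : ContDiff ℝ 1 g)
    (hc : HasCompactSupport f) (v : ℂ) :
    ∫ z, (f z * fderiv ℝ g z v + fderiv ℝ f z v * g z) = 0 := by
  have hfd : Differentiable ℝ f := hf.differentiable (by simp)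
  have hgd : Differentiable ℝ g := hg.differentiable (by simp)
  have cf' : Continuous fun z => fderiv ℝ f z v := (hf.continuous_fderiv (by simp)).clm_apply
    continuous_const
  have cg' : Continuous fun z => fderiv ℝ g z v := (hg.continuous_fderiv (by simp)).clm_apply
    continuous_const
  have hcf' : HasCompactSupport fun z => fderiv ℝ f z v :=
    hc.fderiv_apply ℝ v
  have i1 : Integrable (fun z => fderiv ℝ f z v * g z) volume :=
    (cf'.mul hg.continuous).integrable_of_hasCompactSupport hcf'.mul_right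
  have i2 : Integrable (fun z => f z * fderiv ℝ g z v) volume :=
    (hf.continuous.mul cg').integrable_of_hasCompactSupport hc.mul_right
  have i3 : Integrable (fun z => f z * g z) volume :=
    (hf.continuous.mul hg.continuous).integrable_of_hasCompactSupport hc.mul_right
  have h := integral_mul_fderiv_eq_neg_fderiv_mul_of_integrable (μ := volume) (v := v) i1 i2 i3
    (fun z _ => hfd z) (fun z _ => hgd z)
  rw [integral_add i2 i1, h]
  ring

private theorem h9_cs_int {a b c : ℂ → ℝ} (ha : Continuous a) (hb : Continuous b)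
    (hc : Continuous c) (sa : HasCompactSupport a) (sb : HasCompactSupport b)
    (sc : HasCompactSupport c) :
    Integrable (fun z => (wt z)⁻¹ * a z ^ 2 + b z ^ 2 + c z ^ 2) volume := by
  have cw : Continuous fun z => (wt z)⁻¹ := continuous_wt.inv₀ fun z => (wt_pos z).ne'
  have h1 : Integrable (fun z => (wt z)⁻¹ * a z ^ 2) volume := by
    refine (cw.mul (ha.pow 2)).integrable_of_hasCompactSupport (sa.mono ?_)
    intro z hz
    rw [Function.mem_support] at hz ⊢
    intro h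
    exact hz (by simp [h])
  have h2 : Integrable (fun z => b z ^ 2) volume := by
    refine (hb.pow 2).integrable_of_hasCompactSupport (sb.mono ?_)
    intro z hz
    rw [Function.mem_support] at hz ⊢
    intro h
    exact hz (by simp [h])
  have h3 : Integrable (fun z => c z ^ 2) volume := by
    refine (hc.pow 2).integrable_of_hasCompactSupport (sc.mono ?_)
    intro z hz
    rw [Function.mem_support] at hz ⊢
    intro h
    exact hz (by simp [h])
  exact (h1.add h2).add h3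

theorem IsSob.weak_deriv {U : Fld ι} (hU : IsSob U) (j : ι) {φ : ℂ → ℝ} (hφ : IsTestR φ) :
    (∫ z, (U z).2.1 j * φ z = -∫ z, (U z).1 j * fderiv ℝ φ z 1) ∧
    (∫ z, (U z).2.2 j * φ z = -∫ z, (U z).1 j * fderiv ℝ φ z Complex.I) := by
  obtain ⟨hs, hcs⟩ := hφ
  have hφ1 : ContDiff ℝ 1 φ := hs.of_le (by exact_mod_cast le_top)
  have cd : ∀ v : ℂ, Continuous fun z => fderiv ℝ φ z v := fun v =>
    (hφ1.continuous_fderiv (by simp)).clm_apply continuous_const
  have sd : ∀ v : ℂ, HasCompactSupport fun z => fderiv ℝ φ z v := fun v => hcs.fderiv_apply ℝ v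
  have c0 : Continuous fun _ : ℂ => (0 : ℝ) := continuous_const
  have s0 : HasCompactSupport fun _ : ℂ => (0 : ℝ) := HasCompactSupport.zero
  have ibp : ∀ ψ : ℂ → Ev ι, IsTest ψ → ∀ v : ℂ,
      ∫ z, (ψ z j * fderiv ℝ φ z v + (fderiv ℝ ψ z v) j * φ z) = 0 := by
    intro ψ hψ v
    have h := h9_ibp (f := fun w => ψ w j) (g := φ)
      ((h9_coord_smooth hψ.1 j).of_le (by exact_mod_cast le_top)) hφ1
      (hψ.2.comp_left (g := fun x : Ev ι => x j) (by simp)) v
    refine Eq.trans (integral_congr_ae (Eventually.of_forall fun z => ?_)) h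
    show ψ z j * fderiv ℝ φ z v + (fderiv ℝ ψ z v) j * φ z
      = ψ z j * fderiv ℝ φ z v + fderiv ℝ (fun w => ψ w j) z v * φ z
    rw [h9_fderiv_coord hψ.1 j z v]
  constructor
  · have iK := h9_cs_int (cd 1) hs.continuous c0 (sd 1) hcs s0
    have h := h9_key hU j (cd 1) hs.continuous c0 iK (by
      intro ψ hψ
      refine Eq.trans (integral_congr_ae (Eventually.of_forall fun z => ?_)) (ibp ψ hψ 1)
      simp only [h9L, jet, mul_zero, add_zero])
    have i1 := h9_int hU j (cd 1) c0 c0 (h9_cs_int (cd 1) c0 c0 (sd 1) s0 s0)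
    have i2 := h9_int hU j c0 hs.continuous c0 (h9_cs_int c0 hs.continuous c0 s0 hcs s0)
    have e1 : h9L j (fun z => fderiv ℝ φ z 1) (fun _ => 0) (fun _ => 0) U
        = fun z => (U z).1 j * fderiv ℝ φ z 1 := by
      funext z; simp [h9L]
    have e2 : h9L j (fun _ => 0) φ (fun _ => 0) U = fun z => (U z).2.1 j * φ z := by
      funext z; simp [h9L]
    have e3 : h9L j (fun z => fderiv ℝ φ z 1) φ (fun _ => 0) U
        = fun z => (U z).1 j * fderiv ℝ φ z 1 + (U z).2.1 j * φ z := by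
      funext z; simp [h9L]
    rw [e1] at i1
    rw [e2] at i2
    rw [e3, integral_add i1 i2] at h
    linarith
  · have iK := h9_cs_int (cd Complex.I) c0 hs.continuous (sd Complex.I) s0 hcs
    have h := h9_key hU j (cd Complex.I) c0 hs.continuous iK (by
      intro ψ hψ
      refine Eq.trans (integral_congr_ae (Eventually.of_forall fun z => ?_)) (ibp ψ hψ Complex.I)
      simp only [h9L, jet, mul_zero, add_zero])
    have i1 := h9_int hU j (cd Complex.I) c0 c0 (h9_cs_int (cd Complex.I) c0 c0 (sd Complex.I) s0 s0)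
    have i2 := h9_int hU j c0 c0 hs.continuous (h9_cs_int c0 c0 hs.continuous s0 s0 hcs)
    have e1 : h9L j (fun z => fderiv ℝ φ z Complex.I) (fun _ => 0) (fun _ => 0) U
        = fun z => (U z).1 j * fderiv ℝ φ z Complex.I := by
      funext z; simp [h9L]
    have e2 : h9L j (fun _ => 0) (fun _ => 0) φ U = fun z => (U z).2.2 j * φ z := by
      funext z; simp [h9L]
    have e3 : h9L j (fun z => fderiv ℝ φ z Complex.I) (fun _ => 0) φ U
        = fun z => (U z).1 j * fderiv ℝ φ z Complex.I + (U z).2.2 j * φ z := by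
      funext z; simp [h9L]
    rw [e1] at i1
    rw [e2] at i2
    rw [e3, integral_add i1 i2] at h
    linarith

/-- decay integrability. -/
private theorem h9_decay_int (C : ℝ) : Integrable (fun z : ℂ => C * ((1 + ‖z‖) ^ 4)⁻¹) volume := by
  have h := integrable_one_add_norm (E := ℂ) (μ := volume) (r := 4)
    (by rw [Complex.finrank_real_complex]; norm_num)
  refine (h.const_mul C).congr (Eventually.of_forall fun z => ?_)
  have hp : 0 < 1 + ‖z‖ := by positivity
  show C * (1 + ‖z‖) ^ (-4 : ℝ) = C * ((1 + ‖z‖) ^ 4)⁻¹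
  rw [Real.rpow_neg hp.le]
  congr 2
  exact_mod_cast Real.rpow_natCast (1 + ‖z‖) 4

/-- integration by parts against smooth functions with decay. -/
theorem IsSob.green {U : Fld ι} (hU : IsSob U) (j : ι) {D : ℂ → ℝ} (hD : ContDiff ℝ ∞ D) (C : ℝ)
    (h1 : ∀ z, ‖fderiv ℝ D z‖ * (1 + ‖z‖) ^ 2 ≤ C) (h2 : ∀ z, |lapC D z| * (1 + ‖z‖) ^ 4 ≤ C) :
    ∫ z, ((U z).2.1 j * fderiv ℝ D z 1 + (U z).2.2 j * fderiv ℝ D z Complex.I)
      = -∫ z, (U z).1 j * lapC D z := by
  have hDv : ∀ v : ℂ, ContDiff ℝ ∞ fun z => fderiv ℝ D z v := fun v =>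
    (hD.fderiv_right (m := ∞) (by simp)).clm_apply contDiff_const
  have cDv : ∀ v : ℂ, Continuous fun z => fderiv ℝ D z v := fun v => (hDv v).continuous
  have cDvv : ∀ v : ℂ, Continuous fun z => fderiv ℝ (fun w => fderiv ℝ D w v) z v := fun v =>
    (((hDv v).fderiv_right (m := ∞) (by simp)).clm_apply contDiff_const).continuous
  have cL : Continuous (lapC D) := (cDvv 1).add (cDvv Complex.I)
  have c0 : Continuous fun _ : ℂ => (0 : ℝ) := continuous_const
  have hC : 0 ≤ C := le_trans (by positivity) (h1 0)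
  -- decay bounds
  have bd : ∀ (v : ℂ), ‖v‖ ≤ 1 → ∀ z, (fderiv ℝ D z v) ^ 2 ≤ C ^ 2 * ((1 + ‖z‖) ^ 4)⁻¹ := by
    intro v hv z
    have hp : 0 < (1 + ‖z‖) ^ 2 := by positivity
    have e1 : |fderiv ℝ D z v| ≤ ‖fderiv ℝ D z‖ := by
      have := (fderiv ℝ D z).le_opNorm v
      rw [Real.norm_eq_abs] at this
      exact this.trans (by simpa using mul_le_mul_of_nonneg_left hv (norm_nonneg _))
    have e2 : |fderiv ℝ D z v| * (1 + ‖z‖) ^ 2 ≤ C :=
      (mul_le_mul_of_nonneg_right e1 hp.le).trans (h1 z)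
    rw [← div_eq_mul_inv, le_div_iff₀ (by positivity)]
    have e3 : (fderiv ℝ D z v) ^ 2 * (1 + ‖z‖) ^ 4 = (|fderiv ℝ D z v| * (1 + ‖z‖) ^ 2) ^ 2 := by
      rw [mul_pow, sq_abs]; ring
    rw [e3]
    exact pow_le_pow_left₀ (by positivity) e2 2
  have bl : ∀ z, (wt z)⁻¹ * (lapC D z) ^ 2 ≤ C ^ 2 * ((1 + ‖z‖) ^ 4)⁻¹ := by
    intro z
    have hp : 0 < (1 + ‖z‖) ^ 4 := by positivity
    rw [← div_eq_mul_inv, le_div_iff₀ hp]
    have hw : (wt z)⁻¹ ≤ (1 + ‖z‖) ^ 4 := by
      unfold wt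
      rw [inv_inv]
      have : 1 + ‖z‖ ^ 2 ≤ (1 + ‖z‖) ^ 2 := by nlinarith [norm_nonneg z]
      calc (1 + ‖z‖ ^ 2) ^ 2 ≤ ((1 + ‖z‖) ^ 2) ^ 2 := pow_le_pow_left₀ (by positivity) this 2
        _ = (1 + ‖z‖) ^ 4 := by ring
    calc (wt z)⁻¹ * (lapC D z) ^ 2 * (1 + ‖z‖) ^ 4
        ≤ (1 + ‖z‖) ^ 4 * (lapC D z) ^ 2 * (1 + ‖z‖) ^ 4 := by gcongr
      _ = (|lapC D z| * (1 + ‖z‖) ^ 4) ^ 2 := by rw [mul_pow, sq_abs]; ring
      _ ≤ C ^ 2 := pow_le_pow_left₀ (by positivity) (h2 z) 2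
  have cw : Continuous fun z => (wt z)⁻¹ := continuous_wt.inv₀ fun z => (wt_pos z).ne'
  have iL : Integrable (fun z => (wt z)⁻¹ * (lapC D z) ^ 2) volume := by
    refine Integrable.mono' (h9_decay_int (C ^ 2)) (cw.mul (cL.pow 2)).aestronglyMeasurable
      (Eventually.of_forall fun z => ?_)
    have := wt_pos z
    rw [Real.norm_eq_abs, abs_of_nonneg (by positivity)]
    exact bl z
  have iD : ∀ v : ℂ, ‖v‖ ≤ 1 → Integrable (fun z => (fderiv ℝ D z v) ^ 2) volume := by
    intro v hv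
    refine Integrable.mono' (h9_decay_int (C ^ 2)) ((cDv v).pow 2).aestronglyMeasurable
      (Eventually.of_forall fun z => ?_)
    rw [Real.norm_eq_abs, abs_of_nonneg (by positivity)]
    exact bd v hv z
  have hv1 : ‖(1 : ℂ)‖ ≤ 1 := by simp
  have hvI : ‖Complex.I‖ ≤ 1 := by simp
  have iK : Integrable (fun z => (wt z)⁻¹ * (lapC D z) ^ 2 + (fderiv ℝ D z 1) ^ 2
      + (fderiv ℝ D z Complex.I) ^ 2) volume := (iL.add (iD 1 hv1)).add (iD Complex.I hvI)
  have h := h9_key hU j cL (cDv 1) (cDv Complex.I) iK (by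
    intro ψ hψ
    have q : ∀ v : ℂ, ∫ z, (ψ z j * fderiv ℝ (fun w => fderiv ℝ D w v) z v
        + (fderiv ℝ ψ z v) j * fderiv ℝ D z v) = 0 := by
      intro v
      have h := h9_ibp (f := fun w => ψ w j) (g := fun w => fderiv ℝ D w v)
        ((h9_coord_smooth hψ.1 j).of_le (by exact_mod_cast le_top))
        ((hDv v).of_le (by exact_mod_cast le_top))
        (hψ.2.comp_left (g := fun x : Ev ι => x j) (by simp)) v
      refine Eq.trans (integral_congr_ae (Eventually.of_forall fun z => ?_)) h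
      show ψ z j * fderiv ℝ (fun w => fderiv ℝ D w v) z v + (fderiv ℝ ψ z v) j * fderiv ℝ D z v
        = ψ z j * fderiv ℝ (fun w => fderiv ℝ D w v) z v
          + fderiv ℝ (fun w => ψ w j) z v * fderiv ℝ D z v
      rw [h9_fderiv_coord hψ.1 j z v]
    have qi : ∀ v : ℂ, Integrable (fun z => ψ z j * fderiv ℝ (fun w => fderiv ℝ D w v) z v
        + (fderiv ℝ ψ z v) j * fderiv ℝ D z v) volume := by
      intro v
      have cj : Continuous fun z => ψ z j := (h9_coord_smooth hψ.1 j).continuous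
      have sj : HasCompactSupport fun z => ψ z j :=
        hψ.2.comp_left (g := fun x : Ev ι => x j) (by simp)
      have cj' : Continuous fun z => (fderiv ℝ ψ z v) j := by
        have : (fun z => (fderiv ℝ ψ z v) j) = fun z => fderiv ℝ (fun w => ψ w j) z v := by
          funext z; exact h9_fderiv_coord hψ.1 j z v
        rw [this]
        exact (((h9_coord_smooth hψ.1 j).fderiv_right (m := ∞) (by simp)).clm_apply
          contDiff_const).continuous
      have sj' : HasCompactSupport fun z => (fderiv ℝ ψ z v) j := by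
        have : (fun z => (fderiv ℝ ψ z v) j) = fun z => fderiv ℝ (fun w => ψ w j) z v := by
          funext z; exact h9_fderiv_coord hψ.1 j z v
        rw [this]
        exact sj.fderiv_apply ℝ v
      exact ((cj.mul (cDvv v)).integrable_of_hasCompactSupport sj.mul_right).add
        ((cj'.mul (cDv v)).integrable_of_hasCompactSupport sj'.mul_right)
    have hq := integral_add (qi 1) (qi Complex.I)
    rw [q 1, q Complex.I, add_zero] at hq
    refine Eq.trans (integral_congr_ae (Eventually.of_forall fun z => ?_)) hq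
    simp only [h9L, jet, lapC]
    ring)
  have k1 : Integrable (fun z => (wt z)⁻¹ * (lapC D z) ^ 2 + (0 : ℝ) ^ 2 + (0 : ℝ) ^ 2) volume :=
    iL.congr (Eventually.of_forall fun z => by simp)
  have k2 : Integrable (fun z => (wt z)⁻¹ * (0 : ℝ) ^ 2 + (fderiv ℝ D z 1) ^ 2
      + (fderiv ℝ D z Complex.I) ^ 2) volume :=
    ((iD 1 hv1).add (iD Complex.I hvI)).congr (Eventually.of_forall fun z => by simp)
  have i1 := h9_int hU j cL c0 c0 k1
  have i2 := h9_int hU j c0 (cDv 1) (cDv Complex.I) k2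
  have e1 : h9L j (lapC D) (fun _ => 0) (fun _ => 0) U = fun z => (U z).1 j * lapC D z := by
    funext z; simp [h9L]
  have e2 : h9L j (fun _ => 0) (fun z => fderiv ℝ D z 1) (fun z => fderiv ℝ D z Complex.I) U
      = fun z => (U z).2.1 j * fderiv ℝ D z 1 + (U z).2.2 j * fderiv ℝ D z Complex.I := by
    funext z; simp [h9L]
  have e3 : h9L j (lapC D) (fun z => fderiv ℝ D z 1) (fun z => fderiv ℝ D z Complex.I) U
      = fun z => (U z).1 j * lapC D z + ((U z).2.1 j * fderiv ℝ D z 1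
        + (U z).2.2 j * fderiv ℝ D z Complex.I) := by
    funext z; simp [h9L]; ring
  rw [e1] at i1
  rw [e2] at i2
  rw [e3, integral_add i1 i2] at h
  linarith

end Pool.MP_ad5d82_an.Wl
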