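import Pool.Agent.Lib.MP_ad5d82_an.h24.HDefs
import Pool.Agent.Lib.MP_ad5d82_an.h24.H.H1

set_option autoImplicit false

namespace Pool.MP_ad5d82_an.Wl

open Real Set MeasureTheory Filter Topology
open scoped ContDiff

variable {ι : Type} [Fintype ι] [DecidableEq ι]

/-! ### H2 completeness -/

omit [DecidableEq ι] in
theorem sob_closed (U : ℕ → Fld ι) (hU : ∀ n, IsSob (U n)) (V : Fld ι)
    (hV : AEStronglyMeasurable V volume)
    (h : Tendsto (fun n => ∫⁻ z, ENNReal.ofReal (nsq z (V z - U n z))) atTop (𝓝 0)) : IsSob V := by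
  have h' : Tendsto (fun n => H1_E0 (V - U n)) atTop (𝓝 0) := h
  have h1 : ∀ n : ℕ, ∃ φ : ℂ → Ev ι, IsTest φ ∧ H1_E0 (U n - jet φ) ≤ (2⁻¹ : ENNReal) ^ n := by
    intro n
    obtain ⟨mU, φ, hφ, tφ⟩ := hU n
    have h0 : (0 : ENNReal) < (2⁻¹ : ENNReal) ^ n := ENNReal.pow_pos (by norm_num) n
    obtain ⟨k, hk⟩ := ((H1_E0_tendsto tφ).eventually_lt_const h0).exists
    exact ⟨φ k, hφ k, hk.le⟩
  choose φ hφ hφ2 using h1
  refine ⟨hV, φ, hφ, ?_⟩
  have h3 : Tendsto (fun n : ℕ => (2⁻¹ : ENNReal) ^ n) atTop (𝓝 0) :=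
    ENNReal.tendsto_pow_atTop_nhds_zero_of_lt_one (by norm_num)
  have h2 : Tendsto (fun n => 2 * H1_E0 (V - U n) + 2 * (2⁻¹ : ENNReal) ^ n) atTop
      (𝓝 (2 * 0 + 2 * 0)) :=
    (ENNReal.Tendsto.const_mul h' (Or.inr (by norm_num))).add
      (ENNReal.Tendsto.const_mul h3 (Or.inr (by norm_num)))
  rw [mul_zero, add_zero] at h2
  have h4 : ∀ n, H1_E0 (V - jet (φ n)) ≤ 2 * H1_E0 (V - U n) + 2 * (2⁻¹ : ENNReal) ^ n := by
    intro n
    have e : V - jet (φ n) = (V - U n) + (U n - jet (φ n)) := by abel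
    rw [e]
    refine le_trans (H1_E0_add_le (hV.sub (hU n).1)) ?_
    gcongr
    exact hφ2 n
  exact tendsto_of_tendsto_of_tendsto_of_le_of_le tendsto_const_nhds h2 (fun n => zero_le) h4

/-- the isometric image of a field in an unweighted `L²` space -/
noncomputable def H2_W (U : Fld ι) : Fld ι := fun z =>
  (Real.sqrt (wt z) • (U z).1, (U z).2.1, (U z).2.2)

/-- the inverse map -/
noncomputable def H2_V (U : Fld ι) : Fld ι := fun z =>
  ((Real.sqrt (wt z))⁻¹ • (U z).1, (U z).2.1, (U z).2.2)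

omit [DecidableEq ι] in
theorem H2_W_V (U : Fld ι) : H2_W (H2_V U) = U := by
  funext z
  have h : Real.sqrt (wt z) ≠ 0 := (Real.sqrt_pos.2 (wt_pos z)).ne'
  simp only [H2_W, H2_V, smul_smul]
  rw [mul_inv_cancel₀ h, one_smul]

omit [DecidableEq ι] in
theorem H2_W_sub (U V : Fld ι) : H2_W (U - V) = H2_W U - H2_W V := by
  funext z
  simp only [H2_W, Pi.sub_apply, Prod.fst_sub, Prod.snd_sub, smul_sub, Prod.mk_sub_mk]

omit [DecidableEq ι] in
theorem H2_W_aesm {U : Fld ι} (hU : AEStronglyMeasurable U volume) :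
    AEStronglyMeasurable (H2_W U) volume := by
  have h1 : AEStronglyMeasurable (fun z : ℂ => (U z).1) volume :=
    continuous_fst.comp_aestronglyMeasurable hU
  have h2 : AEStronglyMeasurable (fun z : ℂ => (U z).2.1) volume :=
    (continuous_fst.comp continuous_snd).comp_aestronglyMeasurable hU
  have h3 : AEStronglyMeasurable (fun z : ℂ => (U z).2.2) volume :=
    (continuous_snd.comp continuous_snd).comp_aestronglyMeasurable hU
  have h0 : AEStronglyMeasurable (fun z : ℂ => Real.sqrt (wt z)) volume :=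
    continuous_wt.sqrt.aestronglyMeasurable
  exact (h0.smul h1).prodMk (h2.prodMk h3)

omit [DecidableEq ι] in
theorem H2_V_aesm {U : Fld ι} (hU : AEStronglyMeasurable U volume) :
    AEStronglyMeasurable (H2_V U) volume := by
  have h1 : AEStronglyMeasurable (fun z : ℂ => (U z).1) volume :=
    continuous_fst.comp_aestronglyMeasurable hU
  have h2 : AEStronglyMeasurable (fun z : ℂ => (U z).2.1) volume :=
    (continuous_fst.comp continuous_snd).comp_aestronglyMeasurable hU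
  have h3 : AEStronglyMeasurable (fun z : ℂ => (U z).2.2) volume :=
    (continuous_snd.comp continuous_snd).comp_aestronglyMeasurable hU
  have h0 : AEStronglyMeasurable (fun z : ℂ => (Real.sqrt (wt z))⁻¹) volume := by
    refine Continuous.aestronglyMeasurable ?_
    exact continuous_wt.sqrt.inv₀ fun z => (Real.sqrt_pos.2 (wt_pos z)).ne'
  exact (h0.smul h1).prodMk (h2.prodMk h3)

omit [DecidableEq ι] in
theorem H2_norm_le (U : Fld ι) (z : ℂ) : ‖H2_W U z‖ ^ 2 ≤ nsq z (U z) := by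
  have hw := wt_pos z
  have h1 : ‖Real.sqrt (wt z) • (U z).1‖ ^ 2 = wt z * ‖(U z).1‖ ^ 2 := by
    rw [norm_smul, mul_pow, Real.norm_eq_abs, sq_abs, Real.sq_sqrt hw.le]
  unfold nsq gsq
  rw [← h1]
  have e : ‖H2_W U z‖ = max ‖Real.sqrt (wt z) • (U z).1‖ (max ‖(U z).2.1‖ ‖(U z).2.2‖) := by
    simp only [H2_W, Prod.norm_def]
  rw [e]
  have a1 := sq_nonneg ‖Real.sqrt (wt z) • (U z).1‖
  have a2 := sq_nonneg ‖(U z).2.1‖
  have a3 := sq_nonneg ‖(U z).2.2‖
  rcases max_choice ‖Real.sqrt (wt z) • (U z).1‖ (max ‖(U z).2.1‖ ‖(U z).2.2‖) with h | h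
  · rw [h]; linarith
  · rw [h]
    rcases max_choice ‖(U z).2.1‖ ‖(U z).2.2‖ with h | h
    · rw [h]; linarith
    · rw [h]; linarith

omit [DecidableEq ι] in
theorem H2_le_norm (U : Fld ι) (z : ℂ) : nsq z (U z) ≤ 3 * ‖H2_W U z‖ ^ 2 := by
  have hw := wt_pos z
  have h1 : ‖Real.sqrt (wt z) • (U z).1‖ ^ 2 = wt z * ‖(U z).1‖ ^ 2 := by
    rw [norm_smul, mul_pow, Real.norm_eq_abs, sq_abs, Real.sq_sqrt hw.le]
  unfold nsq gsq
  rw [← h1]
  have e : ‖H2_W U z‖ = max ‖Real.sqrt (wt z) • (U z).1‖ (max ‖(U z).2.1‖ ‖(U z).2.2‖) := by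
    simp only [H2_W, Prod.norm_def]
  rw [e]
  have b1 : ‖Real.sqrt (wt z) • (U z).1‖ ≤
      max ‖Real.sqrt (wt z) • (U z).1‖ (max ‖(U z).2.1‖ ‖(U z).2.2‖) := le_max_left _ _
  have b2 : ‖(U z).2.1‖ ≤
      max ‖Real.sqrt (wt z) • (U z).1‖ (max ‖(U z).2.1‖ ‖(U z).2.2‖) :=
    le_trans (le_max_left _ _) (le_max_right _ _)
  have b3 : ‖(U z).2.2‖ ≤
      max ‖Real.sqrt (wt z) • (U z).1‖ (max ‖(U z).2.1‖ ‖(U z).2.2‖) :=
    le_trans (le_max_right _ _) (le_max_right _ _)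
  have c1 := pow_le_pow_left₀ (norm_nonneg _) b1 2
  have c2 := pow_le_pow_left₀ (norm_nonneg _) b2 2
  have c3 := pow_le_pow_left₀ (norm_nonneg _) b3 2
  linarith

omit [DecidableEq ι] in
theorem H2_eLpNorm (U : Fld ι) : eLpNorm (H2_W U) 2 volume ^ 2 =
    ∫⁻ z, ENNReal.ofReal (‖H2_W U z‖ ^ 2) := by
  rw [eLpNorm_eq_lintegral_rpow_enorm_toReal (by norm_num) (by norm_num)]
  simp only [ENNReal.toReal_ofNat, ENNReal.rpow_ofNat, one_div]
  rw [← ENNReal.rpow_natCast, ← ENNReal.rpow_mul]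
  norm_num

omit [DecidableEq ι] in
theorem H2_E_le (U : Fld ι) : eLpNorm (H2_W U) 2 volume ^ 2 ≤ H1_E0 U := by
  rw [H2_eLpNorm]
  exact lintegral_mono fun z => ENNReal.ofReal_le_ofReal (H2_norm_le U z)

omit [DecidableEq ι] in
theorem H2_le_E (U : Fld ι) : H1_E0 U ≤ 3 * eLpNorm (H2_W U) 2 volume ^ 2 := by
  rw [H2_eLpNorm, ← lintegral_const_mul' _ _ (by norm_num)]
  refine lintegral_mono fun z => ?_
  calc ENNReal.ofReal (nsq z (U z)) ≤ ENNReal.ofReal (3 * ‖H2_W U z‖ ^ 2) :=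
        ENNReal.ofReal_le_ofReal (H2_le_norm U z)
    _ = 3 * ENNReal.ofReal (‖H2_W U z‖ ^ 2) := by
        rw [ENNReal.ofReal_mul (by norm_num)]
        norm_num

omit [DecidableEq ι] in
theorem H2_E0_lt {U : Fld ι} (hU : IsSob U) : H1_E0 U < ⊤ := by
  have := hU.integrable.hasFiniteIntegral
  rw [hasFiniteIntegral_iff_ofReal (Eventually.of_forall fun z => H1_nsq_nonneg z _)] at this
  exact this

omit [DecidableEq ι] in
theorem H2_memLp {U : Fld ι} (hU : IsSob U) : MemLp (H2_W U) 2 volume := by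
  refine ⟨H2_W_aesm hU.1, ?_⟩
  by_contra hc
  have h1 : eLpNorm (H2_W U) 2 volume = ⊤ := by
    rwa [not_lt, top_le_iff] at hc
  have h2 := H2_E_le U
  rw [h1] at h2
  have h3 := H2_E0_lt hU
  have h4 : (⊤ : ENNReal) ^ 2 = ⊤ := by simp
  rw [h4] at h2
  exact absurd (lt_of_le_of_lt h2 h3) (lt_irrefl _)

omit [DecidableEq ι] in
theorem sob_complete (U : ℕ → Fld ι) (hU : ∀ n, IsSob (U n))
    (hC : ∀ ε > 0, ∃ N, ∀ m ≥ N, ∀ n ≥ N, En (U m - U n) < ε) :
    ∃ V : Fld ι, IsSob V ∧ Tendsto (fun n => En (U n - V)) atTop (𝓝 0) := by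
  classical
  have hcs : CauchySeq (fun n => (H2_memLp (hU n)).toLp (H2_W (U n))) := by
    rw [Metric.cauchySeq_iff]
    intro ε hε
    obtain ⟨N, hN⟩ := hC (ε ^ 2) (by positivity)
    refine ⟨N, fun m hm n hn => ?_⟩
    rw [dist_eq_norm, ← MemLp.toLp_sub, Lp.norm_toLp]
    have hs := (hU m).sub (hU n)
    have h1 := hN m hm n hn
    rw [H1_En_eq hs.1] at h1
    have h2 := H2_E_le (U m - U n)
    have h3 := ENNReal.toReal_mono (H2_E0_lt hs).ne h2
    rw [ENNReal.toReal_pow, H2_W_sub] at h3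
    have h4 : (eLpNorm (H2_W (U m) - H2_W (U n)) 2 volume).toReal ^ 2 < ε ^ 2 :=
      lt_of_le_of_lt h3 h1
    exact lt_of_pow_lt_pow_left₀ 2 hε.le h4
  obtain ⟨L, hL⟩ := cauchySeq_tendsto_of_complete hcs
  rw [Lp.tendsto_Lp_iff_tendsto_eLpNorm'] at hL
  set V : Fld ι := H2_V (L : ℂ → Ev ι × Ev ι × Ev ι) with hVdef
  have hVm : AEStronglyMeasurable V volume := H2_V_aesm (Lp.aestronglyMeasurable L)
  have hWV : H2_W V = (L : ℂ → Ev ι × Ev ι × Ev ι) := by
    rw [hVdef, H2_W_V]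
  have h5 : Tendsto (fun n => eLpNorm (H2_W (U n - V)) 2 volume) atTop (𝓝 0) := by
    refine hL.congr fun n => ?_
    rw [H2_W_sub, hWV]
    refine eLpNorm_congr_ae ?_
    filter_upwards [(H2_memLp (hU n)).coeFn_toLp] with z hz
    simp only [Pi.sub_apply, hz]
  have h6 : Tendsto (fun n => 3 * eLpNorm (H2_W (U n - V)) 2 volume ^ 2) atTop (𝓝 (3 * 0 ^ 2)) :=
    ENNReal.Tendsto.const_mul (ENNReal.Tendsto.pow h5) (Or.inr (by norm_num))
  rw [zero_pow (by norm_num), mul_zero] at h6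
  have h7 : Tendsto (fun n => H1_E0 (U n - V)) atTop (𝓝 0) :=
    tendsto_of_tendsto_of_tendsto_of_le_of_le tendsto_const_nhds h6 (fun n => zero_le)
      (fun n => H2_le_E _)
  have h8 : Tendsto (fun n => H1_E0 (V - U n)) atTop (𝓝 0) := by
    refine h7.congr fun n => ?_
    unfold H1_E0
    refine lintegral_congr fun z => ?_
    congr 1
    rw [← H1_nsq_neg, Pi.sub_apply, Pi.sub_apply, neg_sub]
  refine ⟨V, sob_closed U hU V hVm h8, ?_⟩
  have h9 := (ENNReal.tendsto_toReal (ENNReal.zero_ne_top)).comp h7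
  rw [ENNReal.toReal_zero] at h9
  refine h9.congr fun n => ?_
  rw [Function.comp_apply, H1_En_eq ((hU n).1.sub hVm)]

end Pool.MP_ad5d82_an.Wl
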