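import Pool.Agent.Lib.MP_ad5d82_an.h24.HDefs
import Pool.Agent.Lib.MP_ad5d82_an.h24.H.H1
import Pool.Agent.Lib.MP_ad5d82_an.h24.H.H2

set_option autoImplicit false
set_option linter.unusedSectionVars false

namespace Pool.MP_ad5d82_an.Wl

open Real Set MeasureTheory Filter Topology
open scoped ContDiff RealInnerProductSpace

/-! ### H3a weak sequential compactness -/

section abstract_part

variable {H : Type} [NormedAddCommGroup H] [InnerProductSpace ℝ H] [CompleteSpace H]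
  [TopologicalSpace.SeparableSpace H]

private theorem h3a_weak (K : Submodule ℝ H) (hK : IsClosed (K : Set H)) (x : ℕ → H)
    (hx : ∀ n, x n ∈ K) (M : ℝ) (hM : ∀ n, ‖x n‖ ≤ M) :
    ∃ v ∈ K, ∃ k : ℕ → ℕ, StrictMono k ∧
      ∀ y : H, Tendsto (fun n => ⟪x (k n), y⟫) atTop (𝓝 ⟪v, y⟫) := by
  have hseq := WeakDual.isSeqCompact_closedBall ℝ H 0 M
  let f : ℕ → WeakDual ℝ H := fun n =>
    StrongDual.toWeakDual (InnerProductSpace.toDual ℝ H (x n))
  have hf : ∀ n, f n ∈ (WeakDual.toStrongDual ⁻¹' Metric.closedBall (0 : StrongDual ℝ H) M) := by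
    intro n
    rw [mem_preimage, mem_closedBall_zero_iff]
    change ‖InnerProductSpace.toDual ℝ H (x n)‖ ≤ M
    rw [LinearIsometryEquiv.norm_map]
    exact hM n
  obtain ⟨φ, -, k, hk, hlim⟩ := hseq hf
  set v : H := (InnerProductSpace.toDual ℝ H).symm (WeakDual.toStrongDual φ) with hv
  have hw : ∀ y : H, Tendsto (fun n => ⟪x (k n), y⟫) atTop (𝓝 ⟪v, y⟫) := by
    intro y
    have h1 := (WeakDual.eval_continuous (𝕜 := ℝ) y).tendsto φ
    have h2 := h1.comp hlim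
    have h3 : ⟪v, y⟫ = φ y := by
      rw [hv, InnerProductSpace.toDual_symm_apply]
      rfl
    rw [h3]
    exact h2
  refine ⟨v, ?_, k, hk, hw⟩
  have hKK : Kᗮᗮ = K := by
    rw [Submodule.orthogonal_orthogonal_eq_closure]
    exact IsClosed.submodule_topologicalClosure_eq hK
  rw [← hKK, Submodule.mem_orthogonal]
  intro w hw'
  have h1 := hw w
  have h2 : (fun n => ⟪x (k n), w⟫) = fun _ => (0 : ℝ) := by
    funext n
    exact (Submodule.mem_orthogonal K w).mp hw' _ (hx _)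
  rw [h2] at h1
  have h3 := tendsto_nhds_unique h1 tendsto_const_nhds
  rw [real_inner_comm]
  exact h3

end abstract_part

variable {ι : Type} [Fintype ι] [DecidableEq ι]

/-- the linear map `u ↦ (s u.1, u.2.1, u.2.2)` into a Euclidean space. -/
private noncomputable def h3aG (s : ℝ) (u : Ev ι × Ev ι × Ev ι) : EuclideanSpace ℝ (Fin 3 × ι) :=
  WithLp.toLp 2 (fun p => if p.1 = 0 then s * u.1 p.2 else if p.1 = 1 then u.2.1 p.2
    else u.2.2 p.2)

private theorem h3aG_norm (s : ℝ) (u : Ev ι × Ev ι × Ev ι) :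
    ‖h3aG s u‖ ^ 2 = s ^ 2 * ‖u.1‖ ^ 2 + (‖u.2.1‖ ^ 2 + ‖u.2.2‖ ^ 2) := by
  rw [EuclideanSpace.norm_sq_eq, EuclideanSpace.norm_sq_eq, EuclideanSpace.norm_sq_eq,
    EuclideanSpace.norm_sq_eq, Fintype.sum_prod_type, Fin.sum_univ_three]
  simp only [h3aG, ↓reduceIte, one_ne_zero, Fin.isValue, Fin.reduceEq, norm_mul, mul_pow,
    Finset.mul_sum, Real.norm_eq_abs, sq_abs]
  ring

private theorem h3aG_inner (s t : ℝ) (hst : s * t = 1) (u v : Ev ι × Ev ι × Ev ι) :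
    ⟪h3aG s u, h3aG t v⟫ =
      ∑ j, (v.1 j * u.1 j + v.2.1 j * u.2.1 j + v.2.2 j * u.2.2 j) := by
  rw [PiLp.inner_apply, Fintype.sum_prod_type, Fin.sum_univ_three]
  simp only [h3aG, ↓reduceIte, one_ne_zero, Fin.isValue, Fin.reduceEq, Finset.sum_add_distrib]
  congr 1
  congr 1
  · apply Finset.sum_congr rfl
    intro j _
    change (t * v.1 j) * (s * u.1 j) = _
    calc (t * v.1 j) * (s * u.1 j) = (s * t) * (v.1 j * u.1 j) := by ring
      _ = _ := by rw [hst, one_mul]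

private theorem h3aG_cont : Continuous
    (fun p : ℝ × (Ev ι × Ev ι × Ev ι) => h3aG p.1 p.2) := by
  unfold h3aG
  apply (PiLp.continuous_toLp 2 _).comp
  apply continuous_pi
  rintro ⟨a, j⟩
  fin_cases a
  · simp only [Fin.zero_eta, ↓reduceIte]
    fun_prop
  · simp only [Fin.mk_one, one_ne_zero, ↓reduceIte]
    fun_prop
  · simp only [Fin.reduceFinMk, Fin.reduceEq, ↓reduceIte]
    fun_prop

/-- the inverse map. -/
private noncomputable def h3aI (s : ℝ) (x : EuclideanSpace ℝ (Fin 3 × ι)) :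
    Ev ι × Ev ι × Ev ι :=
  (WithLp.toLp 2 (fun j => s * x (0, j)), WithLp.toLp 2 (fun j => x (1, j)),
    WithLp.toLp 2 (fun j => x (2, j)))

private theorem h3aI_cont : Continuous
    (fun p : ℝ × EuclideanSpace ℝ (Fin 3 × ι) => h3aI p.1 p.2) := by
  unfold h3aI
  refine Continuous.prodMk ?_ (Continuous.prodMk ?_ ?_)
  all_goals
    apply (PiLp.continuous_toLp 2 _).comp
    fun_prop

private theorem h3aG_I (s t : ℝ) (hst : s * t = 1) (x : EuclideanSpace ℝ (Fin 3 × ι)) :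
    h3aG s (h3aI t x) = x := by
  ext ⟨a, j⟩
  fin_cases a
  · change s * (t * x (0, j)) = x (0, j)
    rw [← mul_assoc, hst, one_mul]
  · rfl
  · rfl

private theorem h3aG_sub (s : ℝ) (u v : Ev ι × Ev ι × Ev ι) :
    h3aG s (u - v) = h3aG s u - h3aG s v := by
  ext ⟨a, j⟩
  fin_cases a
  · change s * (u.1 j - v.1 j) = s * u.1 j - s * v.1 j
    ring
  · rfl
  · rfl

private theorem h3aG_add (s : ℝ) (u v : Ev ι × Ev ι × Ev ι) :
    h3aG s (u + v) = h3aG s u + h3aG s v := by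
  ext ⟨a, j⟩
  fin_cases a
  · change s * (u.1 j + v.1 j) = s * u.1 j + s * v.1 j
    ring
  · rfl
  · rfl

private theorem h3aG_smul (s c : ℝ) (u : Ev ι × Ev ι × Ev ι) :
    h3aG s (c • u) = c • h3aG s u := by
  ext ⟨a, j⟩
  fin_cases a
  · change s * (c * u.1 j) = c * (s * u.1 j)
    ring
  · rfl
  · rfl

private theorem h3aG_nsq (z : ℂ) (u : Ev ι × Ev ι × Ev ι) :
    ‖h3aG (√(wt z)) u‖ ^ 2 = nsq z u := by
  rw [h3aG_norm, Real.sq_sqrt (wt_pos z).le]
  rfl

private theorem h3a_meas {s : ℂ → ℝ} (hs : Continuous s) {U : Fld ι}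
    (hU : AEStronglyMeasurable U volume) :
    AEStronglyMeasurable (fun z => h3aG (s z) (U z)) volume :=
  h3aG_cont.comp_aestronglyMeasurable (hs.aestronglyMeasurable.prodMk hU)

private theorem h3a_memLp {U : Fld ι} (hU : IsSob U) :
    MemLp (fun z => h3aG (√(wt z)) (U z)) 2 volume := by
  rw [memLp_two_iff_integrable_sq_norm (h3a_meas (continuous_wt.sqrt) hU.1)]
  have := hU.integrable
  simpa only [h3aG_nsq] using this

private theorem h3a_sqrt_ne (z : ℂ) : √(wt z) ≠ 0 := (Real.sqrt_pos.mpr (wt_pos z)).ne'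

private theorem h3a_inv_cont : Continuous (fun z => (√(wt z))⁻¹) :=
  continuous_wt.sqrt.inv₀ h3a_sqrt_ne

private theorem h3a_dual_memLp {Z : Fld ι} (hZ : IsDual Z) :
    MemLp (fun z => h3aG (√(wt z))⁻¹ (Z z)) 2 volume := by
  rw [memLp_two_iff_integrable_sq_norm (h3a_meas h3a_inv_cont hZ.1)]
  have := hZ.2
  refine this.congr (Eventually.of_forall fun z => ?_)
  simp only
  rw [h3aG_norm, inv_pow, Real.sq_sqrt (wt_pos z).le]

private theorem h3a_pair (Z U : Fld ι) (z : ℂ) :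
    ⟪h3aG (√(wt z)) (U z), h3aG (√(wt z))⁻¹ (Z z)⟫ = pair Z U z := by
  rw [h3aG_inner _ _ (mul_inv_cancel₀ (h3a_sqrt_ne z))]
  rfl

theorem pair_integrable {Z U : Fld ι} (hZ : IsDual Z) (hU : IsSob U) :
    Integrable (pair Z U) volume := by
  have h1 := L2.integrable_inner (𝕜 := ℝ) (h3a_memLp hU).toLp (h3a_dual_memLp hZ).toLp
  refine h1.congr ?_
  filter_upwards [(h3a_memLp hU).coeFn_toLp, (h3a_dual_memLp hZ).coeFn_toLp] with z h2 h3
  rw [h2, h3, h3a_pair]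

private theorem h3a_inner_eq {Z U : Fld ι} (hZ : IsDual Z) (x : Lp (EuclideanSpace ℝ (Fin 3 × ι)) 2
    (volume : Measure ℂ)) (hx : ∀ᵐ z : ℂ, x z = h3aG (√(wt z)) (U z)) :
    ⟪x, (h3a_dual_memLp hZ).toLp⟫ = ∫ z, pair Z U z := by
  rw [L2.inner_def]
  apply integral_congr_ae
  filter_upwards [hx, (h3a_dual_memLp hZ).coeFn_toLp] with z h2 h3
  rw [h2, h3, h3a_pair]

/-- the subspace of the fields of finite energy. -/
private noncomputable def h3aK (ι : Type) [Fintype ι] [DecidableEq ι] :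
    Submodule ℝ (Lp (EuclideanSpace ℝ (Fin 3 × ι)) 2 (volume : Measure ℂ)) where
  carrier := {x | ∃ U : Fld ι, IsSob U ∧ ∀ᵐ z : ℂ, x z = h3aG (√(wt z)) (U z)}
  zero_mem' := by
    refine ⟨0, IsSob.zero, ?_⟩
    filter_upwards [Lp.coeFn_zero (EuclideanSpace ℝ (Fin 3 × ι)) 2 (volume : Measure ℂ)] with z hz
    rw [hz]
    have h := h3aG_smul (ι := ι) (√(wt z)) 0 0
    rw [zero_smul, zero_smul] at h
    exact h.symm
  add_mem' := by
    rintro x y ⟨U, hU, hx⟩ ⟨V, hV, hy⟩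
    refine ⟨U + V, hU.add hV, ?_⟩
    filter_upwards [hx, hy, Lp.coeFn_add x y] with z h1 h2 h3
    rw [h3, Pi.add_apply, h1, h2, Pi.add_apply, h3aG_add]
  smul_mem' := by
    rintro c x ⟨U, hU, hx⟩
    refine ⟨c • U, hU.smul c, ?_⟩
    filter_upwards [hx, Lp.coeFn_smul c x] with z h1 h3
    rw [h3, Pi.smul_apply, h1, Pi.smul_apply, h3aG_smul]

private theorem h3aK_closed : IsClosed (h3aK ι : Set (Lp (EuclideanSpace ℝ (Fin 3 × ι)) 2
    (volume : Measure ℂ))) := by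
  apply IsSeqClosed.isClosed
  intro x y hx hlim
  choose U hU hxU using hx
  let V : Fld ι := fun z => h3aI (√(wt z))⁻¹ (y z)
  have hVm : AEStronglyMeasurable V volume :=
    h3aI_cont.comp_aestronglyMeasurable
      (h3a_inv_cont.aestronglyMeasurable.prodMk (Lp.aestronglyMeasurable y))
  have hyV : ∀ z : ℂ, y z = h3aG (√(wt z)) (V z) := fun z =>
    (h3aG_I _ _ (mul_inv_cancel₀ (h3a_sqrt_ne z)) _).symm
  refine ⟨V, sob_closed U hU V hVm ?_, Eventually.of_forall hyV⟩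
  have h1 : ∀ n, ∫⁻ z, ENNReal.ofReal (nsq z (V z - U n z)) = ENNReal.ofReal (‖y - x n‖ ^ 2) := by
    intro n
    have h2 : ∫⁻ z, ENNReal.ofReal (nsq z (V z - U n z)) = ∫⁻ z, ‖(y - x n : Lp _ 2 _) z‖ₑ ^ 2 := by
      apply lintegral_congr_ae
      filter_upwards [hxU n, Lp.coeFn_sub y (x n)] with z h3 h4
      rw [h4, Pi.sub_apply, h3, hyV z, ← h3aG_sub, ← h3aG_nsq, ← ofReal_norm,
        ENNReal.ofReal_pow (norm_nonneg _)]
    rw [h2, Lp.norm_def, ENNReal.ofReal_pow ENNReal.toReal_nonneg, ENNReal.ofReal_toReal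
      (Lp.eLpNorm_ne_top _)]
    rw [eLpNorm_eq_lintegral_rpow_enorm_toReal (by norm_num) (by norm_num)]
    simp only [ENNReal.toReal_ofNat]
    rw [← ENNReal.rpow_natCast, ← ENNReal.rpow_mul]
    norm_num
  have h2 : Tendsto (fun n => ENNReal.ofReal (‖y - x n‖ ^ 2)) atTop (𝓝 0) := by
    have h3 : Tendsto (fun n => ‖y - x n‖ ^ 2) atTop (𝓝 0) := by
      have h4 : Tendsto (fun n => ‖y - x n‖) atTop (𝓝 0) := by
        have := (tendsto_iff_norm_sub_tendsto_zero.mp hlim)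
        refine this.congr fun n => ?_
        rw [norm_sub_rev]
      have := h4.pow 2
      simpa using this
    have := ENNReal.tendsto_ofReal h3
    simpa using this
  exact h2.congr fun n => (h1 n).symm

theorem weak_compact (U : ℕ → Fld ι) (hU : ∀ n, IsSob (U n)) (M : ℝ) (hM : ∀ n, En (U n) ≤ M) :
    ∃ V : Fld ι, IsSob V ∧ ∃ k : ℕ → ℕ, StrictMono k ∧ ∀ Z : Fld ι, IsDual Z →
      Tendsto (fun n => ∫ z, pair Z (U (k n)) z) atTop (𝓝 (∫ z, pair Z V z)) := by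
  have : Fact ((2 : ENNReal) ≠ ⊤) := ⟨by norm_num⟩
  let x : ℕ → Lp (EuclideanSpace ℝ (Fin 3 × ι)) 2 (volume : Measure ℂ) :=
    fun n => (h3a_memLp (hU n)).toLp
  have hxe : ∀ n, ∀ᵐ z : ℂ, x n z = h3aG (√(wt z)) (U n z) := fun n =>
    (h3a_memLp (hU n)).coeFn_toLp
  have hxK : ∀ n, x n ∈ h3aK ι := fun n => ⟨U n, hU n, hxe n⟩
  have hxM : ∀ n, ‖x n‖ ≤ √M := by
    intro n
    apply Real.le_sqrt_of_sq_le
    have h1 : ‖x n‖ ^ 2 = En (U n) := by
      rw [← real_inner_self_eq_norm_sq, L2.inner_def]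
      unfold En
      apply integral_congr_ae
      filter_upwards [hxe n] with z hz
      rw [hz, real_inner_self_eq_norm_sq, h3aG_nsq]
    rw [h1]
    exact hM n
  obtain ⟨v, ⟨V, hV, hvV⟩, k, hk, hw⟩ := h3a_weak (h3aK ι) h3aK_closed x hxK (√M) hxM
  refine ⟨V, hV, k, hk, fun Z hZ => ?_⟩
  have h1 := hw (h3a_dual_memLp hZ).toLp
  rw [h3a_inner_eq hZ v hvV] at h1
  refine h1.congr fun n => ?_
  exact h3a_inner_eq hZ (x (k n)) (hxe (k n))

end Pool.MP_ad5d82_an.Wl
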