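import Pool.Agent.Lib.MP_ad5d82_an.h24.HDefs
import Pool.Agent.Lib.MP_ad5d82_an.h24.H.H1
import Pool.Agent.Lib.MP_ad5d82_an.h24.H.H3a

set_option autoImplicit false
set_option linter.unusedSectionVars false

namespace Pool.MP_ad5d82_an.Wl

open Real Set MeasureTheory Filter Topology
open scoped ContDiff ENNReal

variable {ι : Type} [Fintype ι] [DecidableEq ι]

/-! ### H3b local Rellich theorem -/

private theorem h3b_cs {α : Type} [MeasurableSpace α] (μ : Measure α) [IsProbabilityMeasure μ]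
    {f : α → ℝ≥0∞} (hf : AEMeasurable f μ) : (∫⁻ a, f a ∂μ) ^ 2 ≤ ∫⁻ a, f a ^ 2 ∂μ := by
  have h1 := ENNReal.lintegral_mul_le_Lp_mul_Lq μ (Real.HolderConjugate.two_two) hf
    (aemeasurable_const (b := (1 : ℝ≥0∞)))
  simp only [Pi.mul_apply, mul_one, lintegral_const, measure_univ,
    ENNReal.rpow_ofNat, one_pow, ENNReal.one_rpow] at h1
  calc (∫⁻ a, f a ∂μ) ^ 2 ≤ ((∫⁻ a, f a ^ 2 ∂μ) ^ (1 / 2 : ℝ)) ^ 2 := by gcongr
    _ = ∫⁻ a, f a ^ 2 ∂μ := by
      rw [← ENNReal.rpow_natCast, ← ENNReal.rpow_mul]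
      norm_num

private theorem h3b_deriv_le (φ : ℂ → Ev ι) (z h : ℂ) :
    ‖fderiv ℝ φ z h‖ ^ 2 ≤ ‖h‖ ^ 2 * gsq (jet φ z) := by
  have h1 : h = h.re • (1 : ℂ) + h.im • Complex.I := by
    apply Complex.ext <;> simp
  have h2 : fderiv ℝ φ z h = h.re • fderiv ℝ φ z 1 + h.im • fderiv ℝ φ z Complex.I := by
    conv_lhs => rw [h1]
    rw [map_add, map_smul, map_smul]
  have h3 : ‖fderiv ℝ φ z h‖ ≤ |h.re| * ‖fderiv ℝ φ z 1‖ + |h.im| * ‖fderiv ℝ φ z Complex.I‖ := by
    rw [h2]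
    refine (norm_add_le _ _).trans ?_
    rw [norm_smul, norm_smul, Real.norm_eq_abs, Real.norm_eq_abs]
  have h4 : ‖h‖ ^ 2 = |h.re| ^ 2 + |h.im| ^ 2 := by
    rw [Complex.sq_norm, Complex.normSq_apply, sq_abs, sq_abs]; ring
  have h5 : 0 ≤ |h.re| * ‖fderiv ℝ φ z 1‖ + |h.im| * ‖fderiv ℝ φ z Complex.I‖ := by positivity
  calc ‖fderiv ℝ φ z h‖ ^ 2
      ≤ (|h.re| * ‖fderiv ℝ φ z 1‖ + |h.im| * ‖fderiv ℝ φ z Complex.I‖) ^ 2 := by gcongr
    _ ≤ (|h.re| ^ 2 + |h.im| ^ 2) * (‖fderiv ℝ φ z 1‖ ^ 2 + ‖fderiv ℝ φ z Complex.I‖ ^ 2) := by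
      nlinarith [sq_nonneg (|h.re| * ‖fderiv ℝ φ z Complex.I‖ - |h.im| * ‖fderiv ℝ φ z 1‖)]
    _ = ‖h‖ ^ 2 * gsq (jet φ z) := by rw [h4]; rfl

private theorem h3b_ftc {φ : ℂ → Ev ι} (hφ : IsTest φ) (x h : ℂ) :
    ‖φ (x + h) - φ x‖ₑ ^ 2 ≤ ∫⁻ t in Ioc (0 : ℝ) 1, ‖fderiv ℝ φ (x + t • h) h‖ₑ ^ 2 := by
  have hd : Differentiable ℝ φ := hφ.1.differentiable (by simp)
  have hcf : Continuous (fderiv ℝ φ) := hφ.1.continuous_fderiv (by simp)
  have hc : Continuous (fun t : ℝ => fderiv ℝ φ (x + t • h) h) := by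
    have h1 : Continuous (fun t : ℝ => x + t • h) := by fun_prop
    exact (hcf.comp h1).clm_apply continuous_const
  have hder : ∀ t ∈ uIcc (0 : ℝ) 1, HasDerivAt (fun t : ℝ => φ (x + t • h))
      (fderiv ℝ φ (x + t • h) h) t := by
    intro t _
    have h1 : HasDerivAt (fun t : ℝ => x + t • h) h t := by
      have h2 := ((hasDerivAt_id t).smul_const h).const_add x
      simpa using h2
    exact (hd (x + t • h)).hasFDerivAt.comp_hasDerivAt t h1
  have h1 := intervalIntegral.integral_eq_sub_of_hasDerivAt hder (hc.intervalIntegrable 0 1)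
  have h2 : φ (x + h) - φ x = ∫ t in Ioc (0 : ℝ) 1, fderiv ℝ φ (x + t • h) h := by
    rw [← intervalIntegral.integral_of_le zero_le_one, h1]
    simp
  have : IsProbabilityMeasure (volume.restrict (Ioc (0 : ℝ) 1)) := ⟨by simp⟩
  calc ‖φ (x + h) - φ x‖ₑ ^ 2 ≤ (∫⁻ t in Ioc (0 : ℝ) 1, ‖fderiv ℝ φ (x + t • h) h‖ₑ) ^ 2 := by
        rw [h2]
        gcongr
        exact enorm_integral_le_lintegral_enorm _
    _ ≤ _ := h3b_cs _ hc.enorm.aemeasurable

private theorem h3b_enorm_sq {F : Type} [NormedAddCommGroup F] (v : F) :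
    ‖v‖ₑ ^ 2 = ENNReal.ofReal (‖v‖ ^ 2) := by
  rw [← ofReal_norm, ENNReal.ofReal_pow (norm_nonneg _)]

private theorem h3b_gsq_nonneg (u : Ev ι × Ev ι × Ev ι) : 0 ≤ gsq u := by
  unfold gsq; positivity

private theorem h3b_trans_test {φ : ℂ → Ev ι} (hφ : IsTest φ) (h : ℂ) :
    ∫⁻ x, ‖φ (x + h) - φ x‖ₑ ^ 2 ≤ ‖h‖ₑ ^ 2 * ∫⁻ x, ENNReal.ofReal (gsq (jet φ x)) := by
  have hcf : Continuous (fderiv ℝ φ) := hφ.1.continuous_fderiv (by simp)
  have hc : Continuous (fun p : ℂ × ℝ => fderiv ℝ φ (p.1 + p.2 • h) h) := by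
    have h1 : Continuous (fun p : ℂ × ℝ => p.1 + p.2 • h) := by fun_prop
    exact (hcf.comp h1).clm_apply continuous_const
  calc ∫⁻ x, ‖φ (x + h) - φ x‖ₑ ^ 2
      ≤ ∫⁻ x, ∫⁻ t in Ioc (0 : ℝ) 1, ‖fderiv ℝ φ (x + t • h) h‖ₑ ^ 2 :=
        lintegral_mono fun x => h3b_ftc hφ x h
    _ = ∫⁻ t in Ioc (0 : ℝ) 1, ∫⁻ x, ‖fderiv ℝ φ (x + t • h) h‖ₑ ^ 2 := by
        apply lintegral_lintegral_swap
        exact (hc.enorm.measurable.pow_const 2).aemeasurable
    _ = ∫⁻ _t in Ioc (0 : ℝ) 1, ∫⁻ x, ‖fderiv ℝ φ x h‖ₑ ^ 2 := by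
        congr 1
        funext t
        exact lintegral_add_right_eq_self (fun x : ℂ => ‖fderiv ℝ φ x h‖ₑ ^ 2) (t • h)
    _ = ∫⁻ x, ‖fderiv ℝ φ x h‖ₑ ^ 2 := by simp
    _ ≤ ∫⁻ x, ‖h‖ₑ ^ 2 * ENNReal.ofReal (gsq (jet φ x)) := by
        refine lintegral_mono fun x => ?_
        simp only
        rw [h3b_enorm_sq, h3b_enorm_sq, ← ENNReal.ofReal_mul (by positivity)]
        exact ENNReal.ofReal_le_ofReal (h3b_deriv_le φ x h)
    _ = ‖h‖ₑ ^ 2 * ∫⁻ x, ENNReal.ofReal (gsq (jet φ x)) := by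
        rw [lintegral_const_mul' _ _ (by simp)]

private theorem h3b_nsq_nonneg (z : ℂ) (u : Ev ι × Ev ι × Ev ι) : 0 ≤ nsq z u := by
  unfold nsq gsq
  have := (wt_pos z).le
  positivity

private theorem h3b_gsq_le (z : ℂ) (u : Ev ι × Ev ι × Ev ι) : gsq u ≤ nsq z u := by
  unfold nsq
  have := (wt_pos z).le
  have : 0 ≤ wt z * ‖u.1‖ ^ 2 := by positivity
  linarith

private theorem h3b_gsq_sub (z : ℂ) (u v : Ev ι × Ev ι × Ev ι) :
    gsq v ≤ 2 * nsq z u + 2 * nsq z (u - v) := by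
  refine le_trans ?_ (add_le_add (mul_le_mul_of_nonneg_left (h3b_gsq_le z u) zero_le_two)
    (mul_le_mul_of_nonneg_left (h3b_gsq_le z (u - v)) zero_le_two))
  unfold gsq
  have key : ∀ a b : Ev ι, ‖b‖ ^ 2 ≤ 2 * ‖a‖ ^ 2 + 2 * ‖a - b‖ ^ 2 := by
    intro a b
    have h1 : ‖b‖ ≤ ‖a‖ + ‖a - b‖ := by
      have : b = a - (a - b) := by abel
      conv_lhs => rw [this]
      exact norm_sub_le _ _
    nlinarith [norm_nonneg b, sq_nonneg (‖a‖ - ‖a - b‖)]
  have h1 := key u.2.1 v.2.1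
  have h2 := key u.2.2 v.2.2
  simp only [Prod.snd_sub, Prod.fst_sub]
  linarith

private theorem h3b_lint_En {W : Fld ι} (hW : IsSob W) :
    ∫⁻ z, ENNReal.ofReal (nsq z (W z)) = ENNReal.ofReal (En W) := by
  unfold En
  rw [ofReal_integral_eq_lintegral_ofReal hW.integrable
    (Eventually.of_forall fun z => h3b_nsq_nonneg z _)]

private theorem h3b_trans {W : Fld ι} (hW : IsSob W) (h : ℂ) :
    ∫⁻ x, ‖(W (x + h)).1 - (W x).1‖ₑ ^ 2 ≤ ‖h‖ₑ ^ 2 * ENNReal.ofReal (2 * En W) := by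
  obtain ⟨φ, hφ, hE, hae⟩ := hW.exists_seq
  have hae' : ∀ᵐ z : ℂ, Tendsto (fun n => jet (φ n) (z + h)) atTop (𝓝 (W (z + h))) :=
    (measurePreserving_add_right volume h).quasiMeasurePreserving.ae hae
  have hlim : ∀ᵐ x : ℂ, ‖(W (x + h)).1 - (W x).1‖ₑ ^ 2 =
      liminf (fun n => ‖φ n (x + h) - φ n x‖ₑ ^ 2) atTop := by
    filter_upwards [hae, hae'] with x h1 h2
    symm
    apply Tendsto.liminf_eq
    have h3 : Tendsto (fun n => φ n (x + h) - φ n x) atTop (𝓝 ((W (x + h)).1 - (W x).1)) :=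
      ((continuous_fst.tendsto _).comp h2).sub ((continuous_fst.tendsto _).comp h1)
    exact (ENNReal.continuous_pow 2).tendsto _ |>.comp (h3.enorm)
  have hb : ∀ n, ∫⁻ x, ‖φ n (x + h) - φ n x‖ₑ ^ 2 ≤
      ‖h‖ₑ ^ 2 * ENNReal.ofReal (2 * En W + 2 * En (W - jet (φ n))) := by
    intro n
    refine (h3b_trans_test (hφ n) h).trans ?_
    gcongr
    have hsub := hW.sub (isSob_jet (hφ n))
    calc ∫⁻ x, ENNReal.ofReal (gsq (jet (φ n) x))
        ≤ ∫⁻ x, ENNReal.ofReal (2 * nsq x (W x) + 2 * nsq x ((W - jet (φ n)) x)) := by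
          apply lintegral_mono
          intro x
          exact ENNReal.ofReal_le_ofReal (h3b_gsq_sub x (W x) (jet (φ n) x))
      _ = ENNReal.ofReal (∫ x, (2 * nsq x (W x) + 2 * nsq x ((W - jet (φ n)) x))) := by
          symm
          apply ofReal_integral_eq_lintegral_ofReal
            ((hW.integrable.const_mul 2).add (hsub.integrable.const_mul 2))
          refine Eventually.of_forall fun z => ?_
          have h1 := h3b_nsq_nonneg z (W z)
          have h2 := h3b_nsq_nonneg z ((W - jet (φ n)) z)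
          change 0 ≤ 2 * nsq z (W z) + 2 * nsq z ((W - jet (φ n)) z)
          linarith
      _ = ENNReal.ofReal (2 * En W + 2 * En (W - jet (φ n))) := by
          rw [integral_add (hW.integrable.const_mul 2) (hsub.integrable.const_mul 2),
            integral_const_mul, integral_const_mul]
          rfl
  calc ∫⁻ x, ‖(W (x + h)).1 - (W x).1‖ₑ ^ 2
      = ∫⁻ x, liminf (fun n => ‖φ n (x + h) - φ n x‖ₑ ^ 2) atTop := lintegral_congr_ae hlim
    _ ≤ liminf (fun n => ∫⁻ x, ‖φ n (x + h) - φ n x‖ₑ ^ 2) atTop := by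
        apply lintegral_liminf_le'
        intro n
        have h1 : Continuous (φ n) := (hφ n).1.continuous
        have h2 : Continuous (fun x : ℂ => φ n (x + h) - φ n x) := by fun_prop
        exact (h2.enorm.measurable.pow_const 2).aemeasurable
    _ ≤ liminf (fun n => ‖h‖ₑ ^ 2 * ENNReal.ofReal (2 * En W + 2 * En (W - jet (φ n)))) atTop :=
        liminf_le_liminf (Eventually.of_forall hb)
    _ = ‖h‖ₑ ^ 2 * ENNReal.ofReal (2 * En W) := by
        apply Tendsto.liminf_eq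
        apply ENNReal.Tendsto.const_mul
        · apply ENNReal.tendsto_ofReal
          have := (hE.const_mul 2).const_add (2 * En W)
          simpa using this
        · right
          simp

/-- averages over discs. -/
private noncomputable def h3bA (ε : ℝ) (W : Fld ι) (x : ℂ) : Ev ι :=
  ∫ h, (W (x + h)).1 ∂(ProbabilityTheory.cond (volume : Measure ℂ) (Metric.ball 0 ε))

private theorem h3b_prob {ε : ℝ} (hε : 0 < ε) :
    IsProbabilityMeasure (ProbabilityTheory.cond (volume : Measure ℂ) (Metric.ball 0 ε)) := by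
  apply ProbabilityTheory.cond_isProbabilityMeasure_of_finite
  · exact (Metric.measure_ball_pos volume 0 hε).ne'
  · exact measure_ball_lt_top.ne

private theorem h3b_integrable_ball {W : Fld ι} (hW : IsSob W) (x : ℂ) (ε : ℝ) :
    IntegrableOn (fun z => (W z).1) (Metric.ball x ε) volume := by
  have h1 := hW.integrableOn (‖x‖ + ε)
  have h2 : IntegrableOn (fun z => (W z).1) (Metric.ball 0 (‖x‖ + ε)) volume := by
    have hm : AEStronglyMeasurable (fun z => (W z).1) volume :=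
      continuous_fst.comp_aestronglyMeasurable hW.1
    exact (integrable_norm_iff hm.restrict).mp h1
  apply h2.mono_set
  intro z hz
  rw [Metric.mem_ball] at hz ⊢
  calc dist z 0 ≤ dist z x + dist x 0 := dist_triangle _ _ _
    _ < ε + ‖x‖ := by rw [dist_zero_right]; linarith
    _ = ‖x‖ + ε := by ring

private theorem h3b_shift {W : Fld ι} (hW : IsSob W) (x : ℂ) (ε : ℝ) :
    IntegrableOn (fun h => (W (x + h)).1) (Metric.ball 0 ε) volume := by
  have h1 := h3b_integrable_ball hW x ε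
  have h2 := (measurePreserving_add_left volume x).integrableOn_comp_preimage
    (MeasurableEquiv.addLeft x).measurableEmbedding (f := fun z => (W z).1)
    (s := Metric.ball x ε)
  have h3 := h2.mpr h1
  have h4 : (fun h => x + h) ⁻¹' Metric.ball x ε = Metric.ball 0 ε := by
    ext z
    simp [Metric.mem_ball, dist_eq_norm]
  rw [h4] at h3
  exact h3

private theorem h3b_shift_cond {W : Fld ι} (hW : IsSob W) (x : ℂ) {ε : ℝ} (hε : 0 < ε) :
    Integrable (fun h => (W (x + h)).1)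
      (ProbabilityTheory.cond (volume : Measure ℂ) (Metric.ball 0 ε)) := by
  unfold ProbabilityTheory.cond
  apply Integrable.smul_measure (h3b_shift hW x ε)
  exact ENNReal.inv_ne_top.mpr (Metric.measure_ball_pos volume 0 hε).ne'

private theorem h3b_avg {W : Fld ι} (hW : IsSob W) (hWm : StronglyMeasurable W) {ε : ℝ}
    (hε : 0 < ε) :
    ∫⁻ x, ‖(W x).1 - h3bA ε W x‖ₑ ^ 2 ≤ ENNReal.ofReal (ε ^ 2 * (2 * En W)) := by
  have := h3b_prob hε
  set ν : Measure ℂ := ProbabilityTheory.cond (volume : Measure ℂ) (Metric.ball 0 ε) with hν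
  have hm1 : StronglyMeasurable (fun z => (W z).1) :=
    continuous_fst.comp_stronglyMeasurable hWm
  have hpt : ∀ x, ‖(W x).1 - h3bA ε W x‖ₑ ^ 2 ≤ ∫⁻ h, ‖(W (x + h)).1 - (W x).1‖ₑ ^ 2 ∂ν := by
    intro x
    have hi := h3b_shift_cond hW x hε
    have h1 : (W x).1 - h3bA ε W x = ∫ h, ((W x).1 - (W (x + h)).1) ∂ν := by
      rw [integral_sub (integrable_const _) hi, integral_const]
      simp [h3bA]
    calc ‖(W x).1 - h3bA ε W x‖ₑ ^ 2 ≤ (∫⁻ h, ‖(W x).1 - (W (x + h)).1‖ₑ ∂ν) ^ 2 := by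
          rw [h1]
          gcongr
          exact enorm_integral_le_lintegral_enorm _
      _ ≤ ∫⁻ h, ‖(W x).1 - (W (x + h)).1‖ₑ ^ 2 ∂ν := by
          apply h3b_cs
          have : StronglyMeasurable (fun h => (W x).1 - (W (x + h)).1) := by
            apply stronglyMeasurable_const.sub
            exact hm1.comp_measurable (measurable_const_add x)
          exact this.enorm.aemeasurable
      _ = _ := by
          congr 1
          funext h
          rw [← enorm_neg]
          congr 2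
          abel
  have hball : ∀ᵐ h ∂ν, h ∈ Metric.ball (0 : ℂ) ε := by
    rw [hν]
    apply ProbabilityTheory.ae_cond_mem Metric.isOpen_ball.measurableSet
  calc ∫⁻ x, ‖(W x).1 - h3bA ε W x‖ₑ ^ 2
      ≤ ∫⁻ x, ∫⁻ h, ‖(W (x + h)).1 - (W x).1‖ₑ ^ 2 ∂ν := lintegral_mono hpt
    _ = ∫⁻ h, (∫⁻ x, ‖(W (x + h)).1 - (W x).1‖ₑ ^ 2) ∂ν := by
        apply lintegral_lintegral_swap
        have h1 : StronglyMeasurable (fun p : ℂ × ℂ => (W (p.1 + p.2)).1 - (W p.1).1) := by
          apply StronglyMeasurable.sub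
          · exact hm1.comp_measurable measurable_add
          · exact hm1.comp_measurable measurable_fst
        exact (h1.enorm.pow_const 2).aemeasurable
    _ ≤ ∫⁻ _h, ENNReal.ofReal (ε ^ 2 * (2 * En W)) ∂ν := by
        apply lintegral_mono_ae
        filter_upwards [hball] with h hh
        refine (h3b_trans hW h).trans ?_
        rw [h3b_enorm_sq, ← ENNReal.ofReal_mul (by positivity)]
        apply ENNReal.ofReal_le_ofReal
        have h2 : ‖h‖ ≤ ε := (mem_ball_zero_iff.mp hh).le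
        have h3 := En_nonneg W
        gcongr
    _ = ENNReal.ofReal (ε ^ 2 * (2 * En W)) := by simp

private theorem h3b_A_meas {W : Fld ι} (hWm : StronglyMeasurable W) (ε : ℝ) (hε : 0 < ε) :
    StronglyMeasurable (h3bA ε W) := by
  have := h3b_prob hε
  have hm1 : StronglyMeasurable (fun z => (W z).1) :=
    continuous_fst.comp_stronglyMeasurable hWm
  have h1 : StronglyMeasurable (fun p : ℂ × ℂ => (W (p.1 + p.2)).1) :=
    hm1.comp_measurable measurable_add
  exact h1.integral_prod_right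

private theorem h3b_wt_inv_le {z : ℂ} {R : ℝ} (h : ‖z‖ ≤ R) : (1 : ℝ) ≤ (1 + R ^ 2) ^ 2 * wt z := by
  unfold wt
  rw [← div_eq_mul_inv, one_le_div (by positivity)]
  gcongr

private theorem h3b_A_bound {W : Fld ι} (hW : IsSob W) {ε : ℝ} (hε : 0 < ε) (x : ℂ) :
    ‖h3bA ε W x‖ₑ ^ 2 ≤ (volume (Metric.ball (0 : ℂ) ε))⁻¹ *
      (ENNReal.ofReal ((1 + (‖x‖ + ε) ^ 2) ^ 2) * ENNReal.ofReal (En W)) := by
  have := h3b_prob hε
  have hi := h3b_shift_cond hW x hε
  calc ‖h3bA ε W x‖ₑ ^ 2 ≤ (∫⁻ h, ‖(W (x + h)).1‖ₑ ∂(ProbabilityTheory.cond (volume : Measure ℂ)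
          (Metric.ball 0 ε))) ^ 2 := by
        unfold h3bA
        gcongr
        exact enorm_integral_le_lintegral_enorm _
    _ ≤ ∫⁻ h, ‖(W (x + h)).1‖ₑ ^ 2 ∂(ProbabilityTheory.cond (volume : Measure ℂ)
          (Metric.ball 0 ε)) := h3b_cs _ hi.1.enorm
    _ = (volume (Metric.ball (0 : ℂ) ε))⁻¹ *
          ∫⁻ h in Metric.ball (0 : ℂ) ε, ‖(W (x + h)).1‖ₑ ^ 2 := by
        unfold ProbabilityTheory.cond
        rw [lintegral_smul_measure, smul_eq_mul]
    _ ≤ (volume (Metric.ball (0 : ℂ) ε))⁻¹ *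
          ∫⁻ h, ENNReal.ofReal ((1 + (‖x‖ + ε) ^ 2) ^ 2) *
            ENNReal.ofReal (nsq (x + h) (W (x + h))) := by
        refine mul_le_mul_right ?_ _
        calc ∫⁻ h in Metric.ball (0 : ℂ) ε, ‖(W (x + h)).1‖ₑ ^ 2
            ≤ ∫⁻ h in Metric.ball (0 : ℂ) ε, ENNReal.ofReal ((1 + (‖x‖ + ε) ^ 2) ^ 2) *
              ENNReal.ofReal (nsq (x + h) (W (x + h))) := by
              apply setLIntegral_mono' Metric.isOpen_ball.measurableSet
              intro h hh
              rw [h3b_enorm_sq, ← ENNReal.ofReal_mul (by positivity)]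
              apply ENNReal.ofReal_le_ofReal
              have h1 : ‖x + h‖ ≤ ‖x‖ + ε :=
                (norm_add_le _ _).trans (by
                  have := (mem_ball_zero_iff.mp hh).le
                  linarith)
              have h2 := h3b_wt_inv_le h1
              have h3 : wt (x + h) * ‖(W (x + h)).1‖ ^ 2 ≤ nsq (x + h) (W (x + h)) := by
                unfold nsq
                have := h3b_gsq_nonneg (W (x + h))
                linarith
              calc ‖(W (x + h)).1‖ ^ 2 = 1 * ‖(W (x + h)).1‖ ^ 2 := by ring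
                _ ≤ ((1 + (‖x‖ + ε) ^ 2) ^ 2 * wt (x + h)) * ‖(W (x + h)).1‖ ^ 2 := by gcongr
                _ = (1 + (‖x‖ + ε) ^ 2) ^ 2 * (wt (x + h) * ‖(W (x + h)).1‖ ^ 2) := by ring
                _ ≤ _ := by gcongr
          _ ≤ _ := setLIntegral_le_lintegral _ _
    _ = _ := by
        congr 1
        rw [lintegral_const_mul' _ _ (by simp)]
        congr 1
        rw [← h3b_lint_En hW]
        exact lintegral_add_left_eq_self (fun z : ℂ => ENNReal.ofReal (nsq z (W z))) x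

/-- the dual field which computes the average. -/
private noncomputable def h3bZ (ε : ℝ) (x : ℂ) (j : ι) : Fld ι := fun z =>
  ((Metric.ball x ε).indicator (fun _ => ((volume (Metric.ball (0 : ℂ) ε)).toReal)⁻¹ •
    EuclideanSpace.single j (1 : ℝ)) z, 0, 0)

private theorem h3bZ_dual (ε : ℝ) (x : ℂ) (j : ι) : IsDual (h3bZ ε x j) := by
  have hm : StronglyMeasurable (fun z => (Metric.ball x ε).indicator
      (fun _ => ((volume (Metric.ball (0 : ℂ) ε)).toReal)⁻¹ •
        (EuclideanSpace.single j (1 : ℝ) : Ev ι)) z) :=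
    stronglyMeasurable_const.indicator Metric.isOpen_ball.measurableSet
  constructor
  · exact (hm.prodMk stronglyMeasurable_const).aestronglyMeasurable
  · set c : ℝ := ((volume (Metric.ball (0 : ℂ) ε)).toReal)⁻¹ with hc
    have h1 : IntegrableOn (fun z : ℂ => (wt z)⁻¹ * c ^ 2) (Metric.ball x ε) volume := by
      have hcont : Continuous (fun z : ℂ => (wt z)⁻¹ * c ^ 2) :=
        (continuous_wt.inv₀ (fun z => (wt_pos z).ne')).mul continuous_const
      apply (hcont.continuousOn.integrableOn_compact (isCompact_closedBall x ε)).mono_set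
      exact Metric.ball_subset_closedBall
    have h2 := h1.integrable_indicator Metric.isOpen_ball.measurableSet
    refine h2.congr (Eventually.of_forall fun z => ?_)
    simp only [h3bZ]
    rw [← hc]
    by_cases hz : z ∈ Metric.ball x ε
    · rw [indicator_of_mem hz, indicator_of_mem hz, norm_smul, PiLp.norm_single]
      simp only [norm_one, mul_one, Real.norm_eq_abs, sq_abs, norm_zero]
      ring
    · rw [indicator_of_notMem hz, indicator_of_notMem hz]
      simp

private theorem h3bZ_pair {W : Fld ι} (hW : IsSob W) {ε : ℝ} (hε : 0 < ε) (x : ℂ) (j : ι) :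
    ∫ z, pair (h3bZ ε x j) W z = (h3bA ε W x) j := by
  have := h3b_prob hε
  set c : ℝ := ((volume (Metric.ball (0 : ℂ) ε)).toReal)⁻¹ with hc
  have h1 : ∀ z, pair (h3bZ ε x j) W z =
      (Metric.ball x ε).indicator (fun z => c * (W z).1 j) z := by
    intro z
    unfold pair h3bZ
    by_cases hz : z ∈ Metric.ball x ε
    · rw [indicator_of_mem hz, indicator_of_mem hz]
      simp only [PiLp.smul_apply, PiLp.zero_apply, smul_eq_mul, zero_mul, add_zero,
        PiLp.single_apply]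
      rw [Finset.sum_eq_single j]
      · simp [hc]
      · intro i _ hij
        simp [hij]
      · simp
    · rw [indicator_of_notMem hz, indicator_of_notMem hz]
      simp
  have h2 : ∫ z, pair (h3bZ ε x j) W z = ∫ z in Metric.ball x ε, c * (W z).1 j := by
    rw [← integral_indicator Metric.isOpen_ball.measurableSet]
    congr 1
    funext z
    exact h1 z
  have hproj : (h3bA ε W x) j = ∫ h, (W (x + h)).1 j ∂(ProbabilityTheory.cond
      (volume : Measure ℂ) (Metric.ball 0 ε)) := by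
    unfold h3bA
    have h3 := (EuclideanSpace.proj (𝕜 := ℝ) j : EuclideanSpace ℝ ι →L[ℝ] ℝ).integral_comp_comm
      (h3b_shift_cond hW x hε)
    exact h3.symm
  rw [h2, hproj]
  unfold ProbabilityTheory.cond
  rw [integral_smul_measure, integral_const_mul, ENNReal.toReal_inv, smul_eq_mul]
  congr 1
  have h4 := (measurePreserving_add_left volume x).setIntegral_preimage_emb
    (MeasurableEquiv.addLeft x).measurableEmbedding (fun z => (W z).1 j) (Metric.ball x ε)
  rw [← h4]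
  have h5 : (fun h => x + h) ⁻¹' Metric.ball x ε = Metric.ball 0 ε := by
    ext z
    simp [Metric.mem_ball, dist_eq_norm]
  rw [h5]

/-- the main statement, for sequences converging weakly to zero. -/
private theorem h3b_main (W : ℕ → Fld ι) (hW : ∀ n, IsSob (W n))
    (hWm : ∀ n, StronglyMeasurable (W n)) (M : ℝ) (hM : ∀ n, En (W n) ≤ M)
    (hw : ∀ Z : Fld ι, IsDual Z → Tendsto (fun n => ∫ z, pair Z (W n) z) atTop (𝓝 0)) (R : ℝ) :
    Tendsto (fun n => ∫⁻ z in Metric.ball (0 : ℂ) R, ‖(W n z).1‖ₑ ^ 2) atTop (𝓝 0) := by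
  have hA0 : ∀ ε > 0, Tendsto (fun n => ∫⁻ z in Metric.ball (0 : ℂ) R, ‖h3bA ε (W n) z‖ₑ ^ 2)
      atTop (𝓝 0) := by
    intro ε hε
    have hvol : (volume (Metric.ball (0 : ℂ) ε)) ≠ 0 := (Metric.measure_ball_pos volume 0 hε).ne'
    set K : ℝ≥0∞ := (volume (Metric.ball (0 : ℂ) ε))⁻¹ *
      (ENNReal.ofReal ((1 + (|R| + ε) ^ 2) ^ 2) * ENNReal.ofReal M) with hK
    have hKt : K ≠ ⊤ := by
      rw [hK]
      apply ENNReal.mul_ne_top (ENNReal.inv_ne_top.mpr hvol)
      exact ENNReal.mul_ne_top ENNReal.ofReal_ne_top ENNReal.ofReal_ne_top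
    have h0 : ∫⁻ _z in Metric.ball (0 : ℂ) R, (0 : ℝ≥0∞) = 0 := by simp
    rw [← h0]
    apply tendsto_lintegral_of_dominated_convergence (bound := fun _ => K)
    · intro n
      exact ((h3b_A_meas (hWm n) ε hε).enorm.pow_const 2)
    · intro n
      rw [Filter.EventuallyLE, ae_restrict_iff' Metric.isOpen_ball.measurableSet]
      refine Eventually.of_forall fun z hz => ?_
      refine (h3b_A_bound (hW n) hε z).trans ?_
      rw [hK]
      have h1 : ‖z‖ ≤ |R| := ((mem_ball_zero_iff.mp hz).le).trans (le_abs_self R)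
      gcongr
      exact hM n
    · rw [setLIntegral_const]
      exact ENNReal.mul_ne_top hKt measure_ball_lt_top.ne
    · refine Eventually.of_forall fun z => ?_
      have h1 : Tendsto (fun n => h3bA ε (W n) z) atTop (𝓝 0) := by
        have h2 : Tendsto (fun n => (WithLp.ofLp (h3bA ε (W n) z) : ι → ℝ)) atTop (𝓝 0) := by
          rw [tendsto_pi_nhds]
          intro j
          have h3 := hw _ (h3bZ_dual ε z j)
          refine h3.congr fun n => ?_
          exact h3bZ_pair (hW n) hε z j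
        have h3 := ((PiLp.continuous_toLp 2 (fun _ : ι => ℝ)).tendsto 0).comp h2
        exact h3
      have h2 := (ENNReal.continuous_pow 2).tendsto _ |>.comp h1.enorm
      simp only [enorm_zero, ne_eq, OfNat.ofNat_ne_zero, not_false_eq_true, zero_pow] at h2
      exact h2
  have key : ∀ ε > 0, ∀ n, ∫⁻ z in Metric.ball (0 : ℂ) R, ‖(W n z).1‖ₑ ^ 2 ≤
      2 * ENNReal.ofReal (ε ^ 2 * (2 * M)) +
        2 * ∫⁻ z in Metric.ball (0 : ℂ) R, ‖h3bA ε (W n) z‖ₑ ^ 2 := by
    intro ε hε n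
    have hmA : Measurable (fun z => ‖h3bA ε (W n) z‖ₑ ^ 2) :=
      ((h3b_A_meas (hWm n) ε hε).enorm.pow_const 2)
    have hpt : ∀ z, ‖(W n z).1‖ₑ ^ 2 ≤ 2 * ‖(W n z).1 - h3bA ε (W n) z‖ₑ ^ 2 +
        2 * ‖h3bA ε (W n) z‖ₑ ^ 2 := by
      intro z
      have e2 : ∀ r : ℝ, (2 : ℝ≥0∞) * ENNReal.ofReal r = ENNReal.ofReal (2 * r) := by
        intro r
        rw [ENNReal.ofReal_mul (by norm_num)]
        simp
      rw [h3b_enorm_sq, h3b_enorm_sq, h3b_enorm_sq, e2, e2,
        ← ENNReal.ofReal_add (by positivity) (by positivity)]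
      apply ENNReal.ofReal_le_ofReal
      have h1 : ‖(W n z).1‖ ≤ ‖(W n z).1 - h3bA ε (W n) z‖ + ‖h3bA ε (W n) z‖ := by
        have := norm_add_le ((W n z).1 - h3bA ε (W n) z) (h3bA ε (W n) z)
        rwa [sub_add_cancel] at this
      nlinarith [norm_nonneg (W n z).1,
        sq_nonneg (‖(W n z).1 - h3bA ε (W n) z‖ - ‖h3bA ε (W n) z‖)]
    calc ∫⁻ z in Metric.ball (0 : ℂ) R, ‖(W n z).1‖ₑ ^ 2
        ≤ ∫⁻ z in Metric.ball (0 : ℂ) R, (2 * ‖(W n z).1 - h3bA ε (W n) z‖ₑ ^ 2 +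
          2 * ‖h3bA ε (W n) z‖ₑ ^ 2) := lintegral_mono fun z => hpt z
      _ = (∫⁻ z in Metric.ball (0 : ℂ) R, 2 * ‖(W n z).1 - h3bA ε (W n) z‖ₑ ^ 2) +
          ∫⁻ z in Metric.ball (0 : ℂ) R, 2 * ‖h3bA ε (W n) z‖ₑ ^ 2 :=
          lintegral_add_right _ (hmA.const_mul 2)
      _ = 2 * (∫⁻ z in Metric.ball (0 : ℂ) R, ‖(W n z).1 - h3bA ε (W n) z‖ₑ ^ 2) +
          2 * ∫⁻ z in Metric.ball (0 : ℂ) R, ‖h3bA ε (W n) z‖ₑ ^ 2 := by
          rw [lintegral_const_mul' _ _ (by simp), lintegral_const_mul' _ _ (by simp)]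
      _ ≤ _ := by
          gcongr
          refine (setLIntegral_le_lintegral _ _).trans ((h3b_avg (hW n) (hWm n) hε).trans ?_)
          apply ENNReal.ofReal_le_ofReal
          have := hM n
          gcongr
  rw [ENNReal.tendsto_nhds_zero]
  intro δ hδ
  -- choose ε
  obtain ⟨ε, hε, hεδ⟩ : ∃ ε > 0, 2 * ENNReal.ofReal (ε ^ 2 * (2 * M)) ≤ δ / 2 := by
    have h1 : Tendsto (fun ε : ℝ => 2 * ENNReal.ofReal (ε ^ 2 * (2 * M))) (𝓝[>] 0) (𝓝 0) := by
      have h2 : Continuous (fun ε : ℝ => 2 * ENNReal.ofReal (ε ^ 2 * (2 * M))) := by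
        apply ENNReal.continuous_const_mul (by simp) |>.comp
        apply ENNReal.continuous_ofReal.comp
        fun_prop
      have h3 := (h2.tendsto 0).mono_left (nhdsWithin_le_nhds (s := Ioi 0))
      simpa using h3
    have h2 : ∀ᶠ ε in 𝓝[>] (0 : ℝ), 2 * ENNReal.ofReal (ε ^ 2 * (2 * M)) ≤ δ / 2 := by
      rw [ENNReal.tendsto_nhds_zero] at h1
      exact h1 (δ / 2) (ENNReal.half_pos hδ.ne')
    obtain ⟨ε, h3, h4⟩ := (h2.and self_mem_nhdsWithin).exists
    exact ⟨ε, h4, h3⟩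
  have h1 : Tendsto (fun n => 2 * ∫⁻ z in Metric.ball (0 : ℂ) R, ‖h3bA ε (W n) z‖ₑ ^ 2)
      atTop (𝓝 0) := by
    have := ENNReal.Tendsto.const_mul (hA0 ε hε) (a := 2) (Or.inr (by simp))
    simpa using this
  rw [ENNReal.tendsto_nhds_zero] at h1
  filter_upwards [h1 (δ / 2) (ENNReal.half_pos hδ.ne')] with n hn
  refine (key ε hε n).trans ?_
  calc _ ≤ δ / 2 + δ / 2 := add_le_add hεδ hn
    _ = δ := ENNReal.add_halves δ

theorem rellich (U : ℕ → Fld ι) (hU : ∀ n, IsSob (U n)) (M : ℝ) (hM : ∀ n, En (U n) ≤ M)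
    (V : Fld ι) (hV : IsSob V)
    (hw : ∀ Z : Fld ι, IsDual Z → Tendsto (fun n => ∫ z, pair Z (U n) z) atTop (𝓝 (∫ z, pair Z V z)))
    (R : ℝ) :
    Tendsto (fun n => ∫ z in Metric.ball (0 : ℂ) R, ‖(U n z).1 - (V z).1‖ ^ 2) atTop (𝓝 0) := by
  -- the measurable representatives of the differences
  have hS : ∀ n, IsSob (U n - V) := fun n => (hU n).sub hV
  let W : ℕ → Fld ι := fun n => (hS n).1.mk (U n - V)
  have hWe : ∀ n, (U n - V) =ᵐ[volume] W n := fun n => (hS n).1.ae_eq_mk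
  have hW : ∀ n, IsSob (W n) := fun n => (hS n).congr (hWe n)
  have hWm : ∀ n, StronglyMeasurable (W n) := fun n => (hS n).1.stronglyMeasurable_mk
  have hEn : ∀ n, En (W n) = En (U n - V) := by
    intro n
    unfold En
    apply integral_congr_ae
    filter_upwards [hWe n] with z hz
    rw [hz]
  have hVneg : En (-V) = En V := by
    unfold En
    congr 1
    funext z
    simp [nsq, gsq]
  have hM' : ∀ n, En (W n) ≤ 2 * M + 2 * En V := by
    intro n
    rw [hEn, sub_eq_add_neg]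
    have h1 := En_add_le (hU n) hV.neg
    rw [hVneg] at h1
    have := hM n
    linarith
  have hw' : ∀ Z : Fld ι, IsDual Z → Tendsto (fun n => ∫ z, pair Z (W n) z) atTop (𝓝 0) := by
    intro Z hZ
    have h1 := (hw Z hZ).sub_const (∫ z, pair Z V z)
    rw [sub_self] at h1
    refine h1.congr fun n => ?_
    rw [← integral_sub (pair_integrable hZ (hU n)) (pair_integrable hZ hV)]
    apply integral_congr_ae
    filter_upwards [hWe n] with z hz
    unfold pair
    rw [← hz, ← Finset.sum_sub_distrib]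
    apply Finset.sum_congr rfl
    intro j _
    simp only [Pi.sub_apply, Prod.fst_sub, Prod.snd_sub, PiLp.sub_apply]
    ring
  have hmain := h3b_main W hW hWm _ hM' hw' R
  have h2 : ∀ n, ∫ z in Metric.ball (0 : ℂ) R, ‖(U n z).1 - (V z).1‖ ^ 2 =
      (∫⁻ z in Metric.ball (0 : ℂ) R, ‖(W n z).1‖ₑ ^ 2).toReal := by
    intro n
    have hms : AEStronglyMeasurable (fun z => ‖(U n z).1 - (V z).1‖ ^ 2)
        (volume.restrict (Metric.ball (0 : ℂ) R)) := by
      have h3 : AEStronglyMeasurable (fun z => (U n z).1 - (V z).1) volume :=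
        (continuous_fst.comp_aestronglyMeasurable (hU n).1).sub
          (continuous_fst.comp_aestronglyMeasurable hV.1)
      exact (h3.norm.pow 2).restrict
    rw [integral_eq_lintegral_of_nonneg_ae (Eventually.of_forall fun z => by
      simp only [Pi.zero_apply]; positivity) hms]
    congr 1
    apply lintegral_congr_ae
    filter_upwards [ae_restrict_of_ae (hWe n)] with z hz
    rw [← hz, h3b_enorm_sq]
    rfl
  have h3 := (ENNReal.tendsto_toReal (ENNReal.zero_ne_top)).comp hmain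
  refine (h3.congr fun n => (h2 n).symm)

/-- almost everywhere convergence of a subsequence. -/
theorem ae_subseq (U : ℕ → Fld ι) (hU : ∀ n, IsSob (U n)) (V : Fld ι) (hV : IsSob V)
    (h : ∀ R : ℝ, Tendsto (fun n => ∫ z in Metric.ball (0 : ℂ) R, ‖(U n z).1 - (V z).1‖ ^ 2)
      atTop (𝓝 0)) :
    ∃ k : ℕ → ℕ, StrictMono k ∧ ∀ᵐ z : ℂ, Tendsto (fun n => (U (k n) z).1) atTop (𝓝 (V z).1) := by
  have hms : ∀ n, AEStronglyMeasurable (fun z => (U n z).1 - (V z).1) volume := fun n =>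
    (continuous_fst.comp_aestronglyMeasurable (hU n).1).sub
      (continuous_fst.comp_aestronglyMeasurable hV.1)
  have hint : ∀ n R, IntegrableOn (fun z => ‖(U n z).1 - (V z).1‖ ^ 2)
      (Metric.ball (0 : ℂ) R) volume := by
    intro n R
    exact ((hU n).sub hV).integrableOn_sq R
  have hex : ∀ m : ℕ, ∀ᶠ n in atTop,
      ∫ z in Metric.ball (0 : ℂ) m, ‖(U n z).1 - (V z).1‖ ^ 2 < (1 / 2) ^ m := by
    intro m
    exact (tendsto_order.mp (h m)).2 _ (by positivity)
  obtain ⟨k, hk, hkm⟩ := extraction_forall_of_eventually hex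
  refine ⟨k, hk, ?_⟩
  have hball : ∀ N : ℕ, ∀ᵐ z : ℂ, z ∈ Metric.ball (0 : ℂ) N →
      Tendsto (fun n => (U (k n) z).1) atTop (𝓝 (V z).1) := by
    intro N
    rw [← ae_restrict_iff' Metric.isOpen_ball.measurableSet]
    have hmm : ∀ m : ℕ, AEMeasurable (fun z => ENNReal.ofReal
        (‖(U (k (m + N)) z).1 - (V z).1‖ ^ 2)) (volume.restrict (Metric.ball (0 : ℂ) N)) := by
      intro m
      have h1 : AEStronglyMeasurable (fun z => ‖(U (k (m + N)) z).1 - (V z).1‖ ^ 2)
        (volume.restrict (Metric.ball (0 : ℂ) N)) := ((hms (k (m + N))).norm.pow 2).restrict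
      exact h1.aemeasurable.ennreal_ofReal
    have hsum : ∫⁻ z in Metric.ball (0 : ℂ) N, ∑' m : ℕ,
        ENNReal.ofReal (‖(U (k (m + N)) z).1 - (V z).1‖ ^ 2) ≠ ⊤ := by
      rw [lintegral_tsum hmm]
      have h1 : ∀ m : ℕ, ∫⁻ z in Metric.ball (0 : ℂ) N,
          ENNReal.ofReal (‖(U (k (m + N)) z).1 - (V z).1‖ ^ 2) ≤
          ENNReal.ofReal ((1 / 2) ^ (m + N)) := by
        intro m
        rw [← ofReal_integral_eq_lintegral_ofReal (hint (k (m + N)) N)
          (Eventually.of_forall fun z => by simp only [Pi.zero_apply]; positivity)]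
        apply ENNReal.ofReal_le_ofReal
        refine le_trans ?_ (hkm (m + N)).le
        apply setIntegral_mono_set (hint _ _)
          (Eventually.of_forall fun z => by simp only [Pi.zero_apply]; positivity)
        apply LE.le.eventuallyLE
        apply Metric.ball_subset_ball
        push_cast
        linarith [(Nat.cast_nonneg m : (0 : ℝ) ≤ (m : ℝ))]
      refine ne_top_of_le_ne_top ?_ (ENNReal.tsum_le_tsum h1)
      have h2 : Summable (fun m : ℕ => ((1 / 2 : ℝ)) ^ (m + N)) := by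
        simp only [pow_add]
        exact (summable_geometric_two).mul_right _
      rw [← ENNReal.ofReal_tsum_of_nonneg (fun m => by positivity) h2]
      exact ENNReal.ofReal_ne_top
    have hmeas : AEMeasurable (fun z => ∑' m : ℕ,
        ENNReal.ofReal (‖(U (k (m + N)) z).1 - (V z).1‖ ^ 2))
        (volume.restrict (Metric.ball (0 : ℂ) N)) :=
      AEMeasurable.tsum hmm
    filter_upwards [ae_lt_top' hmeas hsum] with z hz
    have h1 := ENNReal.tendsto_atTop_zero_of_tsum_ne_top hz.ne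
    have h2 : Tendsto (fun m : ℕ => ‖(U (k (m + N)) z).1 - (V z).1‖ ^ 2) atTop (𝓝 0) := by
      have h3 := (ENNReal.tendsto_toReal (ENNReal.zero_ne_top)).comp h1
      refine (h3.congr fun m => ?_)
      simp only [Function.comp_apply]
      rw [ENNReal.toReal_ofReal (by positivity)]
    have h3 : Tendsto (fun m : ℕ => ‖(U (k (m + N)) z).1 - (V z).1‖) atTop (𝓝 0) := by
      have h4 := (Real.continuous_sqrt.tendsto 0).comp h2
      rw [Real.sqrt_zero] at h4
      refine h4.congr fun m => ?_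
      simp only [Function.comp_apply]
      rw [Real.sqrt_sq (norm_nonneg _)]
    have h4 : Tendsto (fun m : ℕ => (U (k (m + N)) z).1) atTop (𝓝 (V z).1) :=
      tendsto_iff_norm_sub_tendsto_zero.mpr h3
    exact (tendsto_add_atTop_iff_nat (f := fun m => (U (k m) z).1) N).mp h4
  have hall := ae_all_iff.mpr hball
  filter_upwards [hall] with z hz
  obtain ⟨N, hN⟩ := exists_nat_gt ‖z‖
  exact hz N (by rw [mem_ball_zero_iff]; exact hN)

end Pool.MP_ad5d82_an.Wl
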