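import Pool.Agent.Lib.MP_ad5d82_an.h24.HDefs
import Pool.Agent.Lib.MP_ad5d82_an.h24.H.H1
import Pool.Agent.Lib.MP_ad5d82_an.h24.H.H2

set_option autoImplicit false

namespace Pool.MP_ad5d82_an.Wl

open Real Set MeasureTheory Filter Topology
open scoped ContDiff

variable {ι : Type} [Fintype ι] [DecidableEq ι]

/-! ### H4 multiplication by functions which are constant near infinity -/

omit [DecidableEq ι] in
theorem mulF_jet {η : ℂ → ℝ} (hη : ContDiff ℝ ∞ η) {φ : ℂ → Ev ι} (hφ : ContDiff ℝ ∞ φ) :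
    mulF η (jet φ) = jet (fun z => η z • φ z) := by
  funext z
  have h1 : DifferentiableAt ℝ η z := (hη.differentiable (by simp)).differentiableAt
  have h2 : DifferentiableAt ℝ φ z := (hφ.differentiable (by simp)).differentiableAt
  have h3 : fderiv ℝ (fun z => η z • φ z) z = η z • fderiv ℝ φ z + (fderiv ℝ η z).smulRight (φ z) :=
    fderiv_fun_smul h1 h2
  simp only [mulF, jet, h3, _root_.add_apply, _root_.smul_apply,
    ContinuousLinearMap.smulRight_apply]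

/-- a smooth function whose derivative has compact support is bounded -/
theorem H4_bounded {η : ℂ → ℝ} (hη : ContDiff ℝ ∞ η) (hc : HasCompactSupport (fderiv ℝ η)) :
    ∃ M : ℝ, 0 ≤ M ∧ ∀ z, |η z| ≤ M := by
  obtain ⟨R, hR⟩ : ∃ R : ℝ, ∀ z, R < ‖z‖ → fderiv ℝ η z = 0 := by
    obtain ⟨R, hR⟩ := hc.isCompact.isBounded.subset_closedBall (0 : ℂ)
    refine ⟨R, fun z hz => ?_⟩
    by_contra h0
    have h1 : z ∈ tsupport (fderiv ℝ η) := subset_tsupport _ h0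
    have h2 := hR h1
    rw [mem_closedBall_zero_iff] at h2
    linarith
  set R' : ℝ := max R 1 with hR'
  have hR'1 : 1 ≤ R' := le_max_right _ _
  have hR'0 : 0 < R' := by linarith
  obtain ⟨M, hM⟩ := (isCompact_closedBall (0 : ℂ) R').exists_bound_of_continuousOn
    hη.continuous.continuousOn
  refine ⟨max M 0, le_max_right _ _, fun z => ?_⟩
  rcases le_or_gt ‖z‖ R' with hz | hz
  · exact le_trans (hM z (mem_closedBall_zero_iff.2 hz)) (le_max_left _ _)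
  · -- along the ray
    have hz0 : 0 < ‖z‖ := by linarith
    set w : ℂ := ((R' / ‖z‖ : ℝ) : ℂ) * z with hw
    have hwn : ‖w‖ = R' := by
      rw [hw, norm_mul, Complex.norm_real, Real.norm_of_nonneg (by positivity)]
      field_simp
    have hseg : ∀ t ∈ Icc (0 : ℝ) 1, HasDerivWithinAt (fun t : ℝ => η (z + (t : ℂ) * (w - z)))
        ((fderiv ℝ η (z + (t : ℂ) * (w - z))) (w - z)) (Icc 0 1) t := by
      intro t _
      have h1 : HasDerivAt (fun t : ℝ => z + (t : ℂ) * (w - z)) (w - z) t := by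
        have h2 : HasDerivAt (fun t : ℝ => (t : ℂ)) 1 t := Complex.ofRealCLM.hasDerivAt
        have h3 := (h2.mul_const (w - z)).const_add z
        rw [one_mul] at h3
        exact h3
      have h4 : HasFDerivAt η (fderiv ℝ η (z + (t : ℂ) * (w - z))) (z + (t : ℂ) * (w - z)) :=
        ((hη.differentiable (by simp)).differentiableAt).hasFDerivAt
      exact (h4.comp_hasDerivAt t h1).hasDerivWithinAt
    have hnorm : ∀ t ∈ Ico (0 : ℝ) 1, R < ‖z + (t : ℂ) * (w - z)‖ := by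
      intro t ht
      have e : z + (t : ℂ) * (w - z) = (((1 - t) + t * (R' / ‖z‖) : ℝ) : ℂ) * z := by
        rw [hw]
        push_cast
        ring
      rw [e, norm_mul, Complex.norm_real]
      have hp : 0 ≤ (1 - t) + t * (R' / ‖z‖) := by
        have := ht.1
        have := ht.2
        have : 0 ≤ R' / ‖z‖ := by positivity
        nlinarith
      rw [Real.norm_of_nonneg hp]
      have e2 : ((1 - t) + t * (R' / ‖z‖)) * ‖z‖ = (1 - t) * ‖z‖ + t * R' := by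
        field_simp
      rw [e2]
      have h5 : (1 - t) * R' < (1 - t) * ‖z‖ := by
        apply mul_lt_mul_of_pos_left hz
        linarith [ht.2]
      have h6 : R ≤ R' := le_max_left _ _
      nlinarith
    have hconst : ∀ x ∈ Icc (0 : ℝ) 1, η (z + (x : ℂ) * (w - z)) = η (z + ((0 : ℝ) : ℂ) * (w - z)) := by
      refine constant_of_has_deriv_right_zero (f := fun t : ℝ => η (z + (t : ℂ) * (w - z))) ?_ ?_
      · intro t ht
        exact (hseg t ht).continuousWithinAt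
      · intro t ht
        have h1 := hseg t ⟨ht.1, ht.2.le⟩
        rw [hR _ (hnorm t ht)] at h1
        simp only [_root_.zero_apply] at h1
        have h2 : HasDerivWithinAt (fun t : ℝ => η (z + (t : ℂ) * (w - z))) 0 (Ici t) t := by
          refine HasDerivWithinAt.mono_of_mem_nhdsWithin h1 ?_
          have : Icc t 1 ∈ 𝓝[Ici t] t := Icc_mem_nhdsGE ht.2
          exact mem_of_superset this (Icc_subset_Icc_left ht.1)
        exact h2
    have h1 := hconst 1 ⟨zero_le_one, le_refl _⟩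
    have e1 : z + ((1 : ℝ) : ℂ) * (w - z) = w := by push_cast; ring
    have e0 : z + ((0 : ℝ) : ℂ) * (w - z) = z := by push_cast; ring
    rw [e1, e0] at h1
    rw [← h1]
    exact le_trans (hM w (mem_closedBall_zero_iff.2 hwn.le)) (le_max_left _ _)

omit [DecidableEq ι] in
/-- the energy of `mulF η U` -/
theorem H4_mulF_le {η : ℂ → ℝ} (hη : ContDiff ℝ ∞ η) (hc : HasCompactSupport (fderiv ℝ η)) :
    ∃ C : ℝ, 0 ≤ C ∧ ∀ (U : Fld ι) (z : ℂ), nsq z (mulF η U z) ≤ C * nsq z (U z) := by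
  obtain ⟨M, hM0, hM⟩ := H4_bounded hη hc
  obtain ⟨R, hR⟩ := hc.isCompact.isBounded.subset_ball (0 : ℂ)
  obtain ⟨D, hD⟩ : ∃ D : ℝ, ∀ z, ‖fderiv ℝ η z‖ ≤ D :=
    (hη.continuous_fderiv (by simp)).bounded_above_of_compact_support hc
  have hD0 : 0 ≤ D := le_trans (norm_nonneg _) (hD 0)
  set c : ℝ := (1 + R ^ 2) ^ 2 with hcdef
  have hc1 : 1 ≤ c := by
    rw [hcdef]
    have : 1 ≤ 1 + R ^ 2 := by nlinarith [sq_nonneg R]
    nlinarith
  -- the derivative part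
  have hder : ∀ (z : ℂ) (e : ℂ), ‖e‖ = 1 → |fderiv ℝ η z e| ^ 2 ≤ D ^ 2 * c * wt z := by
    intro z e he
    by_cases hz : z ∈ tsupport (fderiv ℝ η)
    · have h1 := H1_wt_ball (hR hz)
      have h2 : |fderiv ℝ η z e| ≤ D := by
        calc |fderiv ℝ η z e| ≤ ‖fderiv ℝ η z‖ * ‖e‖ := (fderiv ℝ η z).le_opNorm e
          _ = ‖fderiv ℝ η z‖ := by rw [he, mul_one]
          _ ≤ D := hD z
      have h3 : 1 ≤ c * wt z := by
        have hcp : (0 : ℝ) < c := by linarith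
        calc (1 : ℝ) = c * c⁻¹ := (mul_inv_cancel₀ hcp.ne').symm
          _ ≤ _ := mul_le_mul_of_nonneg_left h1 hcp.le
      calc |fderiv ℝ η z e| ^ 2 ≤ D ^ 2 := pow_le_pow_left₀ (abs_nonneg _) h2 2
        _ = D ^ 2 * 1 := (mul_one _).symm
        _ ≤ D ^ 2 * (c * wt z) := mul_le_mul_of_nonneg_left h3 (sq_nonneg _)
        _ = D ^ 2 * c * wt z := by ring
    · have h0 : fderiv ℝ η z = 0 := image_eq_zero_of_notMem_tsupport hz
      rw [h0]
      have h1 : |(0 : ℂ →L[ℝ] ℝ) e| ^ 2 = 0 := by simp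
      rw [h1]
      have := (wt_pos z).le
      positivity
  refine ⟨2 * M ^ 2 + 4 * (D ^ 2 * c), by positivity, fun U z => ?_⟩
  have hw := (wt_pos z).le
  have key : ∀ (a b : Ev ι) (s t : ℝ), ‖s • a + t • b‖ ^ 2 ≤ 2 * s ^ 2 * ‖a‖ ^ 2 +
      2 * |t| ^ 2 * ‖b‖ ^ 2 := by
    intro a b s t
    have h := norm_add_le (s • a) (t • b)
    have h1 : ‖s • a + t • b‖ ^ 2 ≤ 2 * ‖s • a‖ ^ 2 + 2 * ‖t • b‖ ^ 2 := by
      have h2 := norm_nonneg (s • a + t • b)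
      nlinarith [sq_nonneg (‖s • a‖ - ‖t • b‖)]
    rw [norm_smul, norm_smul, mul_pow, mul_pow, Real.norm_eq_abs, Real.norm_eq_abs, sq_abs] at h1
    linarith
  have hη2 : η z ^ 2 ≤ M ^ 2 := by
    rw [← sq_abs]
    exact pow_le_pow_left₀ (abs_nonneg _) (hM z) 2
  have h1 := key (U z).2.1 (U z).1 (η z) (fderiv ℝ η z 1)
  have h2 := key (U z).2.2 (U z).1 (η z) (fderiv ℝ η z Complex.I)
  have d1 := hder z 1 (by simp)
  have d2 := hder z Complex.I (by simp)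
  have n1 : 0 ≤ ‖(U z).1‖ ^ 2 := sq_nonneg _
  have n2 : 0 ≤ ‖(U z).2.1‖ ^ 2 := sq_nonneg _
  have n3 : 0 ≤ ‖(U z).2.2‖ ^ 2 := sq_nonneg _
  have e0 : ‖η z • (U z).1‖ ^ 2 = η z ^ 2 * ‖(U z).1‖ ^ 2 := by
    rw [norm_smul, mul_pow, Real.norm_eq_abs, sq_abs]
  unfold nsq gsq
  simp only [mulF]
  rw [e0]
  have f1 : wt z * (η z ^ 2 * ‖(U z).1‖ ^ 2) ≤ M ^ 2 * (wt z * ‖(U z).1‖ ^ 2) := by
    calc wt z * (η z ^ 2 * ‖(U z).1‖ ^ 2) = η z ^ 2 * (wt z * ‖(U z).1‖ ^ 2) := by ring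
      _ ≤ M ^ 2 * (wt z * ‖(U z).1‖ ^ 2) := mul_le_mul_of_nonneg_right hη2 (by positivity)
  have f2 : η z ^ 2 * ‖(U z).2.1‖ ^ 2 ≤ M ^ 2 * ‖(U z).2.1‖ ^ 2 :=
    mul_le_mul_of_nonneg_right hη2 n2
  have f3 : η z ^ 2 * ‖(U z).2.2‖ ^ 2 ≤ M ^ 2 * ‖(U z).2.2‖ ^ 2 :=
    mul_le_mul_of_nonneg_right hη2 n3
  have f4 : |fderiv ℝ η z 1| ^ 2 * ‖(U z).1‖ ^ 2 ≤ D ^ 2 * c * wt z * ‖(U z).1‖ ^ 2 :=
    mul_le_mul_of_nonneg_right d1 n1
  have f5 : |fderiv ℝ η z Complex.I| ^ 2 * ‖(U z).1‖ ^ 2 ≤ D ^ 2 * c * wt z * ‖(U z).1‖ ^ 2 :=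
    mul_le_mul_of_nonneg_right d2 n1
  have g1 : 0 ≤ M ^ 2 * (wt z * ‖(U z).1‖ ^ 2) := by positivity
  have g2 : 0 ≤ D ^ 2 * c * ‖(U z).2.1‖ ^ 2 := by positivity
  have g3 : 0 ≤ D ^ 2 * c * ‖(U z).2.2‖ ^ 2 := by positivity
  nlinarith

omit [DecidableEq ι] in
theorem H4_mulF_aesm {η : ℂ → ℝ} (hη : ContDiff ℝ ∞ η) {U : Fld ι}
    (hU : AEStronglyMeasurable U volume) : AEStronglyMeasurable (mulF η U) volume := by
  have h1 : AEStronglyMeasurable (fun z : ℂ => (U z).1) volume :=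
    continuous_fst.comp_aestronglyMeasurable hU
  have h2 : AEStronglyMeasurable (fun z : ℂ => (U z).2.1) volume :=
    (continuous_fst.comp continuous_snd).comp_aestronglyMeasurable hU
  have h3 : AEStronglyMeasurable (fun z : ℂ => (U z).2.2) volume :=
    (continuous_snd.comp continuous_snd).comp_aestronglyMeasurable hU
  have h0 : AEStronglyMeasurable η volume := hη.continuous.aestronglyMeasurable
  have hd : Continuous (fderiv ℝ η) := hη.continuous_fderiv (by simp)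
  have h4 : AEStronglyMeasurable (fun z => fderiv ℝ η z 1) volume :=
    (hd.clm_apply continuous_const).aestronglyMeasurable
  have h5 : AEStronglyMeasurable (fun z => fderiv ℝ η z Complex.I) volume :=
    (hd.clm_apply continuous_const).aestronglyMeasurable
  exact (h0.smul h1).prodMk (((h0.smul h2).add (h4.smul h1)).prodMk ((h0.smul h3).add (h5.smul h1)))

omit [DecidableEq ι] in
theorem H4_mulF_sub (η : ℂ → ℝ) (U V : Fld ι) : mulF η (U - V) = mulF η U - mulF η V := by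
  funext z
  simp only [mulF, Pi.sub_apply, Prod.fst_sub, Prod.snd_sub, smul_sub, Prod.mk_sub_mk]
  congr 1
  congr 1 <;> abel

omit [DecidableEq ι] in
theorem isSob_mulF {η : ℂ → ℝ} (hη : ContDiff ℝ ∞ η) (hc : HasCompactSupport (fderiv ℝ η))
    {U : Fld ι} (hU : IsSob U) : IsSob (mulF η U) := by
  obtain ⟨C, hC0, hC⟩ := H4_mulF_le (ι := ι) hη hc
  obtain ⟨mU, φ, hφ, tφ⟩ := hU
  refine ⟨H4_mulF_aesm hη mU, fun n z => η z • φ n z, fun n => ⟨hη.smul (hφ n).1, ?_⟩, ?_⟩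
  · exact HasCompactSupport.smul_left (f := η) (hφ n).2
  · have h1 : ∀ n, H1_E0 (mulF η U - jet (fun z => η z • φ n z)) ≤
        ENNReal.ofReal C * H1_E0 (U - jet (φ n)) := by
      intro n
      rw [← mulF_jet hη (hφ n).1, ← H4_mulF_sub]
      unfold H1_E0
      rw [← lintegral_const_mul' _ _ ENNReal.ofReal_ne_top]
      refine lintegral_mono fun z => ?_
      rw [← ENNReal.ofReal_mul hC0]
      exact ENNReal.ofReal_le_ofReal (hC _ z)
    have h2 : Tendsto (fun n => ENNReal.ofReal C * H1_E0 (U - jet (φ n))) atTop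
        (𝓝 (ENNReal.ofReal C * 0)) :=
      ENNReal.Tendsto.const_mul (H1_E0_tendsto tφ) (Or.inr ENNReal.ofReal_ne_top)
    rw [mul_zero] at h2
    exact tendsto_of_tendsto_of_tendsto_of_le_of_le tendsto_const_nhds h2 (fun n => zero_le) h1

/-- a fixed cut-off function -/
theorem H4_cutoff : ∃ χ : ℂ → ℝ, ContDiff ℝ ∞ χ ∧ HasCompactSupport χ ∧
    (∀ z, 0 ≤ χ z ∧ χ z ≤ 1) ∧ (∀ z, ‖z‖ ≤ 1 → χ z = 1) ∧ (∀ z, 2 ≤ ‖z‖ → χ z = 0) := by
  let f : ContDiffBump (0 : ℂ) := ⟨1, 2, zero_lt_one, one_lt_two⟩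
  refine ⟨f, f.contDiff, f.hasCompactSupport, fun z => ⟨f.nonneg, f.le_one⟩, fun z hz => ?_,
    fun z hz => ?_⟩
  · exact f.one_of_mem_closedBall (mem_closedBall_zero_iff.2 hz)
  · exact f.zero_of_le_dist (by rw [dist_zero_right]; exact hz)

omit [DecidableEq ι] in
/-- smooth functions with decay belong to the space. -/
theorem isSob_of_decay {ψ : ℂ → Ev ι} (hψ : ContDiff ℝ ∞ ψ) (C : ℝ)
    (h0 : ∀ z, ‖ψ z‖ * (1 + ‖z‖) ≤ C) (h1 : ∀ z, ‖fderiv ℝ ψ z‖ * (1 + ‖z‖) ^ 2 ≤ C) :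
    IsSob (jet ψ) := by
  obtain ⟨χ, hχ, hχc, hχ01, hχ1, hχ2⟩ := H4_cutoff
  obtain ⟨D, hD⟩ : ∃ D : ℝ, ∀ z, ‖fderiv ℝ χ z‖ ≤ D :=
    (hχ.continuous_fderiv (by simp)).bounded_above_of_compact_support (hχc.fderiv ℝ)
  have hD0 : 0 ≤ D := le_trans (norm_nonneg _) (hD 0)
  have hC0 : 0 ≤ C := le_trans (by positivity) (h0 0)
  -- the cut-off functions
  let η : ℕ → ℂ → ℝ := fun n z => χ ((((n : ℝ) + 1)⁻¹ : ℝ) • z)
  have hη : ∀ n, ContDiff ℝ ∞ (η n) := by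
    intro n
    have h2 : ContDiff ℝ ∞ (fun z : ℂ => (((n : ℝ) + 1)⁻¹ : ℝ) • z) :=
      contDiff_const_smul _
    exact hχ.comp h2
  have hηd : ∀ n z, fderiv ℝ (η n) z = (((n : ℝ) + 1)⁻¹ : ℝ) • fderiv ℝ χ ((((n : ℝ) + 1)⁻¹ : ℝ) • z) := by
    intro n z
    have := fderiv_comp_smul (𝕜 := ℝ) (f := χ) (c := (((n : ℝ) + 1)⁻¹ : ℝ)) (x := z)
    exact this
  have hηc : ∀ n, HasCompactSupport (η n) := by
    intro n
    refine hχc.comp_smul ?_
    positivity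
  refine ⟨H1_jet_aesm hψ, fun n z => η n z • ψ z, fun n => ⟨(hη n).smul hψ, ?_⟩, ?_⟩
  · exact HasCompactSupport.smul_right (f := η n) (f' := ψ) (hηc n)
  -- dominated convergence
  have hdecay : Integrable (fun z : ℂ => (1 + ‖z‖) ^ (-(4 : ℝ))) volume := by
    refine integrable_one_add_norm ?_
    rw [Complex.finrank_real_complex]
    norm_num
  set K : ℝ := 8 * C ^ 2 * (1 + 36 * D ^ 2) with hK
  have hK0 : 0 ≤ K := by positivity
  have hbound : ∀ n z, nsq z (jet ψ z - jet (fun z => η n z • ψ z) z) ≤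
      K * (1 + ‖z‖) ^ (-(4 : ℝ)) := by
    intro n z
    have hz0 : 0 ≤ ‖z‖ := norm_nonneg z
    have hz1 : 0 < 1 + ‖z‖ := by linarith
    rw [← mulF_jet (hη n) hψ]
    have hpow : (1 + ‖z‖) ^ (-(4 : ℝ)) = ((1 + ‖z‖) ^ 4)⁻¹ := by
      rw [Real.rpow_neg hz1.le]
      norm_cast
    rw [hpow]
    set ρ : ℝ := 1 + ‖z‖ with hρ
    have hψb : ‖ψ z‖ ≤ C / ρ := by rw [le_div_iff₀ hz1]; exact h0 z
    have hψd : ‖fderiv ℝ ψ z‖ ≤ C / ρ ^ 2 := by rw [le_div_iff₀ (by positivity)]; exact h1 z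
    have hwt : wt z ≤ 4 / ρ ^ 2 := by
      unfold wt
      rw [inv_eq_one_div, div_le_div_iff₀ (by positivity) (by positivity)]
      have : ρ ^ 2 ≤ 4 * (1 + ‖z‖ ^ 2) ^ 2 := by
        rw [hρ]
        nlinarith [sq_nonneg (‖z‖ - 1), sq_nonneg (‖z‖ ^ 2)]
      linarith
    have h01 := hχ01 ((((n : ℝ) + 1)⁻¹ : ℝ) • z)
    have hη01 : 0 ≤ 1 - η n z ∧ 1 - η n z ≤ 1 := ⟨by linarith [h01.2], by linarith [h01.1]⟩
    -- bound for the derivative of the cut-off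
    have hηd' : ∀ e : ℂ, ‖e‖ = 1 → |fderiv ℝ (η n) z e| ≤ 3 * D / ρ := by
      intro e he
      have hn1 : (0 : ℝ) < (n : ℝ) + 1 := by positivity
      rw [hηd]
      by_cases hz : 2 * ((n : ℝ) + 1) < ‖z‖
      · have h3 : fderiv ℝ χ ((((n : ℝ) + 1)⁻¹ : ℝ) • z) = 0 := by
          have h4 : (((n : ℝ) + 1)⁻¹ : ℝ) • z ∈ {w : ℂ | 2 < ‖w‖} := by
            rw [mem_ofPred_eq, norm_smul, Real.norm_of_nonneg (by positivity), ← div_eq_inv_mul,
              lt_div_iff₀ hn1]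
            exact hz
          have h5 : IsOpen {w : ℂ | 2 < ‖w‖} := isOpen_lt continuous_const continuous_norm
          have h6 : χ =ᶠ[𝓝 ((((n : ℝ) + 1)⁻¹ : ℝ) • z)] fun _ => (0 : ℝ) := by
            filter_upwards [h5.mem_nhds h4] with w hw
            exact hχ2 w (le_of_lt hw)
          rw [h6.fderiv_eq]
          simp
        rw [h3]
        simp only [smul_zero, _root_.zero_apply, abs_zero]
        positivity
      · rw [not_lt] at hz
        have h3 : |((((n : ℝ) + 1)⁻¹ : ℝ) • fderiv ℝ χ ((((n : ℝ) + 1)⁻¹ : ℝ) • z)) e| ≤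
            ((n : ℝ) + 1)⁻¹ * D := by
          rw [_root_.smul_apply, smul_eq_mul, abs_mul, abs_of_nonneg (by positivity)]
          refine mul_le_mul_of_nonneg_left ?_ (by positivity)
          calc |(fderiv ℝ χ ((((n : ℝ) + 1)⁻¹ : ℝ) • z)) e| ≤
              ‖fderiv ℝ χ ((((n : ℝ) + 1)⁻¹ : ℝ) • z)‖ * ‖e‖ :=
                (fderiv ℝ χ ((((n : ℝ) + 1)⁻¹ : ℝ) • z)).le_opNorm e
            _ = ‖fderiv ℝ χ ((((n : ℝ) + 1)⁻¹ : ℝ) • z)‖ := by rw [he, mul_one]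
            _ ≤ D := hD _
        refine le_trans h3 ?_
        rw [inv_mul_eq_div, div_le_div_iff₀ hn1 hz1]
        have h4 : ρ ≤ 3 * ((n : ℝ) + 1) := by
          rw [hρ]
          have : (0 : ℝ) ≤ n := Nat.cast_nonneg n
          linarith
        nlinarith
    have d1 := hηd' 1 (by simp)
    have d2 := hηd' Complex.I (by simp)
    -- components
    have c1 : ‖(jet ψ z - mulF (η n) (jet ψ) z).1‖ ≤ C / ρ := by
      have e : (jet ψ z - mulF (η n) (jet ψ) z).1 = (1 - η n z) • ψ z := by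
        simp only [mulF, jet, Prod.fst_sub, sub_smul, one_smul]
      rw [e, norm_smul, Real.norm_of_nonneg hη01.1]
      calc (1 - η n z) * ‖ψ z‖ ≤ 1 * ‖ψ z‖ := mul_le_mul_of_nonneg_right hη01.2 (norm_nonneg _)
        _ ≤ C / ρ := by rw [one_mul]; exact hψb
    have comp : ∀ e : ℂ, ‖e‖ = 1 → |fderiv ℝ (η n) z e| ≤ 3 * D / ρ →
        ‖fderiv ℝ ψ z e - (η n z • fderiv ℝ ψ z e + fderiv ℝ (η n) z e • ψ z)‖ ≤
          C * (1 + 3 * D) / ρ ^ 2 := by
      intro e he hd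
      have e1 : fderiv ℝ ψ z e - (η n z • fderiv ℝ ψ z e + fderiv ℝ (η n) z e • ψ z) =
          (1 - η n z) • fderiv ℝ ψ z e - fderiv ℝ (η n) z e • ψ z := by
        rw [sub_smul, one_smul]
        abel
      rw [e1]
      have s1 : ‖(1 - η n z) • fderiv ℝ ψ z e‖ ≤ C / ρ ^ 2 := by
        rw [norm_smul, Real.norm_of_nonneg hη01.1]
        have : ‖fderiv ℝ ψ z e‖ ≤ C / ρ ^ 2 := by
          calc ‖fderiv ℝ ψ z e‖ ≤ ‖fderiv ℝ ψ z‖ * ‖e‖ := (fderiv ℝ ψ z).le_opNorm e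
            _ = ‖fderiv ℝ ψ z‖ := by rw [he, mul_one]
            _ ≤ _ := hψd
        calc (1 - η n z) * ‖fderiv ℝ ψ z e‖ ≤ 1 * ‖fderiv ℝ ψ z e‖ :=
              mul_le_mul_of_nonneg_right hη01.2 (norm_nonneg _)
          _ ≤ C / ρ ^ 2 := by rw [one_mul]; exact this
      have s2 : ‖fderiv ℝ (η n) z e • ψ z‖ ≤ 3 * D / ρ * (C / ρ) := by
        rw [norm_smul, Real.norm_eq_abs]
        exact mul_le_mul hd hψb (norm_nonneg _) (by positivity)
      calc ‖(1 - η n z) • fderiv ℝ ψ z e - fderiv ℝ (η n) z e • ψ z‖ ≤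
            ‖(1 - η n z) • fderiv ℝ ψ z e‖ + ‖fderiv ℝ (η n) z e • ψ z‖ := norm_sub_le _ _
        _ ≤ C / ρ ^ 2 + 3 * D / ρ * (C / ρ) := add_le_add s1 s2
        _ = C * (1 + 3 * D) / ρ ^ 2 := by
            field_simp
    have c2 : ‖(jet ψ z - mulF (η n) (jet ψ) z).2.1‖ ≤ C * (1 + 3 * D) / ρ ^ 2 := by
      have := comp 1 (by simp) d1
      exact this
    have c3 : ‖(jet ψ z - mulF (η n) (jet ψ) z).2.2‖ ≤ C * (1 + 3 * D) / ρ ^ 2 := by
      have := comp Complex.I (by simp) d2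
      exact this
    have q1 := pow_le_pow_left₀ (norm_nonneg _) c1 2
    have q2 := pow_le_pow_left₀ (norm_nonneg _) c2 2
    have q3 := pow_le_pow_left₀ (norm_nonneg _) c3 2
    unfold nsq gsq
    have hw0 := (wt_pos z).le
    have r1 : wt z * ‖(jet ψ z - mulF (η n) (jet ψ) z).1‖ ^ 2 ≤ 4 / ρ ^ 2 * (C / ρ) ^ 2 :=
      mul_le_mul hwt q1 (sq_nonneg _) (by positivity)
    have r2 : 4 / ρ ^ 2 * (C / ρ) ^ 2 = 4 * C ^ 2 * (ρ ^ 4)⁻¹ := by
      field_simp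
    have r3 : (C * (1 + 3 * D) / ρ ^ 2) ^ 2 = C ^ 2 * (1 + 3 * D) ^ 2 * (ρ ^ 4)⁻¹ := by
      field_simp
    rw [r2] at r1
    rw [r3] at q2 q3
    have hinv : 0 ≤ (ρ ^ 4)⁻¹ := by positivity
    have fin : 4 * C ^ 2 + C ^ 2 * (1 + 3 * D) ^ 2 + C ^ 2 * (1 + 3 * D) ^ 2 ≤ K := by
      rw [hK]
      have g1 : (1 + 3 * D) ^ 2 ≤ 2 + 18 * D ^ 2 := by nlinarith [sq_nonneg (1 - 3 * D)]
      have g2 : C ^ 2 * (1 + 3 * D) ^ 2 ≤ C ^ 2 * (2 + 18 * D ^ 2) :=
        mul_le_mul_of_nonneg_left g1 (sq_nonneg C)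
      have g3 : 0 ≤ C ^ 2 * D ^ 2 := by positivity
      linarith
    calc wt z * ‖(jet ψ z - mulF (η n) (jet ψ) z).1‖ ^ 2 +
          (‖(jet ψ z - mulF (η n) (jet ψ) z).2.1‖ ^ 2 +
            ‖(jet ψ z - mulF (η n) (jet ψ) z).2.2‖ ^ 2)
        ≤ 4 * C ^ 2 * (ρ ^ 4)⁻¹ + (C ^ 2 * (1 + 3 * D) ^ 2 * (ρ ^ 4)⁻¹ +
            C ^ 2 * (1 + 3 * D) ^ 2 * (ρ ^ 4)⁻¹) := by linarith
      _ = (4 * C ^ 2 + C ^ 2 * (1 + 3 * D) ^ 2 + C ^ 2 * (1 + 3 * D) ^ 2) * (ρ ^ 4)⁻¹ := by ring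
      _ ≤ K * (ρ ^ 4)⁻¹ := mul_le_mul_of_nonneg_right fin hinv
  have hzero : ∀ z, Tendsto (fun n : ℕ => ENNReal.ofReal
      (nsq z (jet ψ z - jet (fun z => η n z • ψ z) z))) atTop (𝓝 0) := by
    intro z
    refine tendsto_const_nhds.congr' ?_
    obtain ⟨N, hN⟩ := exists_nat_gt (‖z‖ + 1)
    filter_upwards [eventually_ge_atTop N] with n hn
    have hnz : ‖z‖ + 1 < (n : ℝ) + 1 := by
      have : (N : ℝ) ≤ n := by exact_mod_cast hn
      linarith
    have hn1 : (0 : ℝ) < (n : ℝ) + 1 := by positivity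
    have hev : (fun z => η n z • ψ z) =ᶠ[𝓝 z] ψ := by
      have h5 : IsOpen {w : ℂ | ‖w‖ < (n : ℝ) + 1} := isOpen_lt continuous_norm continuous_const
      have h4 : z ∈ {w : ℂ | ‖w‖ < (n : ℝ) + 1} := by
        rw [mem_ofPred_eq]
        linarith
      filter_upwards [h5.mem_nhds h4] with w hw
      have : η n w = 1 := by
        refine hχ1 _ ?_
        rw [norm_smul, Real.norm_of_nonneg (by positivity), ← div_eq_inv_mul, div_le_one hn1]
        exact le_of_lt hw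
      rw [this, one_smul]
    have hj : jet (fun z => η n z • ψ z) z = jet ψ z := by
      simp only [jet, hev.fderiv_eq, hev.eq_of_nhds]
    rw [hj, sub_self]
    simp [nsq, gsq]
  have hdom : ∀ n, (fun z => ENNReal.ofReal (nsq z (jet ψ z - jet (fun z => η n z • ψ z) z))) ≤ᵐ[volume]
      fun z => ENNReal.ofReal (K * (1 + ‖z‖) ^ (-(4 : ℝ))) := by
    intro n
    exact Eventually.of_forall fun z => ENNReal.ofReal_le_ofReal (hbound n z)
  have hfin : ∫⁻ z : ℂ, ENNReal.ofReal (K * (1 + ‖z‖) ^ (-(4 : ℝ))) ≠ ⊤ := by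
    have h2 := (hdecay.const_mul K).hasFiniteIntegral
    rw [hasFiniteIntegral_iff_ofReal (Eventually.of_forall fun z => by positivity)] at h2
    exact h2.ne
  have := tendsto_lintegral_of_dominated_convergence' (μ := (volume : Measure ℂ))
    (F := fun n z => ENNReal.ofReal (nsq z (jet ψ z - jet (fun z => η n z • ψ z) z)))
    (f := fun _ => 0)
    (fun z => ENNReal.ofReal (K * (1 + ‖z‖) ^ (-(4 : ℝ))))
    (fun n => H1_aem ((H1_jet_aesm hψ).sub (H1_jet_aesm ((hη n).smul hψ)))) hdom hfin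
    (Eventually.of_forall hzero)
  rw [lintegral_zero] at this
  exact this

end Pool.MP_ad5d82_an.Wl
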