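import Pool.Agent.Lib.MP_ad5d82_an.h24.HDefs
import Pool.Agent.Lib.MP_ad5d82_an.h24.H.H1

set_option autoImplicit false

namespace Pool.MP_ad5d82_an.Wl

open Real Set MeasureTheory Filter Topology
open scoped ContDiff

/-! ### H5w the weights -/

/-- the weights are comparable: `wt ≤ wgt ≤ C_ρ wt`. -/
theorem wt_le_wgt {ρ : ℝ} (hρ : 1 ≤ ρ) (z : ℂ) (hz : z ≠ 0) : wt z ≤ wgt ρ ‖z‖ := by
  unfold wt wgt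
  have hr : 0 < ‖z‖ := norm_pos_iff.2 hz
  refine le_min ?_ ?_
  · apply inv_le_one_of_one_le₀
    nlinarith [sq_nonneg ‖z‖, sq_nonneg (‖z‖ ^ 2)]
  · rw [div_pow, inv_eq_one_div, div_le_div_iff₀ (by positivity) (by positivity)]
    have h1 : (1 : ℝ) ≤ ρ ^ 4 := one_le_pow₀ hρ
    have h2 : ‖z‖ ^ 4 ≤ (1 + ‖z‖ ^ 2) ^ 2 := by nlinarith [sq_nonneg ‖z‖]
    have h3 : 0 ≤ ‖z‖ ^ 4 := by positivity
    nlinarith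

theorem wgt_le_wt {ρ : ℝ} (hρ : 1 ≤ ρ) (z : ℂ) : wgt ρ ‖z‖ ≤ 4 * ρ ^ 4 * wt z := by
  unfold wt wgt
  have h1 : (1 : ℝ) ≤ ρ ^ 4 := one_le_pow₀ hρ
  have hr : 0 ≤ ‖z‖ := norm_nonneg z
  rw [← div_eq_mul_inv, le_div_iff₀ (by positivity)]
  rcases le_total ‖z‖ 1 with h | h
  · have h2 : min 1 ((ρ / ‖z‖) ^ 4) ≤ 1 := min_le_left _ _
    have h3 : (1 + ‖z‖ ^ 2) ^ 2 ≤ 4 := by
      have : ‖z‖ ^ 2 ≤ 1 := by nlinarith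
      nlinarith [sq_nonneg ‖z‖]
    have h4 : 0 ≤ (1 + ‖z‖ ^ 2) ^ 2 := by positivity
    nlinarith
  · have hr' : 0 < ‖z‖ := by linarith
    have h2 : min 1 ((ρ / ‖z‖) ^ 4) ≤ ρ ^ 4 / ‖z‖ ^ 4 := by
      rw [← div_pow]
      exact min_le_right _ _
    have h3 : (1 + ‖z‖ ^ 2) ^ 2 ≤ 4 * ‖z‖ ^ 4 := by
      have h5 : 1 ≤ ‖z‖ ^ 2 := by nlinarith
      nlinarith [sq_nonneg ‖z‖]
    calc min 1 ((ρ / ‖z‖) ^ 4) * (1 + ‖z‖ ^ 2) ^ 2 ≤ ρ ^ 4 / ‖z‖ ^ 4 * (4 * ‖z‖ ^ 4) := by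
          gcongr
      _ = 4 * ρ ^ 4 := by field_simp

end Pool.MP_ad5d82_an.Wl
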