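import Pool.Agent.Lib.MP_ad5d82_an.h24.HDefs
import Pool.Agent.Lib.MP_ad5d82_an.h24.H.H1
import Pool.Agent.Lib.MP_ad5d82_an.h24.H.H5w
import Pool.Agent.Lib.MP_ad5d82_an.h24.B.B3
import Pool.Agent.Lib.MP_ad5d82_an.h24.W.W1
import Pool.Agent.Lib.MP_ad5d82_an.h24.W.W5

set_option autoImplicit false

namespace Pool.MP_ad5d82_an.Wl

open Real Set MeasureTheory Filter Topology
open scoped ContDiff

variable {ι : Type} [Fintype ι] [DecidableEq ι]

/-! ### H5 the wall inequality on the energy space -/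

private theorem h5_gsq (u : Ev ι × Ev ι × Ev ι) : gsq u = ∑ j, (u.2.1 j ^ 2 + u.2.2 j ^ 2) := by
  unfold gsq
  rw [EuclideanSpace.norm_sq_eq, EuclideanSpace.norm_sq_eq, ← Finset.sum_add_distrib]
  simp

private theorem h5_norm (u : Ev ι) : ‖u‖ ^ 2 = ∑ j, u j ^ 2 := by
  rw [EuclideanSpace.norm_sq_eq]
  simp

private theorem h5_nsq (z : ℂ) (u : Ev ι × Ev ι × Ev ι) :
    nsq z u = ∑ j, (wt z * u.1 j ^ 2 + (u.2.1 j ^ 2 + u.2.2 j ^ 2)) := by
  unfold nsq
  rw [h5_gsq, h5_norm, Finset.mul_sum, ← Finset.sum_add_distrib]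

private theorem h5_nsq_nonneg (z : ℂ) (u : Ev ι × Ev ι × Ev ι) : 0 ≤ nsq z u := by
  have h1 := wt_pos z
  rw [h5_nsq]
  exact Finset.sum_nonneg fun j _ => by positivity

private theorem h5_sq {η x y : ℝ} (h0 : 0 < η) (h1 : η ≤ 1) :
    |x ^ 2 - y ^ 2| ≤ η * y ^ 2 + η⁻¹ * (2 * (x - y) ^ 2) := by
  have hi : 1 ≤ η⁻¹ := (one_le_inv₀ h0).2 h1
  have key : ∀ s t : ℝ, |s * t| ≤ η / 4 * t ^ 2 + η⁻¹ * s ^ 2 := by
    intro s t
    have e1 : 0 ≤ η * (t / 2 - η⁻¹ * s) ^ 2 := by positivity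
    have e2 : 0 ≤ η * (t / 2 + η⁻¹ * s) ^ 2 := by positivity
    have e3 : η * η⁻¹ = 1 := mul_inv_cancel₀ h0.ne'
    have e4 : η * (t / 2 - η⁻¹ * s) ^ 2 = η / 4 * t ^ 2 - (η * η⁻¹) * (s * t) + (η * η⁻¹) * (η⁻¹ * s ^ 2) := by
      ring
    have e5 : η * (t / 2 + η⁻¹ * s) ^ 2 = η / 4 * t ^ 2 + (η * η⁻¹) * (s * t) + (η * η⁻¹) * (η⁻¹ * s ^ 2) := by
      ring
    rw [e4, e3] at e1
    rw [e5, e3] at e2
    rw [abs_le]
    constructor <;> linarith
  have h2 : x ^ 2 - y ^ 2 = (x - y) ^ 2 + (x - y) * (2 * y) := by ring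
  rw [h2]
  refine (abs_add_le _ _).trans ?_
  have h3 := key (x - y) (2 * y)
  rw [abs_of_nonneg (sq_nonneg (x - y))]
  have h4 : (x - y) ^ 2 ≤ η⁻¹ * (x - y) ^ 2 := by
    have := sq_nonneg (x - y)
    nlinarith
  have h5 : η / 4 * (2 * y) ^ 2 = η * y ^ 2 := by ring
  rw [h5] at h3
  linarith

private theorem h5_lim {U : Fld ι} {V : ℕ → Fld ι} (hU : IsSob U) (hV : ∀ n, IsSob (V n))
    (hE : Tendsto (fun n => En (U - V n)) atTop (𝓝 0)) (A : Set ℂ) (hA : MeasurableSet A)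
    (Q : ℂ → (Ev ι × Ev ι × Ev ι) → ℝ) (g : ℂ → ℝ) (hg : IntegrableOn g A volume)
    (hg0 : ∀ z, 0 ≤ g z) (C : ℝ) (hC : 0 ≤ C)
    (hQ : ∀ η : ℝ, 0 < η → η ≤ 1 → ∀ z ∈ A, ∀ u v,
      |Q z u - Q z v| ≤ η * (g z + C * nsq z v) + η⁻¹ * (C * nsq z (v - u)))
    (hQ0 : ∀ z, Q z 0 = 0)
    (hm : ∀ W : Fld ι, AEStronglyMeasurable W volume →
      AEStronglyMeasurable (fun z => Q z (W z)) volume) :
    Tendsto (fun n => ∫ z in A, Q z (V n z)) atTop (𝓝 (∫ z in A, Q z (U z))) := by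
  have hnn : ∀ (z : ℂ) (u : Ev ι × Ev ι × Ev ι), nsq z (0 - u) = nsq z u := by
    intro z u
    rw [h5_nsq, h5_nsq]
    refine Finset.sum_congr rfl fun j _ => ?_
    simp
  have hn0 : ∀ z : ℂ, nsq z (0 : Ev ι × Ev ι × Ev ι) = 0 := by
    intro z
    rw [h5_nsq]
    simp
  have hint : ∀ W : Fld ι, IsSob W → IntegrableOn (fun z => Q z (W z)) A volume := by
    intro W hW
    have h1 : IntegrableOn (fun z => g z + C * nsq z (W z)) A volume :=
      hg.add ((hW.integrable.integrableOn).const_mul C)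
    refine Integrable.mono' h1 (hm W hW.1).restrict ?_
    rw [ae_restrict_iff' hA]
    filter_upwards with z hz
    have h2 := hQ 1 one_pos le_rfl z hz (W z) 0
    rw [hQ0, sub_zero, hn0, mul_zero, add_zero, one_mul, inv_one, one_mul, hnn] at h2
    exact h2
  set K := (∫ z in A, g z) + C * En U with hK
  have hK0 : 0 ≤ K := add_nonneg (integral_nonneg fun z => hg0 z) (mul_nonneg hC (En_nonneg U))
  have hbound : ∀ η : ℝ, 0 < η → η ≤ 1 → ∀ n,
      |(∫ z in A, Q z (V n z)) - ∫ z in A, Q z (U z)| ≤ η * K + η⁻¹ * (C * En (U - V n)) := by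
    intro η h0 h1 n
    rw [← integral_sub (hint _ (hV n)) (hint _ hU)]
    have hUV : IsSob (U - V n) := hU.sub (hV n)
    have i1 : IntegrableOn (fun z => η * (g z + C * nsq z (U z))) A volume :=
      (hg.add ((hU.integrable.integrableOn).const_mul C)).const_mul η
    have i2 : IntegrableOn (fun z => η⁻¹ * (C * nsq z ((U - V n) z))) A volume :=
      ((hUV.integrable.integrableOn).const_mul C).const_mul η⁻¹
    calc |∫ z in A, (Q z (V n z) - Q z (U z))|
        ≤ ∫ z in A, |Q z (V n z) - Q z (U z)| := abs_integral_le_integral_abs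
      _ ≤ ∫ z in A, (η * (g z + C * nsq z (U z)) + η⁻¹ * (C * nsq z ((U - V n) z))) := by
          refine setIntegral_mono_on ((hint _ (hV n)).sub (hint _ hU)).abs (i1.add i2) hA ?_
          intro z hz
          exact hQ η h0 h1 z hz (V n z) (U z)
      _ = (∫ z in A, η * (g z + C * nsq z (U z))) + ∫ z in A, η⁻¹ * (C * nsq z ((U - V n) z)) :=
          integral_add i1 i2
      _ ≤ η * K + η⁻¹ * (C * En (U - V n)) := by
          have e1 : ∫ z in A, η * (g z + C * nsq z (U z)) ≤ η * K := by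
            rw [integral_const_mul, integral_add hg ((hU.integrable.integrableOn).const_mul C),
              integral_const_mul]
            have e2 : ∫ z in A, nsq z (U z) ≤ En U :=
              setIntegral_le_integral hU.integrable (Eventually.of_forall fun z => h5_nsq_nonneg z _)
            apply mul_le_mul_of_nonneg_left _ h0.le
            rw [hK]
            gcongr
          have e3 : ∫ z in A, η⁻¹ * (C * nsq z ((U - V n) z)) ≤ η⁻¹ * (C * En (U - V n)) := by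
            rw [integral_const_mul, integral_const_mul]
            have e2 : ∫ z in A, nsq z ((U - V n) z) ≤ En (U - V n) :=
              setIntegral_le_integral hUV.integrable
                (Eventually.of_forall fun z => h5_nsq_nonneg z _)
            have : 0 ≤ η⁻¹ := by positivity
            gcongr
          linarith
  rw [Metric.tendsto_atTop]
  intro ε hε
  set η := min 1 (ε / (2 * (K + 1))) with hη
  have hη0 : 0 < η := by
    rw [hη]
    positivity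
  have hη1 : η ≤ 1 := min_le_left _ _
  have hη2 : η * K < ε / 2 := by
    have h1 : η ≤ ε / (2 * (K + 1)) := min_le_right _ _
    have h2 : η * (K + 1) ≤ ε / 2 := by
      rw [le_div_iff₀ (by positivity)] at h1
      linarith
    nlinarith
  have h3 : Tendsto (fun n => η⁻¹ * (C * En (U - V n))) atTop (𝓝 (η⁻¹ * (C * 0))) :=
    (hE.const_mul C).const_mul η⁻¹
  rw [mul_zero, mul_zero] at h3
  have h4 : ∀ᶠ n in atTop, η⁻¹ * (C * En (U - V n)) < ε / 2 :=
    (tendsto_order.1 h3).2 _ (by linarith)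
  obtain ⟨N, hN⟩ := eventually_atTop.1 h4
  refine ⟨N, fun n hn => ?_⟩
  rw [Real.dist_eq]
  have := hbound η hη0 hη1 n
  have := hN n hn
  linarith

/-- diagonal quadratic densities -/
private noncomputable def h5Q (α : ℂ → ι → ℝ) (β : ι → ℝ) (z : ℂ) (u : Ev ι × Ev ι × Ev ι) : ℝ :=
  ∑ j, (α z j * u.1 j ^ 2 + β j * (u.2.1 j ^ 2 + u.2.2 j ^ 2))

private theorem h5_meas1 {W : Fld ι} (hW : AEStronglyMeasurable W volume) (j : ι) :
    AEStronglyMeasurable (fun z => (W z).1 j) volume ∧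
    AEStronglyMeasurable (fun z => (W z).2.1 j) volume ∧
    AEStronglyMeasurable (fun z => (W z).2.2 j) volume := by
  have c1 : Continuous (fun u : Ev ι × Ev ι × Ev ι => u.1 j) := by fun_prop
  have c2 : Continuous (fun u : Ev ι × Ev ι × Ev ι => u.2.1 j) := by fun_prop
  have c3 : Continuous (fun u : Ev ι × Ev ι × Ev ι => u.2.2 j) := by fun_prop
  exact ⟨c1.comp_aestronglyMeasurable hW, c2.comp_aestronglyMeasurable hW,
    c3.comp_aestronglyMeasurable hW⟩

private theorem h5_quad {U : Fld ι} {V : ℕ → Fld ι} (hU : IsSob U) (hV : ∀ n, IsSob (V n))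
    (hE : Tendsto (fun n => En (U - V n)) atTop (𝓝 0)) (A : Set ℂ) (hA : MeasurableSet A)
    (α : ℂ → ι → ℝ) (β : ι → ℝ) (C : ℝ) (hC : 0 ≤ C) (hα : ∀ z ∈ A, ∀ j, |α z j| ≤ C * wt z)
    (hβ : ∀ j, |β j| ≤ C) (hαm : ∀ j, Measurable (fun z => α z j)) :
    Tendsto (fun n => ∫ z in A, h5Q α β z (V n z)) atTop (𝓝 (∫ z in A, h5Q α β z (U z))) := by
  refine h5_lim hU hV hE A hA (h5Q α β) (fun _ => 0) integrableOn_zero (fun _ => le_rfl) (2 * C)
    (by positivity) ?_ ?_ ?_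
  · intro η h0 h1 z hz u v
    have hη : 0 ≤ η⁻¹ := by positivity
    have hw := (wt_pos z).le
    rw [h5_nsq, h5_nsq, zero_add]
    unfold h5Q
    rw [← Finset.sum_sub_distrib]
    refine (Finset.abs_sum_le_sum_abs _ _).trans ?_
    have e1 : η * (2 * C * ∑ j, (wt z * v.1 j ^ 2 + (v.2.1 j ^ 2 + v.2.2 j ^ 2))) +
        η⁻¹ * (2 * C * ∑ j, (wt z * (v - u).1 j ^ 2 + ((v - u).2.1 j ^ 2 + (v - u).2.2 j ^ 2))) =
        ∑ j, (η * (2 * C * (wt z * v.1 j ^ 2 + (v.2.1 j ^ 2 + v.2.2 j ^ 2))) +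
          η⁻¹ * (2 * C * (wt z * (v - u).1 j ^ 2 + ((v - u).2.1 j ^ 2 + (v - u).2.2 j ^ 2)))) := by
      rw [Finset.mul_sum, Finset.mul_sum, Finset.mul_sum, Finset.mul_sum, ← Finset.sum_add_distrib]
    rw [e1]
    refine Finset.sum_le_sum fun j _ => ?_
    have a1 := h5_sq (x := u.1 j) (y := v.1 j) h0 h1
    have a2 := h5_sq (x := u.2.1 j) (y := v.2.1 j) h0 h1
    have a3 := h5_sq (x := u.2.2 j) (y := v.2.2 j) h0 h1
    have d1 : (v - u).1 j = -(u.1 j - v.1 j) := by simp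
    have d2 : (v - u).2.1 j = -(u.2.1 j - v.2.1 j) := by simp
    have d3 : (v - u).2.2 j = -(u.2.2 j - v.2.2 j) := by simp
    rw [d1, d2, d3, neg_sq, neg_sq, neg_sq]
    have b1 : |α z j * (u.1 j ^ 2 - v.1 j ^ 2)| ≤
        (C * wt z) * (η * v.1 j ^ 2 + η⁻¹ * (2 * (u.1 j - v.1 j) ^ 2)) := by
      rw [abs_mul]
      exact mul_le_mul (hα z hz j) a1 (abs_nonneg _) (by positivity)
    have b2 : |β j * (u.2.1 j ^ 2 - v.2.1 j ^ 2)| ≤
        C * (η * v.2.1 j ^ 2 + η⁻¹ * (2 * (u.2.1 j - v.2.1 j) ^ 2)) := by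
      rw [abs_mul]
      exact mul_le_mul (hβ j) a2 (abs_nonneg _) hC
    have b3 : |β j * (u.2.2 j ^ 2 - v.2.2 j ^ 2)| ≤
        C * (η * v.2.2 j ^ 2 + η⁻¹ * (2 * (u.2.2 j - v.2.2 j) ^ 2)) := by
      rw [abs_mul]
      exact mul_le_mul (hβ j) a3 (abs_nonneg _) hC
    have e2 : α z j * u.1 j ^ 2 + β j * (u.2.1 j ^ 2 + u.2.2 j ^ 2) -
        (α z j * v.1 j ^ 2 + β j * (v.2.1 j ^ 2 + v.2.2 j ^ 2)) =
        α z j * (u.1 j ^ 2 - v.1 j ^ 2) + (β j * (u.2.1 j ^ 2 - v.2.1 j ^ 2) +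
          β j * (u.2.2 j ^ 2 - v.2.2 j ^ 2)) := by ring
    rw [e2]
    refine (abs_add_le _ _).trans ?_
    have e3 := abs_add_le (β j * (u.2.1 j ^ 2 - v.2.1 j ^ 2)) (β j * (u.2.2 j ^ 2 - v.2.2 j ^ 2))
    have p1 : 0 ≤ C * wt z * (η * v.1 j ^ 2) := by positivity
    have p2 : 0 ≤ C * (η * v.2.1 j ^ 2) := by positivity
    have p3 : 0 ≤ C * (η * v.2.2 j ^ 2) := by positivity
    linarith only [b1, b2, b3, e3, p1, p2, p3]
  · intro z
    simp [h5Q]
  · intro W hW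
    unfold h5Q
    refine Finset.aestronglyMeasurable_fun_sum _ fun j _ => ?_
    obtain ⟨m1, m2, m3⟩ := h5_meas1 hW j
    exact ((hαm j).aestronglyMeasurable.mul (m1.pow 2)).add
      (((m2.pow 2).add (m3.pow 2)).const_mul (β j))

private theorem h5_wt_ge {M : ℝ} (z : ℂ) (hz : ‖z‖ ≤ M) : 1 ≤ (1 + M ^ 2) ^ 2 * wt z := by
  unfold wt
  rw [← div_eq_mul_inv, one_le_div (by positivity)]
  have h0 := norm_nonneg z
  gcongr

private theorem h5_exp {ρ ε : ℝ} {F : ℝ → ℝ} (h : Wall ρ ε F) (ξ : ℂ) :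
    ∃ C : ℝ, 0 ≤ C ∧ ∀ z : ℂ, exp (SS F (z - ξ)) ≤ C * wt z := by
  have hρ := h.hρ
  refine ⟨(1 + (2 * ρ + ‖ξ‖) ^ 2) ^ 2 + 80 ^ 4 * (1 + ‖ξ‖) ^ 4, by positivity, ?_⟩
  intro z
  have hw := (wt_pos z).le
  set r := ‖z - ξ‖ with hr
  have hr0 : 0 ≤ r := norm_nonneg _
  have hzr : ‖z‖ ≤ r + ‖ξ‖ := by
    calc ‖z‖ = ‖(z - ξ) + ξ‖ := by rw [sub_add_cancel]
      _ ≤ _ := norm_add_le _ _
  have hS : exp (SS F (z - ξ)) = yy F r := rfl
  rw [hS, add_mul]
  rcases le_total r (2 * ρ) with h1 | h1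
  · have h2 := h5_wt_ge (M := 2 * ρ + ‖ξ‖) z (by linarith)
    have h3 : yy F r ≤ 1 := by
      unfold yy
      rw [Real.exp_le_one_iff]
      have := s_le h hr0
      have := h.hε
      linarith
    have h4 : 0 ≤ 80 ^ 4 * (1 + ‖ξ‖) ^ 4 * wt z := by positivity
    linarith
  · have h2 := y_out_pow h (r := r) (by linarith)
    have h3 : 1 + r ≤ 80 * (1 + (r - ρ) / 40) := by linarith
    have h4 : (1 : ℝ) ≤ 1 + (r - ρ) / 40 := by
      have : 0 ≤ (r - ρ) / 40 := by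
        apply div_nonneg _ (by norm_num)
        linarith
      linarith
    have h5 : (1 + (r - ρ) / 40) ^ 4 ≤ (1 + (r - ρ) / 40) ^ 18 := pow_le_pow_right₀ h4 (by norm_num)
    have h6 : (1 + r) ^ 4 ≤ 80 ^ 4 * (1 + (r - ρ) / 40) ^ 18 := by
      calc (1 + r) ^ 4 ≤ (80 * (1 + (r - ρ) / 40)) ^ 4 := by gcongr
        _ = 80 ^ 4 * (1 + (r - ρ) / 40) ^ 4 := by ring
        _ ≤ _ := by gcongr
    have h7 : (1 + ‖z‖ ^ 2) ^ 2 ≤ (1 + ‖ξ‖) ^ 4 * (1 + r) ^ 4 := by
      have hz0 := norm_nonneg z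
      have hξ := norm_nonneg ξ
      have e1 : 1 + ‖z‖ ^ 2 ≤ (1 + ‖z‖) ^ 2 := by nlinarith only [hz0]
      have e2 : 1 + ‖z‖ ≤ (1 + ‖ξ‖) * (1 + r) := by nlinarith only [hzr, mul_nonneg hξ hr0]
      calc (1 + ‖z‖ ^ 2) ^ 2 ≤ ((1 + ‖z‖) ^ 2) ^ 2 := by gcongr
        _ = (1 + ‖z‖) ^ 4 := by ring
        _ ≤ ((1 + ‖ξ‖) * (1 + r)) ^ 4 := by gcongr
        _ = _ := by ring
    have h8 : yy F r ≤ 80 ^ 4 * (1 + ‖ξ‖) ^ 4 * wt z := by
      refine h2.trans ?_
      unfold wt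
      rw [← div_eq_mul_inv, ← div_eq_mul_inv, div_le_div_iff₀ (by positivity) (by positivity)]
      have e3 : 0 ≤ (1 + ‖ξ‖) ^ 4 := by positivity
      calc 1 / 2 * (1 + ‖z‖ ^ 2) ^ 2 ≤ 1 * (1 + ‖z‖ ^ 2) ^ 2 := by
            gcongr
            norm_num
        _ ≤ (1 + ‖ξ‖) ^ 4 * (1 + r) ^ 4 := by rw [one_mul]; exact h7
        _ ≤ (1 + ‖ξ‖) ^ 4 * (80 ^ 4 * (1 + (r - ρ) / 40) ^ 18) := by gcongr
        _ = _ := by ring
    have h9 : 0 ≤ (1 + (2 * ρ + ‖ξ‖) ^ 2) ^ 2 * wt z := by positivity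
    linarith

private theorem h5_trig (k : ℕ) (b : Bool) (z : ℂ) : |trig k b z| ≤ 1 := by
  have h1 : ‖(z / (‖z‖ : ℂ)) ^ k‖ ≤ 1 := by
    rw [norm_pow, norm_div, Complex.norm_real, norm_norm]
    apply pow_le_one₀ (by positivity)
    exact div_self_le_one _
  unfold trig
  split_ifs
  · exact (Complex.abs_re_le_norm _).trans h1
  · exact (Complex.abs_im_le_norm _).trans h1

private theorem h5_trig_meas (k : ℕ) (b : Bool) : Measurable (trig k b) := by
  have h1 : Measurable (fun z : ℂ => (z / (‖z‖ : ℂ)) ^ k) := by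
    have h2 : Measurable (fun z : ℂ => (‖z‖ : ℂ)) := Complex.measurable_ofReal.comp measurable_norm
    exact (measurable_id.div h2).pow_const k
  cases b
  · have : trig k false = fun z : ℂ => ((z / (‖z‖ : ℂ)) ^ k).im := by
      funext z; simp [trig]
    rw [this]
    exact Complex.measurable_im.comp h1
  · have : trig k true = fun z : ℂ => ((z / (‖z‖ : ℂ)) ^ k).re := by
      funext z; simp [trig]
    rw [this]
    exact Complex.measurable_re.comp h1

private theorem h5_ell {U : Fld ι} {V : ℕ → Fld ι} (hU : IsSob U) (hV : ∀ n, IsSob (V n))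
    (hE : Tendsto (fun n => En (U - V n)) atTop (𝓝 0)) (ρ : ℝ) (hρ : 0 ≤ ρ) (i : ι × ℕ × Bool)
    (ξ : ℂ) : Tendsto (fun n => ell ρ i ξ (V n)) atTop (𝓝 (ell ρ i ξ U)) := by
  set om' : ℂ → ℝ := fun x => om (‖x - ξ‖ - ρ) * trig i.2.1 i.2.2 (x - ξ) with hom
  set M := ρ + 1 + ‖ξ‖ with hM
  have hM0 : 0 ≤ M := by positivity
  have ho1 : ∀ t : ℝ, |om t| ≤ 1 := by
    intro t
    unfold om
    rw [abs_of_nonneg (Real.smoothTransition.nonneg _)]
    exact Real.smoothTransition.le_one _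
  have ho2 : ∀ t : ℝ, 1 ≤ t → om t = 0 := by
    intro t ht
    unfold om
    apply Real.smoothTransition.zero_of_nonpos
    nlinarith
  have hle1 : ∀ z, |om' z| ≤ 1 := by
    intro z
    rw [hom]
    simp only
    rw [abs_mul]
    calc |om (‖z - ξ‖ - ρ)| * |trig i.2.1 i.2.2 (z - ξ)| ≤ 1 * 1 :=
          mul_le_mul (ho1 _) (h5_trig _ _ _) (abs_nonneg _) (by norm_num)
      _ = 1 := one_mul _
  have hzero : ∀ z, z ∉ Metric.closedBall (0 : ℂ) M → om' z = 0 := by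
    intro z hz
    rw [Metric.mem_closedBall, not_le, dist_zero_right] at hz
    rw [hom]
    simp only
    rw [ho2 _ _, zero_mul]
    have : ‖z‖ ≤ ‖z - ξ‖ + ‖ξ‖ := by
      calc ‖z‖ = ‖(z - ξ) + ξ‖ := by rw [sub_add_cancel]
        _ ≤ _ := norm_add_le _ _
    linarith
  have hmeas : Measurable om' := by
    rw [hom]
    have h1 : Measurable (fun x : ℂ => om (‖x - ξ‖ - ρ)) := by
      unfold om
      have : Continuous (fun x : ℂ => Real.smoothTransition (2 - 4 * (‖x - ξ‖ - ρ) ^ 2)) :=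
        Real.smoothTransition.continuous.comp (by fun_prop)
      exact this.measurable
    exact h1.mul ((h5_trig_meas _ _).comp (measurable_id.sub_const ξ))
  have hint : Integrable (fun z => |om' z|) volume := by
    have h1 : IntegrableOn (fun z => |om' z|) (Metric.closedBall 0 M) volume := by
      refine Integrable.mono' (g := fun _ => (1 : ℝ))
        (integrableOn_const (by exact measure_closedBall_lt_top.ne)) hmeas.abs.aestronglyMeasurable ?_
      filter_upwards with z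
      rw [Real.norm_eq_abs, abs_abs]
      exact hle1 z
    exact (integrableOn_iff_integrable_of_support_subset (by
      intro z hz
      by_contra hn
      exact hz (by simp only [hzero z hn, abs_zero]))).1 h1
  have hwt : ∀ z, |om' z| ≤ (1 + M ^ 2) ^ 2 * wt z := by
    intro z
    by_cases hz : z ∈ Metric.closedBall (0 : ℂ) M
    · rw [Metric.mem_closedBall, dist_zero_right] at hz
      exact (hle1 z).trans (h5_wt_ge z hz)
    · rw [hzero z hz, abs_zero]
      have := (wt_pos z).le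
      positivity
  have key := h5_lim hU hV hE Set.univ MeasurableSet.univ
    (fun z u => om' z * u.1 i.1) (fun z => |om' z|) hint.integrableOn (fun z => abs_nonneg _)
    ((1 + M ^ 2) ^ 2) (by positivity) ?_ ?_ ?_
  · simp only [Measure.restrict_univ] at key
    exact key
  · intro η h0 h1 z _ u v
    have e1 : om' z * u.1 i.1 - om' z * v.1 i.1 = -(om' z * (v - u).1 i.1) := by
      simp
      ring
    rw [e1, abs_neg, abs_mul]
    set t := (v - u).1 i.1 with ht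
    have e2 : |t| ≤ η + η⁻¹ * t ^ 2 := by
      have e3 : η * η⁻¹ = 1 := mul_inv_cancel₀ h0.ne'
      have e4 : 0 ≤ η * (1 / 2 - η⁻¹ * |t|) ^ 2 := by positivity
      have e5 : η * (1 / 2 - η⁻¹ * |t|) ^ 2 =
          η / 4 - (η * η⁻¹) * |t| + (η * η⁻¹) * (η⁻¹ * |t| ^ 2) := by ring
      rw [e5, e3, sq_abs] at e4
      linarith
    have e6 : wt z * t ^ 2 ≤ nsq z (v - u) := by
      rw [h5_nsq]
      have hw := (wt_pos z).le
      refine le_trans ?_ (Finset.single_le_sum (f := fun j => (wt z * (v - u).1 j ^ 2 +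
        ((v - u).2.1 j ^ 2 + (v - u).2.2 j ^ 2))) (fun j _ => by positivity) (Finset.mem_univ i.1))
      simp only
      rw [← ht]
      have : 0 ≤ (v - u).2.1 i.1 ^ 2 + (v - u).2.2 i.1 ^ 2 := by positivity
      linarith
    have hη : 0 ≤ η⁻¹ := by positivity
    have e7 := h5_nsq_nonneg z v
    calc |om' z| * |t| ≤ |om' z| * (η + η⁻¹ * t ^ 2) := by gcongr
      _ = η * |om' z| + η⁻¹ * (|om' z| * t ^ 2) := by ring
      _ ≤ η * (|om' z| + (1 + M ^ 2) ^ 2 * nsq z v) + η⁻¹ * ((1 + M ^ 2) ^ 2 * nsq z (v - u)) := by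
        have e8 : |om' z| * t ^ 2 ≤ (1 + M ^ 2) ^ 2 * nsq z (v - u) := by
          calc |om' z| * t ^ 2 ≤ ((1 + M ^ 2) ^ 2 * wt z) * t ^ 2 := by
                gcongr
                exact hwt z
            _ = (1 + M ^ 2) ^ 2 * (wt z * t ^ 2) := by ring
            _ ≤ _ := by gcongr
        have e9 : 0 ≤ (1 + M ^ 2) ^ 2 * nsq z v := by positivity
        have e10 : η * |om' z| ≤ η * (|om' z| + (1 + M ^ 2) ^ 2 * nsq z v) := by
          apply mul_le_mul_of_nonneg_left _ h0.le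
          linarith
        have e11 := mul_le_mul_of_nonneg_left e8 hη
        linarith
  · intro z
    simp
  · intro W hW
    exact hmeas.aestronglyMeasurable.mul (h5_meas1 hW i.1).1

theorem WI (S : Sys ι) :
    ∃ c > 0, ∀ R₀ Ξ : ℝ, 1 ≤ R₀ → 0 ≤ Ξ → ∃ ρ₀ : ℝ, ∀ ρ ε F, Wall ρ ε F → ρ₀ ≤ ρ →
      ∀ ξ : ℂ, ‖ξ‖ ≤ Ξ → ∀ U : Fld ι, IsSob U →
      c * (∫ x in {x : ℂ | R₀ < ‖x‖ ∧ ‖x‖ < 0.9 * ρ}, (gsq (U x) + ‖(U x).1‖ ^ 2))
        + c * (ρ ^ 3)⁻¹ * (∫ x in {x : ℂ | 0.9 * ρ ≤ ‖x‖}, (gsq (U x) + wgt ρ ‖x‖ * ‖(U x).1‖ ^ 2))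
      ≤ (∫ x in {x : ℂ | R₀ < ‖x‖}, (gP S (U x) + qV S (SS F (x - ξ)) (U x).1))
        - 0.85 * (∫ x in {x : ℂ | R₀ < ‖x‖ ∧ ‖x‖ < 0.9 * ρ}, ‖(U x).1‖ ^ 2)
        + ρ ^ 2 * ∑ i ∈ modes S, ell ρ i ξ U ^ 2 := by
  obtain ⟨c, hc, hW⟩ := WI_smooth S
  refine ⟨c, hc, ?_⟩
  intro R₀ Ξ hR hΞ
  obtain ⟨ρ₀, hρ₀⟩ := hW R₀ Ξ hR hΞ
  refine ⟨ρ₀, ?_⟩
  intro ρ ε F hwall hρ ξ hξ U hU
  have hρ1 : (1 : ℝ) ≤ ρ := by have := hwall.hρ; linarith
  obtain ⟨φ, hφ, hE, -⟩ := hU.exists_seq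
  have hV : ∀ n, IsSob (jet (φ n)) := fun n => isSob_jet (hφ n)
  set V : ℕ → Fld ι := fun n => jet (φ n) with hVdef
  set A1 : Set ℂ := {x : ℂ | R₀ < ‖x‖ ∧ ‖x‖ < 0.9 * ρ} with hA1
  set A2 : Set ℂ := {x : ℂ | 0.9 * ρ ≤ ‖x‖} with hA2
  set A3 : Set ℂ := {x : ℂ | R₀ < ‖x‖} with hA3
  have mA1 : MeasurableSet A1 :=
    (measurableSet_lt measurable_const measurable_norm).inter
      (measurableSet_lt measurable_norm measurable_const)
  have mA2 : MeasurableSet A2 := measurableSet_le measurable_const measurable_norm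
  have mA3 : MeasurableSet A3 := measurableSet_lt measurable_const measurable_norm
  have hwtA1 : ∀ z ∈ A1, 1 ≤ (1 + ρ ^ 2) ^ 2 * wt z := by
    intro z hz
    apply h5_wt_ge z
    have := hz.2
    linarith
  have hC1 : (1 : ℝ) ≤ (1 + ρ ^ 2) ^ 2 := by nlinarith [sq_nonneg ρ, sq_nonneg (ρ ^ 2)]
  -- the five limits
  have t1 : Tendsto (fun n => ∫ x in A1, (gsq (V n x) + ‖(V n x).1‖ ^ 2)) atTop
      (𝓝 (∫ x in A1, (gsq (U x) + ‖(U x).1‖ ^ 2))) := by
    have h1 := h5_quad hU hV hE A1 mA1 (fun _ _ => 1) (fun _ => 1) ((1 + ρ ^ 2) ^ 2)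
      (by positivity) (fun z hz j => by rw [abs_one]; exact hwtA1 z hz)
      (fun j => by rw [abs_one]; exact hC1) (fun j => measurable_const)
    have h2 : ∀ (W : Fld ι) (z : ℂ), h5Q (fun _ _ => (1 : ℝ)) (fun _ => 1) z (W z) =
        gsq (W z) + ‖(W z).1‖ ^ 2 := by
      intro W z
      unfold h5Q
      rw [h5_gsq, h5_norm, ← Finset.sum_add_distrib]
      exact Finset.sum_congr rfl fun j _ => by ring
    simp only [h2] at h1
    exact h1
  have t2 : Tendsto (fun n => ∫ x in A1, ‖(V n x).1‖ ^ 2) atTop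
      (𝓝 (∫ x in A1, ‖(U x).1‖ ^ 2)) := by
    have h1 := h5_quad hU hV hE A1 mA1 (fun _ _ => 1) (fun _ => 0) ((1 + ρ ^ 2) ^ 2)
      (by positivity) (fun z hz j => by rw [abs_one]; exact hwtA1 z hz)
      (fun j => by rw [abs_zero]; positivity) (fun j => measurable_const)
    have h2 : ∀ (W : Fld ι) (z : ℂ), h5Q (fun _ _ => (1 : ℝ)) (fun _ => 0) z (W z) =
        ‖(W z).1‖ ^ 2 := by
      intro W z
      unfold h5Q
      rw [h5_norm]
      exact Finset.sum_congr rfl fun j _ => by ring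
    simp only [h2] at h1
    exact h1
  have t3 : Tendsto (fun n => ∫ x in A2, (gsq (V n x) + wgt ρ ‖x‖ * ‖(V n x).1‖ ^ 2)) atTop
      (𝓝 (∫ x in A2, (gsq (U x) + wgt ρ ‖x‖ * ‖(U x).1‖ ^ 2))) := by
    have h1 := h5_quad hU hV hE A2 mA2 (fun z _ => wgt ρ ‖z‖) (fun _ => 1) (4 * ρ ^ 4)
      (by positivity) (fun z _ j => by
        rw [abs_of_nonneg (by unfold wgt; positivity)]
        exact wgt_le_wt hρ1 z)
      (fun j => by
        rw [abs_one]
        have : (1 : ℝ) ≤ ρ ^ 4 := one_le_pow₀ hρ1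
        linarith)
      (fun j => by
        unfold wgt
        exact measurable_const.min ((measurable_const.div measurable_norm).pow_const 4))
    have h2 : ∀ (W : Fld ι) (z : ℂ), h5Q (fun z _ => wgt ρ ‖z‖) (fun _ => 1) z (W z) =
        gsq (W z) + wgt ρ ‖z‖ * ‖(W z).1‖ ^ 2 := by
      intro W z
      unfold h5Q
      rw [h5_gsq, h5_norm, Finset.mul_sum, ← Finset.sum_add_distrib]
      exact Finset.sum_congr rfl fun j _ => by ring
    simp only [h2] at h1
    exact h1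
  have t4 : Tendsto (fun n => ∫ x in A3, (gP S (V n x) + qV S (SS F (x - ξ)) (V n x).1)) atTop
      (𝓝 (∫ x in A3, (gP S (U x) + qV S (SS F (x - ξ)) (U x).1))) := by
    obtain ⟨C, hC0, hC⟩ := h5_exp hwall ξ
    set K : ℝ := ∑ j, ((S.μ j : ℝ) + 1) with hK
    have hKj : ∀ j, (S.μ j : ℝ) + 1 ≤ K := fun j =>
      Finset.single_le_sum (f := fun j => (S.μ j : ℝ) + 1) (fun i _ => by positivity)
        (Finset.mem_univ j)
    have hK0 : 0 ≤ K := Finset.sum_nonneg fun _ _ => by positivity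
    have h1 := h5_quad hU hV hE A3 mA3 (fun z j => vj S (SS F (z - ξ)) j)
      (fun j => (S.μ j : ℝ)⁻¹) (C * K + 1) (by positivity) (fun z _ j => by
        have hs : SS F (z - ξ) ≤ 0 := by
          have := s_le hwall (norm_nonneg (z - ξ))
          have := hwall.hε
          unfold SS
          linarith
        have hμ : (0 : ℝ) ≤ S.μ j := Nat.cast_nonneg _
        have hvj : |vj S (SS F (z - ξ)) j| ≤ exp (SS F (z - ξ)) * (S.μ j + 1) := by
          set s := SS F (z - ξ) with hsdef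
          unfold vj
          have h1 : exp (2 * s) = exp s * exp s := by rw [← Real.exp_add]; ring_nf
          have h2 : exp s ≤ 1 := Real.exp_le_one_iff.2 hs
          have h3 := Real.exp_pos s
          rw [h1, abs_le]
          constructor
          · have : 0 ≤ exp s * exp s * ((S.μ j : ℝ) + 1) := by positivity
            have : 0 ≤ exp s * (S.μ j : ℝ) := by positivity
            nlinarith
          · have : 0 ≤ exp s * (1 - exp s) * ((S.μ j : ℝ) + 1) := by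
              have : 0 ≤ 1 - exp s := by linarith
              positivity
            nlinarith
        have hw := (wt_pos z).le
        calc |vj S (SS F (z - ξ)) j| ≤ exp (SS F (z - ξ)) * (S.μ j + 1) := hvj
          _ ≤ (C * wt z) * K := mul_le_mul (hC z) (hKj j) (by positivity) (by positivity)
          _ ≤ (C * K + 1) * wt z := by nlinarith)
      (fun j => by
        rw [abs_of_nonneg (by positivity)]
        have : (S.μ j : ℝ)⁻¹ ≤ 1 := by
          rcases Nat.eq_zero_or_pos (S.μ j) with h0 | h0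
          · rw [h0]; simp
          · exact inv_le_one_of_one_le₀ (by exact_mod_cast h0)
        have : 0 ≤ C * K := by positivity
        linarith)
      (fun j => by
        have hF : Continuous F := hwall.smooth.continuous
        have : Continuous (fun z : ℂ => vj S (SS F (z - ξ)) j) := by
          unfold vj SS
          fun_prop
        exact this.measurable)
    have h2 : ∀ (W : Fld ι) (z : ℂ), h5Q (fun z j => vj S (SS F (z - ξ)) j)
        (fun j => (S.μ j : ℝ)⁻¹) z (W z) = gP S (W z) + qV S (SS F (z - ξ)) (W z).1 := by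
      intro W z
      unfold h5Q gP qV
      rw [← Finset.sum_add_distrib]
      exact Finset.sum_congr rfl fun j _ => by ring
    simp only [h2] at h1
    exact h1
  have t5 : Tendsto (fun n => ∑ i ∈ modes S, ell ρ i ξ (V n) ^ 2) atTop
      (𝓝 (∑ i ∈ modes S, ell ρ i ξ U ^ 2)) :=
    tendsto_finsetSum _ fun i _ => (h5_ell hU hV hE ρ (by linarith) i ξ).pow 2
  refine le_of_tendsto_of_tendsto' ((t1.const_mul c).add (t3.const_mul (c * (ρ ^ 3)⁻¹)))
    ((t4.sub (t2.const_mul 0.85)).add (t5.const_mul (ρ ^ 2))) ?_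
  intro n
  exact hρ₀ ρ ε F hwall hρ ξ hξ (φ n) (hφ n).1 (hφ n).2

end Pool.MP_ad5d82_an.Wl
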