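import Pool.Agent.Lib.MP_ad5d82_an.h24.HDefs
import Pool.Agent.Lib.MP_ad5d82_an.h24.H.H1

set_option autoImplicit false

namespace Pool.MP_ad5d82_an.Wl

open Real Set MeasureTheory Filter Topology
open scoped ContDiff ENNReal

variable {ι : Type} [Fintype ι] [DecidableEq ι]

/-- polar coordinates on annuli -/
theorem h6_polar (F : ℂ → ℝ≥0∞) (hF : Measurable F) (a b : ℝ) (ha : 0 ≤ a) :
    ∫⁻ x in {x : ℂ | a < ‖x‖ ∧ ‖x‖ < b}, F x
      = ∫⁻ θ in Ioo (-π) π, ∫⁻ r in Ioo a b,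
          ENNReal.ofReal r * F (Complex.polarCoord.symm (r, θ)) := by
  have hS : MeasurableSet {x : ℂ | a < ‖x‖ ∧ ‖x‖ < b} :=
    (measurableSet_lt measurable_const measurable_norm).inter
      (measurableSet_lt measurable_norm measurable_const)
  have hsymm : Measurable fun p : ℝ × ℝ => Complex.polarCoord.symm p := by
    simp only [Complex.polarCoord_symm_apply]
    fun_prop
  rw [← lintegral_indicator hS, ← Complex.lintegral_comp_polarCoord_symm]
  have h1 : (polarCoord.target : Set (ℝ × ℝ)) = Ioi (0 : ℝ) ×ˢ Ioo (-π) π := rfl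
  rw [h1, Measure.volume_eq_prod, setLIntegral_prod_symm]
  · refine lintegral_congr fun θ => ?_
    rw [← lintegral_indicator measurableSet_Ioi, ← lintegral_indicator measurableSet_Ioo]
    refine lintegral_congr fun r => ?_
    by_cases hr : 0 < r
    · rw [indicator_of_mem (show r ∈ Ioi (0 : ℝ) from hr)]
      have hn : ‖Complex.polarCoord.symm (r, θ)‖ = r := by
        rw [Complex.norm_polarCoord_symm, abs_of_pos hr]
      by_cases hr2 : r ∈ Ioo a b
      · rw [indicator_of_mem hr2, indicator_of_mem, smul_eq_mul]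
        change a < ‖_‖ ∧ ‖_‖ < b
        rw [hn]; exact hr2
      · rw [indicator_of_notMem hr2, indicator_of_notMem, smul_zero]
        change ¬ (a < ‖_‖ ∧ ‖_‖ < b)
        rw [hn]; exact hr2
    · rw [indicator_of_notMem (show r ∉ Ioi (0 : ℝ) from hr), indicator_of_notMem]
      intro h
      exact hr (lt_of_le_of_lt ha h.1)
  · refine Measurable.aemeasurable ?_
    exact (measurable_fst.ennreal_ofReal).smul ((hF.indicator hS).comp hsymm)

omit [DecidableEq ι] in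
/-- the directional derivative is bounded by the gradient -/
theorem h6_dir (φ : ℂ → Ev ι) (z h : ℂ) :
    ‖fderiv ℝ φ z h‖ ^ 2 ≤ ‖h‖ ^ 2 * gsq (jet φ z) := by
  have h1 : fderiv ℝ φ z h = h.re • fderiv ℝ φ z 1 + h.im • fderiv ℝ φ z Complex.I := by
    rw [← map_smul, ← map_smul, ← map_add]
    congr 1
    apply Complex.ext <;> simp
  have h2 : ‖fderiv ℝ φ z h‖ ≤ |h.re| * ‖fderiv ℝ φ z 1‖ + |h.im| * ‖fderiv ℝ φ z Complex.I‖ := by
    rw [h1]
    refine (norm_add_le _ _).trans ?_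
    rw [norm_smul, norm_smul, Real.norm_eq_abs, Real.norm_eq_abs]
  have h3 : ‖h‖ ^ 2 = |h.re| ^ 2 + |h.im| ^ 2 := by
    rw [sq_abs, sq_abs, ← Complex.normSq_eq_norm_sq, Complex.normSq_apply]
    ring
  rw [h3]
  change _ ≤ _ * (‖fderiv ℝ φ z 1‖ ^ 2 + ‖fderiv ℝ φ z Complex.I‖ ^ 2)
  have h4 : 0 ≤ ‖fderiv ℝ φ z h‖ := norm_nonneg _
  refine (pow_le_pow_left₀ h4 h2 2).trans ?_
  nlinarith [sq_nonneg (|h.re| * ‖fderiv ℝ φ z Complex.I‖ - |h.im| * ‖fderiv ℝ φ z 1‖)]

omit [DecidableEq ι] in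
theorem h6_gsq_nonneg (u : Ev ι × Ev ι × Ev ι) : 0 ≤ gsq u := by
  unfold gsq; positivity

omit [DecidableEq ι] in
theorem h6_cont_gsq {φ : ℂ → Ev ι} (hφ : IsTest φ) : Continuous fun z => gsq (jet φ z) := by
  have h1 : Continuous fun z => fderiv ℝ φ z := hφ.1.continuous_fderiv (by simp)
  unfold gsq jet
  simp only
  exact (((h1.clm_apply continuous_const).norm.pow 2).add
    ((h1.clm_apply continuous_const).norm.pow 2))

/-- one-dimensional estimate along a ray -/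
theorem h6_ray {φ : ℂ → Ev ι} (hφ : IsTest φ) (e : ℂ) (he : ‖e‖ = 1) (s t : ℝ) (hs : 0 < s)
    (hst : s ≤ t) : ‖φ (s * e) - φ (t * e)‖ ^ 2 ≤
      Real.log (t / s) * ∫ τ in s..t, τ * gsq (jet φ (τ * e)) := by
  have hφd : Differentiable ℝ φ := hφ.1.differentiable (by simp)
  have hcf : Continuous fun z => fderiv ℝ φ z := hφ.1.continuous_fderiv (by simp)
  have hce : Continuous fun τ : ℝ => (τ : ℂ) * e := by fun_prop
  have hder : ∀ τ : ℝ, HasDerivAt (fun τ : ℝ => φ (τ * e)) (fderiv ℝ φ (τ * e) e) τ := by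
    intro τ
    have h1 : HasDerivAt (fun τ : ℝ => (τ : ℂ) * e) e τ := by
      have := (Complex.ofRealCLM.hasDerivAt (x := τ)).mul_const e
      simpa using this
    exact (hφd _).hasFDerivAt.comp_hasDerivAt τ h1
  have hcd : Continuous fun τ : ℝ => fderiv ℝ φ (τ * e) e := (hcf.comp hce).clm_apply continuous_const
  have hcg : Continuous fun τ : ℝ => gsq (jet φ (τ * e)) := (h6_cont_gsq hφ).comp hce
  have hftc : φ (t * e) - φ (s * e) = ∫ τ in s..t, fderiv ℝ φ (τ * e) e :=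
    (intervalIntegral.integral_eq_sub_of_hasDerivAt (fun τ _ => hder τ)
      (hcd.intervalIntegrable _ _)).symm
  set D := ‖φ (s * e) - φ (t * e)‖ with hD
  set E := ∫ τ in s..t, τ * gsq (jet φ (τ * e)) with hE
  set L := Real.log (t / s) with hL
  have hD0 : 0 ≤ D := norm_nonneg _
  have hLint : ∫ τ in s..t, τ⁻¹ = L := by
    rw [integral_inv_of_pos hs (hs.trans_le hst)]
  have hD1 : D ≤ ∫ τ in s..t, ‖fderiv ℝ φ (τ * e) e‖ := by
    rw [hD, norm_sub_rev, hftc]
    exact intervalIntegral.norm_integral_le_integral_norm hst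
  have hinvc : ContinuousOn (fun τ : ℝ => τ⁻¹) (uIcc s t) := by
    apply continuousOn_inv₀.mono
    intro τ hτ
    rw [uIcc_of_le hst] at hτ
    exact ne_of_gt (hs.trans_le hτ.1)
  have hE0 : 0 ≤ E := by
    apply intervalIntegral.integral_nonneg hst
    intro τ hτ
    exact mul_nonneg (hs.le.trans hτ.1) (h6_gsq_nonneg _)
  have key : ∀ l : ℝ, 0 < l → 2 * l * D ≤ l ^ 2 * E + L := by
    intro l hl
    have h1 : ∫ τ in s..t, ‖fderiv ℝ φ (τ * e) e‖ ≤
        ∫ τ in s..t, (l / 2 * (τ * gsq (jet φ (τ * e))) + 1 / (2 * l) * τ⁻¹) := by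
      apply intervalIntegral.integral_mono_on hst (hcd.norm.intervalIntegrable _ _)
      · apply IntervalIntegrable.add
        · exact (continuous_const.mul (continuous_id.mul hcg)).intervalIntegrable _ _
        · exact (hinvc.const_smul (1 / (2 * l))).intervalIntegrable
      · intro τ hτ
        have hτ0 : 0 < τ := hs.trans_le hτ.1
        have h2 := h6_dir φ (τ * e) e
        rw [he, one_pow, one_mul] at h2
        set N := ‖fderiv ℝ φ (τ * e) e‖
        set G := gsq (jet φ (τ * e))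
        have h3 : l / 2 * (τ * N ^ 2) + 1 / (2 * l) * τ⁻¹ - N
            = 1 / (2 * l * τ) * (l * τ * N - 1) ^ 2 := by
          field_simp
          ring
        have h4 : 0 ≤ 1 / (2 * l * τ) * (l * τ * N - 1) ^ 2 := by positivity
        have h5 : l / 2 * (τ * N ^ 2) ≤ l / 2 * (τ * G) := by gcongr
        linarith
    rw [intervalIntegral.integral_add, intervalIntegral.integral_const_mul,
      intervalIntegral.integral_const_mul, hLint, ← hE] at h1
    · have h2 : D ≤ l / 2 * E + 1 / (2 * l) * L := hD1.trans h1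
      have h3 : 2 * l * D ≤ 2 * l * (l / 2 * E + 1 / (2 * l) * L) := by gcongr
      have h4 : 2 * l * (l / 2 * E + 1 / (2 * l) * L) = l ^ 2 * E + L := by
        field_simp
      linarith
    · exact (continuous_const.mul (continuous_id.mul hcg)).intervalIntegrable _ _
    · exact (hinvc.const_smul (1 / (2 * l))).intervalIntegrable
  have hL0 : 0 ≤ L := by
    rw [hL]
    apply Real.log_nonneg
    rw [le_div_iff₀ hs, one_mul]
    exact hst
  have hdisc := discrim_le_zero (a := E) (b := -2 * D) (c := L) (fun x => by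
    rcases lt_or_ge 0 x with hx | hx
    · have := key x hx
      nlinarith
    · have h1 : 0 ≤ E * (x * x) := mul_nonneg hE0 (mul_self_nonneg x)
      have h2 : 0 ≤ -2 * D * x := by nlinarith
      linarith)
  rw [discrim] at hdisc
  nlinarith

theorem h6_ray_enn {φ : ℂ → Ev ι} (hφ : IsTest φ) (e : ℂ) (he : ‖e‖ = 1) (s t a b : ℝ)
    (hs : 0 < s) (hst : s ≤ t) (ha : a ≤ s) (hb : t ≤ b) :
    ENNReal.ofReal (‖φ (s * e) - φ (t * e)‖ ^ 2) ≤ ENNReal.ofReal (Real.log (t / s)) *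
      ∫⁻ τ in Ioo a b, ENNReal.ofReal τ * ENNReal.ofReal (gsq (jet φ (τ * e))) := by
  have h1 := h6_ray hφ e he s t hs hst
  have hce : Continuous fun τ : ℝ => (τ : ℂ) * e := by fun_prop
  have hcg : Continuous fun τ : ℝ => gsq (jet φ (τ * e)) := (h6_cont_gsq hφ).comp hce
  have hL0 : 0 ≤ Real.log (t / s) := by
    apply Real.log_nonneg
    rw [le_div_iff₀ hs, one_mul]
    exact hst
  refine (ENNReal.ofReal_le_ofReal h1).trans ?_
  rw [ENNReal.ofReal_mul hL0]
  refine mul_le_mul_right ?_ _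
  rw [intervalIntegral.integral_of_le hst, integral_Ioc_eq_integral_Ioo,
    ofReal_integral_eq_lintegral_ofReal]
  · calc ∫⁻ τ in Ioo s t, ENNReal.ofReal (τ * gsq (jet φ (τ * e)))
        = ∫⁻ τ in Ioo s t, ENNReal.ofReal τ * ENNReal.ofReal (gsq (jet φ (τ * e))) := by
          refine setLIntegral_congr_fun measurableSet_Ioo fun τ hτ => ?_
          exact ENNReal.ofReal_mul (hs.le.trans hτ.1.le)
      _ ≤ _ := lintegral_mono_set (Ioo_subset_Ioo ha hb)
  · exact ((continuous_id.mul hcg).integrableOn_Icc).mono_set Ioo_subset_Icc_self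
  · rw [EventuallyLE, ae_restrict_iff' measurableSet_Ioo]
    refine Eventually.of_forall fun τ hτ => ?_
    exact mul_nonneg (hs.le.trans hτ.1.le) (h6_gsq_nonneg _)

/-- averaging -/
theorem h6_avg (A B : ℝ → ℝ≥0∞) (K : ℝ≥0∞) (a b c d : ℝ)
    (h : ∀ r ∈ Ioo a b, ∀ r' ∈ Ioo c d, A r ≤ B r' + K) :
    ENNReal.ofReal (d - c) * ∫⁻ r in Ioo a b, A r ≤
      ENNReal.ofReal (b - a) * (∫⁻ r' in Ioo c d, B r')
        + ENNReal.ofReal (b - a) * (ENNReal.ofReal (d - c) * K) := by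
  set I := ∫⁻ r in Ioo a b, A r with hI
  have h1 : ∀ r' ∈ Ioo c d, I ≤ ENNReal.ofReal (b - a) * (B r' + K) := by
    intro r' hr'
    calc I ≤ ∫⁻ _r in Ioo a b, (B r' + K) :=
          setLIntegral_mono' measurableSet_Ioo fun r hr => h r hr r' hr'
      _ = ENNReal.ofReal (b - a) * (B r' + K) := by
          rw [setLIntegral_const, Real.volume_Ioo, mul_comm]
  calc ENNReal.ofReal (d - c) * I = ∫⁻ _r' in Ioo c d, I := by
        rw [setLIntegral_const, Real.volume_Ioo, mul_comm]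
    _ ≤ ∫⁻ r' in Ioo c d, ENNReal.ofReal (b - a) * (B r' + K) :=
        setLIntegral_mono' measurableSet_Ioo h1
    _ = ENNReal.ofReal (b - a) * (∫⁻ r' in Ioo c d, (B r' + K)) :=
        lintegral_const_mul' _ _ ENNReal.ofReal_ne_top
    _ = _ := by
        rw [lintegral_add_right _ measurable_const, setLIntegral_const, Real.volume_Ioo, mul_add,
          mul_comm K]

/-- pointwise comparison -/
theorem h6_point {φ : ℂ → Ev ι} (hφ : IsTest φ) (e : ℂ) (he : ‖e‖ = 1) (r r' a b L : ℝ)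
    (hr : 0 < r) (hr' : 0 < r') (ha : a ≤ min r r') (hb : max r r' ≤ b)
    (hL : |Real.log (r' / r)| ≤ L) :
    ENNReal.ofReal (‖φ (r * e)‖ ^ 2) ≤ ENNReal.ofReal 2 * ENNReal.ofReal (‖φ (r' * e)‖ ^ 2) +
      ENNReal.ofReal (2 * L) *
        ∫⁻ τ in Ioo a b, ENNReal.ofReal τ * ENNReal.ofReal (gsq (jet φ (τ * e))) := by
  set E := ∫⁻ τ in Ioo a b, ENNReal.ofReal τ * ENNReal.ofReal (gsq (jet φ (τ * e))) with hE
  have h1 : ENNReal.ofReal (‖φ (r * e) - φ (r' * e)‖ ^ 2) ≤ ENNReal.ofReal L * E := by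
    rcases le_total r r' with h | h
    · have h2 := h6_ray_enn hφ e he r r' a b hr h (ha.trans (min_le_left _ _))
        ((le_max_right _ _).trans hb)
      refine h2.trans (mul_le_mul_left ?_ _)
      exact ENNReal.ofReal_le_ofReal ((le_abs_self _).trans hL)
    · have h2 := h6_ray_enn hφ e he r' r a b hr' h (ha.trans (min_le_right _ _))
        ((le_max_left _ _).trans hb)
      rw [norm_sub_rev]
      refine h2.trans (mul_le_mul_left ?_ _)
      apply ENNReal.ofReal_le_ofReal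
      refine le_trans ?_ hL
      have h3 : Real.log (r / r') = -Real.log (r' / r) := by
        rw [← Real.log_inv, inv_div]
      rw [h3]
      exact neg_le_abs _
  have h3 : ‖φ (r * e)‖ ^ 2 ≤ 2 * ‖φ (r' * e)‖ ^ 2 + 2 * ‖φ (r * e) - φ (r' * e)‖ ^ 2 := by
    have h4 : ‖φ (r * e)‖ ≤ ‖φ (r' * e)‖ + ‖φ (r * e) - φ (r' * e)‖ := by
      have := norm_add_le (φ (r' * e)) (φ (r * e) - φ (r' * e))
      rwa [add_sub_cancel] at this
    have h5 := pow_le_pow_left₀ (norm_nonneg _) h4 2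
    nlinarith [sq_nonneg (‖φ (r' * e)‖ - ‖φ (r * e) - φ (r' * e)‖)]
  have hL0 : 0 ≤ L := (abs_nonneg _).trans hL
  calc ENNReal.ofReal (‖φ (r * e)‖ ^ 2)
      ≤ ENNReal.ofReal (2 * ‖φ (r' * e)‖ ^ 2 + 2 * ‖φ (r * e) - φ (r' * e)‖ ^ 2) :=
        ENNReal.ofReal_le_ofReal h3
    _ = ENNReal.ofReal 2 * ENNReal.ofReal (‖φ (r' * e)‖ ^ 2)
        + ENNReal.ofReal 2 * ENNReal.ofReal (‖φ (r * e) - φ (r' * e)‖ ^ 2) := by
        rw [ENNReal.ofReal_add (by positivity) (by positivity), ENNReal.ofReal_mul (by norm_num),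
          ENNReal.ofReal_mul (by norm_num)]
    _ ≤ _ := by
        rw [ENNReal.ofReal_mul (by norm_num : (0 : ℝ) ≤ 2), mul_assoc]
        gcongr

theorem h6_meas_sq {φ : ℂ → Ev ι} (hφ : IsTest φ) :
    Measurable fun x => ENNReal.ofReal (‖φ x‖ ^ 2) :=
  (hφ.1.continuous.norm.pow 2).measurable.ennreal_ofReal

theorem h6_meas_gsq {φ : ℂ → Ev ι} (hφ : IsTest φ) :
    Measurable fun x => ENNReal.ofReal (gsq (jet φ x)) :=
  (h6_cont_gsq hφ).measurable.ennreal_ofReal

/-- comparison of two annuli for test functions -/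
theorem h6_annuli {φ : ℂ → Ev ι} (hφ : IsTest φ) (a b c d a' b' m : ℝ) (ha : 0 ≤ a)
    (hc : 0 < c) (hcd : c < d) (hab : a ≤ b) (ha'0 : 0 ≤ a') (ha' : a' ≤ a) (ha'' : a' ≤ c)
    (hb' : b ≤ b') (hb'' : d ≤ b')
    (hm : ∀ r ∈ Ioo a b, ∀ r' ∈ Ioo c d, r * |Real.log (r' / r)| ≤ m) :
    ENNReal.ofReal (d - c) * ∫⁻ x in {x : ℂ | a < ‖x‖ ∧ ‖x‖ < b}, ENNReal.ofReal (‖φ x‖ ^ 2) ≤
      ENNReal.ofReal (2 * (b - a) * b / c) *
        (∫⁻ x in {x : ℂ | c < ‖x‖ ∧ ‖x‖ < d}, ENNReal.ofReal (‖φ x‖ ^ 2))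
      + ENNReal.ofReal (2 * (b - a) * (d - c) * m) *
        ∫⁻ x in {x : ℂ | a' < ‖x‖ ∧ ‖x‖ < b'}, ENNReal.ofReal (gsq (jet φ x)) := by
  have hm0 : ∀ r ∈ Ioo a b, 0 ≤ m := by
    intro r hr
    obtain ⟨r', hr'⟩ := exists_between hcd
    exact le_trans (mul_nonneg (ha.trans hr.1.le) (abs_nonneg _)) (hm r hr r' hr')
  have hcd' : 0 ≤ d - c := sub_nonneg.2 hcd.le
  have hab' : 0 ≤ b - a := sub_nonneg.2 hab
  have hb0 : 0 ≤ b := ha.trans hab
  rw [h6_polar _ (h6_meas_sq hφ) a b ha, h6_polar _ (h6_meas_sq hφ) c d hc.le,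
    h6_polar _ (h6_meas_gsq hφ) a' b' ha'0]
  set A : ℝ → ℝ≥0∞ := fun θ => ∫⁻ r in Ioo a b,
    ENNReal.ofReal r * ENNReal.ofReal (‖φ (Complex.polarCoord.symm (r, θ))‖ ^ 2)
  set N : ℝ → ℝ≥0∞ := fun θ => ∫⁻ r in Ioo c d,
    ENNReal.ofReal r * ENNReal.ofReal (‖φ (Complex.polarCoord.symm (r, θ))‖ ^ 2)
  set E : ℝ → ℝ≥0∞ := fun θ => ∫⁻ r in Ioo a' b',
    ENNReal.ofReal r * ENNReal.ofReal (gsq (jet φ (Complex.polarCoord.symm (r, θ))))
  have hmain : ∀ θ, ENNReal.ofReal (d - c) * A θ ≤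
      ENNReal.ofReal (2 * (b - a) * b / c) * N θ
        + ENNReal.ofReal (2 * (b - a) * (d - c) * m) * E θ := by
    intro θ
    set e : ℂ := Real.cos θ + Real.sin θ * Complex.I with he
    have hsymm : ∀ r : ℝ, Complex.polarCoord.symm (r, θ) = r * e := by
      intro r
      rw [Complex.polarCoord_symm_apply]
    have hen : ‖e‖ = 1 := by
      have h1 := Complex.norm_polarCoord_symm (1, θ)
      rw [hsymm] at h1
      simpa using h1
    have hAθ : A θ = ∫⁻ r in Ioo a b, ENNReal.ofReal r * ENNReal.ofReal (‖φ (r * e)‖ ^ 2) := by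
      simp only [A, hsymm]
    have hNθ : N θ = ∫⁻ r in Ioo c d, ENNReal.ofReal r * ENNReal.ofReal (‖φ (r * e)‖ ^ 2) := by
      simp only [N, hsymm]
    have hEθ : E θ = ∫⁻ r in Ioo a' b',
        ENNReal.ofReal r * ENNReal.ofReal (gsq (jet φ (r * e))) := by
      simp only [E, hsymm]
    by_cases hne : (Ioo a b).Nonempty
    swap
    · rw [Set.not_nonempty_iff_eq_empty] at hne
      rw [hAθ, hne]
      simp
    obtain ⟨r0, hr0⟩ := hne
    have hm1 : 0 ≤ m := hm0 r0 hr0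
    have h1 := h6_avg (fun r => ENNReal.ofReal r * ENNReal.ofReal (‖φ (r * e)‖ ^ 2))
      (fun r' => ENNReal.ofReal (2 * b) * ENNReal.ofReal (‖φ (r' * e)‖ ^ 2))
      (ENNReal.ofReal (2 * m) * E θ) a b c d (by
        intro r hr r' hr'
        have hr0 : 0 < r := lt_of_le_of_lt ha hr.1
        have hr'0 : 0 < r' := hc.trans hr'.1
        have h2 := h6_point hφ e hen r r' a' b' _ hr0 hr'0
          (le_min (ha'.trans hr.1.le) (ha''.trans hr'.1.le))
          (max_le (hr.2.le.trans hb') (hr'.2.le.trans hb'')) le_rfl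
        rw [← hEθ] at h2
        calc ENNReal.ofReal r * ENNReal.ofReal (‖φ (r * e)‖ ^ 2)
            ≤ ENNReal.ofReal r * (ENNReal.ofReal 2 * ENNReal.ofReal (‖φ (r' * e)‖ ^ 2) +
              ENNReal.ofReal (2 * |Real.log (r' / r)|) * E θ) := by gcongr
          _ = ENNReal.ofReal (r * 2) * ENNReal.ofReal (‖φ (r' * e)‖ ^ 2) +
              ENNReal.ofReal (r * (2 * |Real.log (r' / r)|)) * E θ := by
              rw [ENNReal.ofReal_mul hr0.le, ENNReal.ofReal_mul hr0.le]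
              ring
          _ ≤ _ := by
              have h3 : r * 2 ≤ 2 * b := by nlinarith [hr.2]
              have h4 : r * (2 * |Real.log (r' / r)|) ≤ 2 * m := by nlinarith [hm r hr r' hr']
              gcongr)
    rw [← hAθ] at h1
    refine h1.trans (add_le_add ?_ (le_of_eq ?_))
    · have h2 : ∫⁻ r' in Ioo c d, ENNReal.ofReal (2 * b) * ENNReal.ofReal (‖φ (r' * e)‖ ^ 2)
          ≤ ENNReal.ofReal (2 * b / c) * N θ := by
        rw [hNθ, ← lintegral_const_mul' _ _ ENNReal.ofReal_ne_top]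
        refine setLIntegral_mono' measurableSet_Ioo fun r' hr' => ?_
        rw [← mul_assoc, ← ENNReal.ofReal_mul (p := 2 * b / c) (by positivity)]
        have h3 : 2 * b ≤ 2 * b / c * r' := by
          rw [div_mul_eq_mul_div, le_div_iff₀ hc]
          exact mul_le_mul_of_nonneg_left hr'.1.le (by positivity)
        exact mul_le_mul_left (ENNReal.ofReal_le_ofReal h3) _
      refine (mul_le_mul_right h2 _).trans (le_of_eq ?_)
      rw [← mul_assoc, ← ENNReal.ofReal_mul hab']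
      congr 2
      ring
    · rw [← mul_assoc, ← mul_assoc, ← ENNReal.ofReal_mul hab',
        ← ENNReal.ofReal_mul (mul_nonneg hab' hcd')]
      congr 2
      ring
  rw [← lintegral_const_mul' _ _ ENNReal.ofReal_ne_top]
  refine (lintegral_mono hmain).trans ?_
  rw [← lintegral_const_mul' _ _ ENNReal.ofReal_ne_top,
    ← lintegral_const_mul' _ _ ENNReal.ofReal_ne_top]
  rw [lintegral_add_left']
  refine AEMeasurable.const_mul (Measurable.aemeasurable ?_) _
  have hsymm : Measurable fun p : ℝ × ℝ => Complex.polarCoord.symm p := by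
    simp only [Complex.polarCoord_symm_apply]
    fun_prop
  have h5 : Measurable fun p : ℝ × ℝ => ENNReal.ofReal p.2 *
      ENNReal.ofReal (‖φ (Complex.polarCoord.symm (p.2, p.1))‖ ^ 2) :=
    (measurable_snd.ennreal_ofReal).mul
      ((h6_meas_sq hφ).comp (hsymm.comp (measurable_snd.prodMk measurable_fst)))
  exact h5.lintegral_prod_right'

omit [DecidableEq ι] in
theorem h6_gsq_split (u v : Ev ι × Ev ι × Ev ι) : gsq v ≤ 2 * gsq u + 2 * gsq (u - v) := by
  have h : ∀ x y : Ev ι, ‖y‖ ^ 2 ≤ 2 * ‖x‖ ^ 2 + 2 * ‖x - y‖ ^ 2 := by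
    intro x y
    have h1 : ‖y‖ ≤ ‖x‖ + ‖x - y‖ := by
      have := norm_sub_le x (x - y)
      rwa [sub_sub_cancel] at this
    have h2 := pow_le_pow_left₀ (norm_nonneg _) h1 2
    nlinarith [sq_nonneg (‖x‖ - ‖x - y‖)]
  have h1 := h u.2.1 v.2.1
  have h2 := h u.2.2 v.2.2
  unfold gsq
  simp only [Prod.snd_sub, Prod.fst_sub]
  linarith

/-- passing to the limit in an inequality for test functions -/
theorem h6_transfer {U : Fld ι} (hU : IsSob U) (S0 S1 S2 : Set ℂ) (hS2m : MeasurableSet S2) (R : ℝ)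
    (hS2 : S2 ⊆ Metric.ball 0 R) (K1 K2 : ℝ≥0∞) (hK1 : K1 ≠ ⊤) (hK2 : K2 ≠ ⊤)
    (H : ∀ φ : ℂ → Ev ι, IsTest φ → ∫⁻ x in S0, ENNReal.ofReal (‖φ x‖ ^ 2) ≤
      K2 * (∫⁻ x in S2, ENNReal.ofReal (‖φ x‖ ^ 2))
        + K1 * ∫⁻ x in S1, ENNReal.ofReal (gsq (jet φ x))) :
    ∫⁻ x in S0, ENNReal.ofReal (‖(U x).1‖ ^ 2) ≤
      K2 * (2 * (∫⁻ x in S2, ENNReal.ofReal (‖(U x).1‖ ^ 2)))
        + K1 * (2 * ∫⁻ x in S1, ENNReal.ofReal (gsq (U x))) := by
  obtain ⟨φ, hφ, hEn, hae⟩ := hU.exists_seq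
  set δ : ℕ → ℝ≥0∞ := fun n => ∫⁻ x, ENNReal.ofReal (nsq x ((U - jet (φ n)) x)) with hδ
  have hnsq0 : ∀ (z : ℂ) (u : Ev ι × Ev ι × Ev ι), 0 ≤ nsq z u := by
    intro z u
    unfold nsq
    have := (wt_pos z).le
    have := h6_gsq_nonneg u
    positivity
  have hδ0 : Tendsto δ atTop (𝓝 0) := by
    have h1 : δ = fun n => ENNReal.ofReal (En (U - jet (φ n))) := by
      funext n
      have h2 : IsSob (U - jet (φ n)) := hU.sub (isSob_jet (hφ n))
      exact (ofReal_integral_eq_lintegral_ofReal h2.integrable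
        (Eventually.of_forall fun x => hnsq0 _ _)).symm
    rw [h1]
    have := ENNReal.tendsto_ofReal hEn
    rwa [ENNReal.ofReal_zero] at this
  -- Fatou
  have hfatou : ∫⁻ x in S0, ENNReal.ofReal (‖(U x).1‖ ^ 2) ≤
      liminf (fun n => ∫⁻ x in S0, ENNReal.ofReal (‖φ n x‖ ^ 2)) atTop := by
    refine le_trans (le_of_eq ?_) (lintegral_liminf_le fun n => h6_meas_sq (hφ n))
    refine lintegral_congr_ae ?_
    filter_upwards [ae_restrict_of_ae hae] with x hx
    have h1 : Tendsto (fun n => φ n x) atTop (𝓝 (U x).1) :=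
      (continuous_fst.tendsto _).comp hx
    have h2 : Tendsto (fun n => ENNReal.ofReal (‖φ n x‖ ^ 2)) atTop
        (𝓝 (ENNReal.ofReal (‖(U x).1‖ ^ 2))) :=
      ENNReal.tendsto_ofReal ((h1.norm).pow 2)
    exact h2.liminf_eq.symm
  set I1 := ∫⁻ x in S1, ENNReal.ofReal (gsq (U x)) with hI1
  set I2 := ∫⁻ x in S2, ENNReal.ofReal (‖(U x).1‖ ^ 2) with hI2
  set c : ℝ := (1 + R ^ 2) ^ 2 with hc
  have hUm : AEMeasurable (fun x => ENNReal.ofReal (‖(U x).1‖ ^ 2)) volume :=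
    (hU.1.fst.norm.pow 2).aemeasurable.ennreal_ofReal
  have hGm : AEMeasurable (fun x => ENNReal.ofReal (gsq (U x))) volume := by
    have : AEStronglyMeasurable (fun x => gsq (U x)) volume :=
      (hU.1.snd.fst.norm.pow 2).add (hU.1.snd.snd.norm.pow 2)
    exact this.aemeasurable.ennreal_ofReal
  have hb2 : ∀ n, ∫⁻ x in S2, ENNReal.ofReal (‖φ n x‖ ^ 2) ≤
      2 * I2 + ENNReal.ofReal (2 * c) * δ n := by
    intro n
    have h1 : ∀ x ∈ S2, ENNReal.ofReal (‖φ n x‖ ^ 2) ≤ 2 * ENNReal.ofReal (‖(U x).1‖ ^ 2)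
        + ENNReal.ofReal (2 * c) * ENNReal.ofReal (nsq x ((U - jet (φ n)) x)) := by
      intro x hx
      have hxR : ‖x‖ < R := by simpa using hS2 hx
      have h2 : ‖φ n x‖ ^ 2 ≤ 2 * ‖(U x).1‖ ^ 2 + 2 * ‖(U x).1 - φ n x‖ ^ 2 := by
        have h3 : ‖φ n x‖ ≤ ‖(U x).1‖ + ‖(U x).1 - φ n x‖ := by
          have := norm_sub_le (U x).1 ((U x).1 - φ n x)
          rwa [sub_sub_cancel] at this
        have h4 := pow_le_pow_left₀ (norm_nonneg _) h3 2
        nlinarith [sq_nonneg (‖(U x).1‖ - ‖(U x).1 - φ n x‖)]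
      have h5 : ‖(U x).1 - φ n x‖ ^ 2 ≤ c * nsq x ((U - jet (φ n)) x) := by
        have h6 : nsq x ((U - jet (φ n)) x) = wt x * ‖(U x).1 - φ n x‖ ^ 2
          + gsq ((U - jet (φ n)) x) := rfl
        rw [h6]
        have h7 : 1 ≤ c * wt x := by
          rw [hc, wt, ← div_eq_mul_inv, le_div_iff₀ (by positivity), one_mul]
          have : ‖x‖ ^ 2 ≤ R ^ 2 := by
            exact pow_le_pow_left₀ (norm_nonneg _) hxR.le 2
          gcongr
        have h8 := h6_gsq_nonneg ((U - jet (φ n)) x)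
        have h9 : 0 ≤ c := by positivity
        nlinarith [sq_nonneg ‖(U x).1 - φ n x‖, mul_nonneg h9 h8]
      calc ENNReal.ofReal (‖φ n x‖ ^ 2)
          ≤ ENNReal.ofReal (2 * ‖(U x).1‖ ^ 2 + 2 * c * nsq x ((U - jet (φ n)) x)) := by
            apply ENNReal.ofReal_le_ofReal
            nlinarith
        _ = _ := by
            rw [ENNReal.ofReal_add (by positivity)
              (mul_nonneg (by positivity) (hnsq0 _ _)), ENNReal.ofReal_mul (by norm_num),
              ENNReal.ofReal_mul (by positivity)]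
            norm_num
    refine (setLIntegral_mono_ae' hS2m (Eventually.of_forall h1)).trans ?_
    rw [lintegral_add_left' ((hUm.restrict).const_mul 2), lintegral_const_mul' _ _ (by norm_num),
      lintegral_const_mul' _ _ ENNReal.ofReal_ne_top]
    gcongr
    exact setLIntegral_le_lintegral _ _
  have hb1 : ∀ n, ∫⁻ x in S1, ENNReal.ofReal (gsq (jet (φ n) x)) ≤ 2 * I1 + 2 * δ n := by
    intro n
    have h1 : ∀ x, ENNReal.ofReal (gsq (jet (φ n) x)) ≤ 2 * ENNReal.ofReal (gsq (U x))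
        + 2 * ENNReal.ofReal (nsq x ((U - jet (φ n)) x)) := by
      intro x
      have h2 := h6_gsq_split (U x) (jet (φ n) x)
      have h3 : gsq (U x - jet (φ n) x) ≤ nsq x ((U - jet (φ n)) x) := by
        have h4 : nsq x ((U - jet (φ n)) x) = wt x * ‖(U x - jet (φ n) x).1‖ ^ 2
          + gsq (U x - jet (φ n) x) := rfl
        rw [h4]
        have := (wt_pos x).le
        nlinarith [mul_nonneg this (sq_nonneg ‖(U x - jet (φ n) x).1‖)]
      calc ENNReal.ofReal (gsq (jet (φ n) x))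
          ≤ ENNReal.ofReal (2 * gsq (U x) + 2 * nsq x ((U - jet (φ n)) x)) := by
            apply ENNReal.ofReal_le_ofReal
            linarith
        _ = _ := by
            rw [ENNReal.ofReal_add (mul_nonneg (by norm_num) (h6_gsq_nonneg _))
              (mul_nonneg (by norm_num) (hnsq0 _ _)), ENNReal.ofReal_mul (by norm_num),
              ENNReal.ofReal_mul (by norm_num)]
            norm_num
    refine (lintegral_mono h1).trans ?_
    rw [lintegral_add_left' ((hGm.restrict).const_mul 2), lintegral_const_mul' _ _ (by norm_num),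
      lintegral_const_mul' _ _ (by norm_num)]
    gcongr
    exact setLIntegral_le_lintegral _ _
  set B := K2 * (2 * I2) + K1 * (2 * I1) with hB
  set D := K2 * ENNReal.ofReal (2 * c) + K1 * 2 with hD
  have hDtop : D ≠ ⊤ :=
    ENNReal.add_ne_top.2 ⟨ENNReal.mul_ne_top hK2 ENNReal.ofReal_ne_top,
      ENNReal.mul_ne_top hK1 (by norm_num)⟩
  have hbound : ∀ n, ∫⁻ x in S0, ENNReal.ofReal (‖φ n x‖ ^ 2) ≤ B + D * δ n := by
    intro n
    refine (H (φ n) (hφ n)).trans ?_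
    calc K2 * (∫⁻ x in S2, ENNReal.ofReal (‖φ n x‖ ^ 2))
          + K1 * ∫⁻ x in S1, ENNReal.ofReal (gsq (jet (φ n) x))
        ≤ K2 * (2 * I2 + ENNReal.ofReal (2 * c) * δ n) + K1 * (2 * I1 + 2 * δ n) := by
          gcongr
          · exact hb2 n
          · exact hb1 n
      _ = B + D * δ n := by rw [hB, hD]; ring
  have hlim : Tendsto (fun n => B + D * δ n) atTop (𝓝 B) := by
    have h1 : Tendsto (fun n => D * δ n) atTop (𝓝 (D * 0)) :=
      ENNReal.Tendsto.const_mul hδ0 (Or.inr hDtop)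
    rw [mul_zero] at h1
    have h2 := (tendsto_const_nhds (x := B)).add h1
    rwa [add_zero] at h2
  refine hfatou.trans ?_
  rw [← hlim.liminf_eq]
  exact liminf_le_liminf (Eventually.of_forall hbound)

theorem h6_log_r (r : ℝ) (hr : 0 < r) : -(r * Real.log r) ≤ 1 := by
  have h1 := Real.log_le_sub_one_of_pos (inv_pos.2 hr)
  rw [Real.log_inv] at h1
  have h2 : r * (-Real.log r) ≤ r * (r⁻¹ - 1) := mul_le_mul_of_nonneg_left h1 hr.le
  have h3 : r * (r⁻¹ - 1) = 1 - r := by field_simp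
  rw [h3] at h2
  linarith

theorem h6_toReal {f : ℂ → ℝ} (S : Set ℂ) (hf : IntegrableOn f S) (h0 : ∀ x, 0 ≤ f x) :
    ENNReal.ofReal (∫ x in S, f x) = ∫⁻ x in S, ENNReal.ofReal (f x) :=
  ofReal_integral_eq_lintegral_ofReal hf (Eventually.of_forall h0)

theorem h6_mm (a b : ℝ) (ha : 0 ≤ a) (X : ℝ≥0∞) :
    ENNReal.ofReal a * (ENNReal.ofReal b * X) = ENNReal.ofReal (a * b) * X := by
  rw [← mul_assoc, ← ENNReal.ofReal_mul ha]

theorem h6_fin (I a b x y : ℝ) (ha : 0 ≤ a) (hb : 0 ≤ b) (hx : 0 ≤ x) (hy : 0 ≤ y)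
    (h : ENNReal.ofReal I ≤ ENNReal.ofReal a * (2 * ENNReal.ofReal x)
      + ENNReal.ofReal b * (2 * ENNReal.ofReal y)) : I ≤ a * (2 * x) + b * (2 * y) := by
  have e2 : (2 : ℝ≥0∞) = ENNReal.ofReal 2 := by norm_num
  have e3 : ∀ c z : ℝ, 0 ≤ c → ENNReal.ofReal c * (2 * ENNReal.ofReal z)
      = ENNReal.ofReal (c * (2 * z)) := by
    intro c z hc
    rw [e2, ← ENNReal.ofReal_mul (p := 2) (by norm_num), ← ENNReal.ofReal_mul hc]
  rw [e3 a x ha, e3 b y hb, ← ENNReal.ofReal_add (by positivity) (by positivity),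
    ENNReal.ofReal_le_ofReal_iff (by positivity)] at h
  exact h

/-! ### H6 logarithmic comparison -/
theorem log_in (Rv : ℝ) (hRv : 0 < Rv) : ∃ C : ℝ, ∀ R₀ : ℝ, Rv ≤ R₀ → 1 ≤ R₀ → ∀ U : Fld ι, IsSob U →
    ∫ x in {x : ℂ | ‖x‖ < Rv}, ‖(U x).1‖ ^ 2 ≤ C * (1 + Real.log R₀) *
      ((∫ x in {x : ℂ | ‖x‖ < R₀ + 1}, gsq (U x))
        + ∫ x in {x : ℂ | R₀ < ‖x‖ ∧ ‖x‖ < R₀ + 1}, ‖(U x).1‖ ^ 2) := by
  refine ⟨4 * Rv ^ 2 + 4 * Rv, fun R₀ hR1 hR2 U hU => ?_⟩
  have hlogR : 0 ≤ Real.log R₀ := Real.log_nonneg hR2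
  have hlog1 : Real.log (R₀ + 1) ≤ 1 + Real.log R₀ := by
    have h1 : Real.log (R₀ + 1) ≤ Real.log (2 * R₀) :=
      Real.log_le_log (by positivity) (by linarith)
    rw [Real.log_mul (by norm_num) (by positivity)] at h1
    have := Real.log_two_lt_d9
    linarith
  have hlog1' : 0 ≤ Real.log (R₀ + 1) := Real.log_nonneg (by linarith)
  set m := Rv * Real.log (R₀ + 1) + 1 with hm
  have hm0 : 0 ≤ m := by positivity
  have hRpos : 0 < R₀ := by linarith
  have hS0 : {x : ℂ | ‖x‖ < Rv} =ᵐ[volume] {x : ℂ | 0 < ‖x‖ ∧ ‖x‖ < Rv} := by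
    have h0 : ({0} : Set ℂ)ᶜ ∈ ae (volume : Measure ℂ) := compl_mem_ae_iff.2 (measure_singleton 0)
    filter_upwards [h0] with x hx
    have hx0 : 0 < ‖x‖ := norm_pos_iff.2 hx
    exact propext ⟨fun h => ⟨hx0, h⟩, fun h => h.2⟩
  have key := h6_transfer hU {x : ℂ | 0 < ‖x‖ ∧ ‖x‖ < Rv} {x : ℂ | ‖x‖ < R₀ + 1}
    {x : ℂ | R₀ < ‖x‖ ∧ ‖x‖ < R₀ + 1}
    ((measurableSet_lt measurable_const measurable_norm).inter
      (measurableSet_lt measurable_norm measurable_const)) (R₀ + 1)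
    (fun x hx => by simpa using hx.2) (ENNReal.ofReal (2 * Rv * m)) (ENNReal.ofReal (2 * Rv ^ 2))
    ENNReal.ofReal_ne_top ENNReal.ofReal_ne_top (fun φ hφ => by
      have h1 := h6_annuli hφ 0 Rv R₀ (R₀ + 1) 0 (R₀ + 1) m le_rfl hRpos (by linarith) hRv.le le_rfl
        le_rfl hRpos.le (by linarith) le_rfl (by
          intro r hr r' hr'
          have hr0 : 0 < r := hr.1
          have hr'0 : 0 < r' := hRpos.trans hr'.1
          have h2 : r ≤ r' := hr.2.le.trans (hR1.trans hr'.1.le)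
          have h3 : 0 ≤ Real.log (r' / r) := by
            apply Real.log_nonneg
            rw [le_div_iff₀ hr0, one_mul]
            exact h2
          rw [abs_of_nonneg h3, Real.log_div hr'0.ne' hr0.ne']
          have h4 : 0 ≤ Real.log r' := Real.log_nonneg (hR2.trans hr'.1.le)
          have h5 : Real.log r' ≤ Real.log (R₀ + 1) := Real.log_le_log hr'0 hr'.2.le
          have h6 := h6_log_r r hr0
          have h7 : r * Real.log r' ≤ Rv * Real.log (R₀ + 1) :=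
            mul_le_mul hr.2.le h5 h4 hRv.le
          rw [hm]
          linarith [mul_sub r (Real.log r') (Real.log r)])
      have h2 : (R₀ + 1) - R₀ = 1 := by ring
      rw [h2, ENNReal.ofReal_one, one_mul, sub_zero, mul_one] at h1
      refine h1.trans (add_le_add ?_ ?_)
      · refine mul_le_mul_left (ENNReal.ofReal_le_ofReal ?_) _
        rw [div_le_iff₀ hRpos]
        nlinarith [mul_pos hRv hRv]
      · refine mul_le_mul_right (lintegral_mono_set fun x hx => hx.2) _)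
  have hi1 : IntegrableOn (fun x => ‖(U x).1‖ ^ 2) {x : ℂ | ‖x‖ < Rv} :=
    (hU.integrableOn_sq Rv).mono_set fun x hx => by simpa using hx
  have hi2 : IntegrableOn (fun x => ‖(U x).1‖ ^ 2) {x : ℂ | R₀ < ‖x‖ ∧ ‖x‖ < R₀ + 1} :=
    (hU.integrableOn_sq (R₀ + 1)).mono_set fun x hx => by simpa using hx.2
  have hi3 : IntegrableOn (fun x => gsq (U x)) {x : ℂ | ‖x‖ < R₀ + 1} :=
    hU.integrable_gsq.integrableOn
  rw [← setLIntegral_congr hS0, ← h6_toReal _ hi1 (fun x => by positivity),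
    ← h6_toReal _ hi2 (fun x => by positivity), ← h6_toReal _ hi3 (fun x => h6_gsq_nonneg _)] at key
  set I0 := ∫ x in {x : ℂ | ‖x‖ < Rv}, ‖(U x).1‖ ^ 2
  set I2 := ∫ x in {x : ℂ | R₀ < ‖x‖ ∧ ‖x‖ < R₀ + 1}, ‖(U x).1‖ ^ 2 with hI2
  set I1 := ∫ x in {x : ℂ | ‖x‖ < R₀ + 1}, gsq (U x) with hI1
  have h20 : 0 ≤ I2 := integral_nonneg fun x => by positivity
  have h10 : 0 ≤ I1 := integral_nonneg fun x => h6_gsq_nonneg _
  refine (h6_fin _ _ _ _ _ (by positivity) (by positivity) h20 h10 key).trans ?_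
  have h3 : 4 * Rv ^ 2 * I2 ≤ (4 * Rv ^ 2 + 4 * Rv) * (1 + Real.log R₀) * I2 := by
    apply mul_le_mul_of_nonneg_right _ h20
    nlinarith [mul_nonneg (by positivity : 0 ≤ 4 * Rv ^ 2 + 4 * Rv) hlogR]
  have h4 : 4 * Rv * m * I1 ≤ (4 * Rv ^ 2 + 4 * Rv) * (1 + Real.log R₀) * I1 := by
    apply mul_le_mul_of_nonneg_right _ h10
    have h5 : m ≤ (Rv + 1) * (1 + Real.log R₀) := by
      rw [hm]
      nlinarith [mul_le_mul_of_nonneg_left hlog1 hRv.le]
    calc 4 * Rv * m ≤ 4 * Rv * ((Rv + 1) * (1 + Real.log R₀)) := by gcongr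
      _ = _ := by ring
  nlinarith

theorem log_out : ∃ C : ℝ, ∀ ρ r : ℝ, 1 ≤ ρ → 4 * ρ ≤ r → ∀ U : Fld ι, IsSob U →
    ∫ x in {x : ℂ | r / 2 < ‖x‖ ∧ ‖x‖ < 2 * r}, ‖(U x).1‖ ^ 2 ≤ C * r ^ 2 * (1 + Real.log (r / ρ)) *
      ((∫ x in {x : ℂ | ρ < ‖x‖}, gsq (U x))
        + (ρ ^ 2)⁻¹ * ∫ x in {x : ℂ | ρ < ‖x‖ ∧ ‖x‖ < 2 * ρ}, ‖(U x).1‖ ^ 2) := by
  refine ⟨12, fun ρ r hρ hr U hU => ?_⟩
  have hρ0 : 0 < ρ := by linarith
  have hr0 : 0 < r := by linarith
  have hlr : 0 ≤ Real.log (r / ρ) := by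
    apply Real.log_nonneg
    rw [le_div_iff₀ hρ0]
    linarith
  set l := 1 + Real.log (r / ρ) with hl
  have hl1 : 1 ≤ l := by linarith
  set m := 2 * r * l with hm
  have hm0 : 0 ≤ m := by positivity
  have key := h6_transfer hU {x : ℂ | r / 2 < ‖x‖ ∧ ‖x‖ < 2 * r} {x : ℂ | ρ < ‖x‖}
    {x : ℂ | ρ < ‖x‖ ∧ ‖x‖ < 2 * ρ}
    ((measurableSet_lt measurable_const measurable_norm).inter
      (measurableSet_lt measurable_norm measurable_const)) (2 * ρ)
    (fun x hx => by simpa using hx.2) (ENNReal.ofReal (6 * r ^ 2 * l))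
    (ENNReal.ofReal (6 * r ^ 2 * (ρ ^ 2)⁻¹))
    ENNReal.ofReal_ne_top ENNReal.ofReal_ne_top (fun φ hφ => by
      have h1 := h6_annuli hφ (r / 2) (2 * r) ρ (2 * ρ) ρ (2 * r) m (by positivity) hρ0
        (by linarith) (by linarith) hρ0.le (by linarith) le_rfl le_rfl (by linarith) (by
          intro s hs s' hs'
          have hs0 : 0 < s := lt_trans (by positivity) hs.1
          have hs'0 : 0 < s' := hρ0.trans hs'.1
          have h2 : s' ≤ s := by linarith [hs.1, hs'.2]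
          have h3 : Real.log (s' / s) ≤ 0 := by
            apply Real.log_nonpos (by positivity)
            rw [div_le_one hs0]
            exact h2
          have h4 : -Real.log (s' / s) ≤ l := by
            rw [← Real.log_inv, inv_div]
            have h5 : s / s' ≤ 2 * (r / ρ) := by
              rw [← mul_div_assoc]
              exact div_le_div₀ (by positivity) hs.2.le hρ0 hs'.1.le
            have h6 := Real.log_le_log (by positivity) h5
            rw [Real.log_mul (by norm_num) (by positivity)] at h6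
            have := Real.log_two_lt_d9
            linarith
          rw [abs_of_nonpos h3, hm]
          exact mul_le_mul hs.2.le h4 (by linarith) (by positivity))
      have h2 : 2 * ρ - ρ = ρ := by ring
      rw [h2] at h1
      have h3 : ∫⁻ x in {x : ℂ | r / 2 < ‖x‖ ∧ ‖x‖ < 2 * r}, ENNReal.ofReal (‖φ x‖ ^ 2) =
          ENNReal.ofReal ρ⁻¹ * (ENNReal.ofReal ρ *
            ∫⁻ x in {x : ℂ | r / 2 < ‖x‖ ∧ ‖x‖ < 2 * r}, ENNReal.ofReal (‖φ x‖ ^ 2)) := by
        rw [h6_mm _ _ (by positivity), inv_mul_cancel₀ hρ0.ne', ENNReal.ofReal_one, one_mul]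
      rw [h3]
      refine (mul_le_mul_right h1 _).trans ?_
      rw [mul_add, h6_mm _ _ (by positivity), h6_mm _ _ (by positivity)]
      refine add_le_add (le_of_eq ?_) ?_
      · congr 2
        field_simp
        ring
      · have h4 : ρ⁻¹ * (2 * (2 * r - r / 2) * ρ * m) = 6 * r ^ 2 * l := by
          rw [hm]
          field_simp
          ring
        rw [h4]
        exact mul_le_mul_right (lintegral_mono_set fun x hx => hx.1) _)
  have hi1 : IntegrableOn (fun x => ‖(U x).1‖ ^ 2) {x : ℂ | r / 2 < ‖x‖ ∧ ‖x‖ < 2 * r} :=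
    (hU.integrableOn_sq (2 * r)).mono_set fun x hx => by simpa using hx.2
  have hi2 : IntegrableOn (fun x => ‖(U x).1‖ ^ 2) {x : ℂ | ρ < ‖x‖ ∧ ‖x‖ < 2 * ρ} :=
    (hU.integrableOn_sq (2 * ρ)).mono_set fun x hx => by simpa using hx.2
  have hi3 : IntegrableOn (fun x => gsq (U x)) {x : ℂ | ρ < ‖x‖} :=
    hU.integrable_gsq.integrableOn
  rw [← h6_toReal _ hi1 (fun x => by positivity),
    ← h6_toReal _ hi2 (fun x => by positivity), ← h6_toReal _ hi3 (fun x => h6_gsq_nonneg _)] at key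
  set I0 := ∫ x in {x : ℂ | r / 2 < ‖x‖ ∧ ‖x‖ < 2 * r}, ‖(U x).1‖ ^ 2
  set I2 := ∫ x in {x : ℂ | ρ < ‖x‖ ∧ ‖x‖ < 2 * ρ}, ‖(U x).1‖ ^ 2 with hI2
  set I1 := ∫ x in {x : ℂ | ρ < ‖x‖}, gsq (U x) with hI1
  have h20 : 0 ≤ I2 := integral_nonneg fun x => by positivity
  have h10 : 0 ≤ I1 := integral_nonneg fun x => h6_gsq_nonneg _
  refine (h6_fin _ _ _ _ _ (by positivity) (by positivity) h20 h10 key).trans ?_
  have h3 : 0 ≤ 12 * r ^ 2 * (ρ ^ 2)⁻¹ * I2 := by positivity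
  have h4 : 12 * r ^ 2 * (ρ ^ 2)⁻¹ * I2 ≤ 12 * r ^ 2 * (ρ ^ 2)⁻¹ * I2 * l :=
    le_mul_of_one_le_right h3 hl1
  nlinarith

end Pool.MP_ad5d82_an.Wl
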