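import Pool.Agent.Lib.MP_ad5d82_an.h24.HDefs
import Pool.Agent.Lib.MP_ad5d82_an.h24.H.H1

set_option autoImplicit false

namespace Pool.MP_ad5d82_an.Wl

open Real Set MeasureTheory Filter Topology
open scoped ContDiff ENNReal

variable {ι : Type} [Fintype ι] [DecidableEq ι]

omit [DecidableEq ι] in
/-- the directional derivative is bounded by the gradient -/
theorem h7_dir (φ : ℂ → Ev ι) (z h : ℂ) :
    ‖fderiv ℝ φ z h‖ ^ 2 ≤ ‖h‖ ^ 2 * gsq (jet φ z) := by
  have h1 : fderiv ℝ φ z h = h.re • fderiv ℝ φ z 1 + h.im • fderiv ℝ φ z Complex.I := by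
    rw [← map_smul, ← map_smul, ← map_add]
    congr 1
    apply Complex.ext <;> simp
  have h2 : ‖fderiv ℝ φ z h‖ ≤ |h.re| * ‖fderiv ℝ φ z 1‖ + |h.im| * ‖fderiv ℝ φ z Complex.I‖ := by
    rw [h1]
    refine (norm_add_le _ _).trans ?_
    rw [norm_smul, norm_smul, Real.norm_eq_abs, Real.norm_eq_abs]
  have h3 : ‖h‖ ^ 2 = |h.re| ^ 2 + |h.im| ^ 2 := by
    rw [sq_abs, sq_abs, ← Complex.normSq_eq_norm_sq, Complex.normSq_apply]
    ring
  rw [h3]
  change _ ≤ _ * (‖fderiv ℝ φ z 1‖ ^ 2 + ‖fderiv ℝ φ z Complex.I‖ ^ 2)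
  have h4 : 0 ≤ ‖fderiv ℝ φ z h‖ := norm_nonneg _
  refine (pow_le_pow_left₀ h4 h2 2).trans ?_
  nlinarith [sq_nonneg (|h.re| * ‖fderiv ℝ φ z Complex.I‖ - |h.im| * ‖fderiv ℝ φ z 1‖)]

omit [DecidableEq ι] in
theorem h7_gsq_nonneg (u : Ev ι × Ev ι × Ev ι) : 0 ≤ gsq u := by
  unfold gsq; positivity

omit [DecidableEq ι] in
theorem h7_cont_gsq {φ : ℂ → Ev ι} (hφ : IsTest φ) : Continuous fun z => gsq (jet φ z) := by
  have h1 : Continuous fun z => fderiv ℝ φ z := hφ.1.continuous_fderiv (by simp)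
  unfold gsq jet
  simp only
  exact (((h1.clm_apply continuous_const).norm.pow 2).add
    ((h1.clm_apply continuous_const).norm.pow 2))

omit [DecidableEq ι] in
theorem h7_point {φ : ℂ → Ev ι} (hφ : IsTest φ) (x h : ℂ) :
    ‖φ (x + h) - φ x‖ ^ 2 ≤ ‖h‖ ^ 2 * ∫ t in (0 : ℝ)..1, gsq (jet φ (x + t * h)) := by
  have hφd : Differentiable ℝ φ := hφ.1.differentiable (by simp)
  have hcf : Continuous fun z => fderiv ℝ φ z := hφ.1.continuous_fderiv (by simp)
  have hce : Continuous fun τ : ℝ => x + (τ : ℂ) * h := by fun_prop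
  have hder : ∀ τ : ℝ, HasDerivAt (fun τ : ℝ => φ (x + τ * h)) (fderiv ℝ φ (x + τ * h) h) τ := by
    intro τ
    have h1 : HasDerivAt (fun τ : ℝ => x + (τ : ℂ) * h) h τ := by
      have := ((Complex.ofRealCLM.hasDerivAt (x := τ)).mul_const h).const_add x
      simpa using this
    exact (hφd _).hasFDerivAt.comp_hasDerivAt τ h1
  have hcd : Continuous fun τ : ℝ => fderiv ℝ φ (x + τ * h) h :=
    (hcf.comp hce).clm_apply continuous_const
  have hcg : Continuous fun τ : ℝ => gsq (jet φ (x + τ * h)) := (h7_cont_gsq hφ).comp hce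
  have hftc : φ (x + h) - φ x = ∫ τ in (0 : ℝ)..1, fderiv ℝ φ (x + τ * h) h := by
    have := (intervalIntegral.integral_eq_sub_of_hasDerivAt (a := 0) (b := 1) (fun τ _ => hder τ)
      (hcd.intervalIntegrable _ _)).symm
    simpa using this
  set N : ℝ → ℝ := fun τ => ‖fderiv ℝ φ (x + τ * h) h‖ with hN
  have hNc : Continuous N := hcd.norm
  set c := ∫ τ in (0 : ℝ)..1, N τ with hc
  have h1 : ‖φ (x + h) - φ x‖ ≤ c := by
    rw [hftc]
    exact intervalIntegral.norm_integral_le_integral_norm zero_le_one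
  have h2 : c ^ 2 ≤ ∫ τ in (0 : ℝ)..1, N τ ^ 2 := by
    have h3 : 0 ≤ ∫ τ in (0 : ℝ)..1, (N τ - c) ^ 2 :=
      intervalIntegral.integral_nonneg zero_le_one fun τ _ => sq_nonneg _
    have h4 : ∫ τ in (0 : ℝ)..1, (N τ - c) ^ 2 = (∫ τ in (0 : ℝ)..1, N τ ^ 2) - c ^ 2 := by
      have h5 : ∀ τ, (N τ - c) ^ 2 = N τ ^ 2 - (2 * c * N τ - c ^ 2) := fun τ => by ring
      simp only [h5]
      have i1 : IntervalIntegrable (fun τ => N τ ^ 2) volume 0 1 :=
        (hNc.pow 2).intervalIntegrable _ _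
      have i2 : IntervalIntegrable (fun τ => 2 * c * N τ) volume 0 1 :=
        (continuous_const.mul hNc).intervalIntegrable _ _
      have i3 : IntervalIntegrable (fun _ : ℝ => c ^ 2) volume 0 1 :=
        continuous_const.intervalIntegrable _ _
      rw [intervalIntegral.integral_sub i1 (i2.sub i3), intervalIntegral.integral_sub i2 i3,
        intervalIntegral.integral_const_mul, ← hc]
      simp
      ring
    linarith
  have h3 : ∫ τ in (0 : ℝ)..1, N τ ^ 2 ≤ ∫ τ in (0 : ℝ)..1, ‖h‖ ^ 2 * gsq (jet φ (x + τ * h)) :=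
    intervalIntegral.integral_mono_on zero_le_one ((hNc.pow 2).intervalIntegrable _ _)
      ((continuous_const.mul hcg).intervalIntegrable _ _) fun τ _ => h7_dir φ _ h
  rw [intervalIntegral.integral_const_mul] at h3
  exact (pow_le_pow_left₀ (norm_nonneg _) h1 2).trans (h2.trans h3)

omit [DecidableEq ι] in
/-- translation inequality for test functions -/
theorem h7_trans_test {φ : ℂ → Ev ι} (hφ : IsTest φ) (h : ℂ) (A A' : Set ℂ) (hA : MeasurableSet A)
    (hA' : MeasurableSet A') (hAA' : ∀ x ∈ A, ∀ t ∈ Ioc (0 : ℝ) 1, x + t * h ∈ A') :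
    ∫⁻ x in A, ENNReal.ofReal (‖φ (x + h) - φ x‖ ^ 2) ≤
      ENNReal.ofReal (‖h‖ ^ 2) * ∫⁻ x in A', ENNReal.ofReal (gsq (jet φ x)) := by
  have hcg := h7_cont_gsq hφ
  have hm2 : Measurable fun p : ℂ × ℝ => ENNReal.ofReal (gsq (jet φ (p.1 + (p.2 : ℂ) * h))) := by
    have : Continuous fun p : ℂ × ℝ => gsq (jet φ (p.1 + (p.2 : ℂ) * h)) :=
      hcg.comp (by fun_prop)
    exact this.measurable.ennreal_ofReal
  have h1 : ∀ x, ENNReal.ofReal (‖φ (x + h) - φ x‖ ^ 2) ≤ ENNReal.ofReal (‖h‖ ^ 2) *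
      ∫⁻ t in Ioc (0 : ℝ) 1, ENNReal.ofReal (gsq (jet φ (x + t * h))) := by
    intro x
    refine (ENNReal.ofReal_le_ofReal (h7_point hφ x h)).trans (le_of_eq ?_)
    rw [ENNReal.ofReal_mul (by positivity), intervalIntegral.integral_of_le zero_le_one,
      ofReal_integral_eq_lintegral_ofReal]
    · have hce : Continuous fun τ : ℝ => x + (τ : ℂ) * h := by fun_prop
      exact ((hcg.comp hce).integrableOn_Icc).mono_set Ioc_subset_Icc_self
    · exact Eventually.of_forall fun t => h7_gsq_nonneg _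
  calc ∫⁻ x in A, ENNReal.ofReal (‖φ (x + h) - φ x‖ ^ 2)
      ≤ ∫⁻ x in A, ENNReal.ofReal (‖h‖ ^ 2) *
        ∫⁻ t in Ioc (0 : ℝ) 1, ENNReal.ofReal (gsq (jet φ (x + t * h))) := lintegral_mono h1
    _ = ENNReal.ofReal (‖h‖ ^ 2) * ∫⁻ x in A,
        ∫⁻ t in Ioc (0 : ℝ) 1, ENNReal.ofReal (gsq (jet φ (x + t * h))) :=
        lintegral_const_mul' _ _ ENNReal.ofReal_ne_top
    _ = ENNReal.ofReal (‖h‖ ^ 2) * ∫⁻ t in Ioc (0 : ℝ) 1,
        ∫⁻ x in A, ENNReal.ofReal (gsq (jet φ (x + t * h))) := by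
        rw [lintegral_lintegral_swap]
        exact hm2.aemeasurable
    _ ≤ ENNReal.ofReal (‖h‖ ^ 2) * ∫⁻ _t in Ioc (0 : ℝ) 1,
        ∫⁻ x in A', ENNReal.ofReal (gsq (jet φ x)) := by
        refine mul_le_mul_right (setLIntegral_mono' measurableSet_Ioc fun t ht => ?_) _
        rw [← lintegral_indicator hA, ← lintegral_indicator hA',
          ← lintegral_add_right_eq_self (fun x => A'.indicator
            (fun x => ENNReal.ofReal (gsq (jet φ x))) x) ((t : ℂ) * h)]
        refine lintegral_mono fun x => ?_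
        by_cases hx : x ∈ A
        · rw [indicator_of_mem hx, indicator_of_mem (hAA' x hx t ht)]
        · rw [indicator_of_notMem hx]
          exact bot_le
    _ = ENNReal.ofReal (‖h‖ ^ 2) * ∫⁻ x in A', ENNReal.ofReal (gsq (jet φ x)) := by
        rw [setLIntegral_const, Real.volume_Ioc]
        simp

omit [DecidableEq ι] in
theorem h7_gsq_split (u v : Ev ι × Ev ι × Ev ι) : gsq v ≤ 2 * gsq u + 2 * gsq (u - v) := by
  have h : ∀ x y : Ev ι, ‖y‖ ^ 2 ≤ 2 * ‖x‖ ^ 2 + 2 * ‖x - y‖ ^ 2 := by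
    intro x y
    have h1 : ‖y‖ ≤ ‖x‖ + ‖x - y‖ := by
      have := norm_sub_le x (x - y)
      rwa [sub_sub_cancel] at this
    have h2 := pow_le_pow_left₀ (norm_nonneg _) h1 2
    nlinarith [sq_nonneg (‖x‖ - ‖x - y‖)]
  have h1 := h u.2.1 v.2.1
  have h2 := h u.2.2 v.2.2
  unfold gsq
  simp only [Prod.snd_sub, Prod.fst_sub]
  linarith

/-- translation inequality in the energy space -/
theorem h7_trans {U : Fld ι} (hU : IsSob U) (h : ℂ) (A A' : Set ℂ) (hA : MeasurableSet A)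
    (hA' : MeasurableSet A') (hAA' : ∀ x ∈ A, ∀ t ∈ Ioc (0 : ℝ) 1, x + t * h ∈ A') :
    ∫⁻ x in A, ENNReal.ofReal (‖(U (x + h)).1 - (U x).1‖ ^ 2) ≤
      ENNReal.ofReal (‖h‖ ^ 2) * (2 * ∫⁻ x in A', ENNReal.ofReal (gsq (U x))) := by
  obtain ⟨φ, hφ, hEn, hae⟩ := hU.exists_seq
  set δ : ℕ → ℝ≥0∞ := fun n => ∫⁻ x, ENNReal.ofReal (nsq x ((U - jet (φ n)) x)) with hδ
  have hnsq0 : ∀ (z : ℂ) (u : Ev ι × Ev ι × Ev ι), 0 ≤ nsq z u := by
    intro z u
    unfold nsq
    have := (wt_pos z).le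
    have := h7_gsq_nonneg u
    positivity
  have hδ0 : Tendsto δ atTop (𝓝 0) := by
    have h1 : δ = fun n => ENNReal.ofReal (En (U - jet (φ n))) := by
      funext n
      have h2 : IsSob (U - jet (φ n)) := hU.sub (isSob_jet (hφ n))
      exact (ofReal_integral_eq_lintegral_ofReal h2.integrable
        (Eventually.of_forall fun x => hnsq0 _ _)).symm
    rw [h1]
    have := ENNReal.tendsto_ofReal hEn
    rwa [ENNReal.ofReal_zero] at this
  have hae' : ∀ᵐ z : ℂ, Tendsto (fun n => jet (φ n) (z + h)) atTop (𝓝 (U (z + h))) :=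
    (measurePreserving_add_right volume h).quasiMeasurePreserving.ae hae
  have hmeas : ∀ n, Measurable fun x => ENNReal.ofReal (‖φ n (x + h) - φ n x‖ ^ 2) := by
    intro n
    have h1 : Continuous fun x => ‖φ n (x + h) - φ n x‖ ^ 2 :=
      (((hφ n).1.continuous.comp (continuous_id.add continuous_const)).sub
        (hφ n).1.continuous).norm.pow 2
    exact h1.measurable.ennreal_ofReal
  -- Fatou
  have hfatou : ∫⁻ x in A, ENNReal.ofReal (‖(U (x + h)).1 - (U x).1‖ ^ 2) ≤
      liminf (fun n => ∫⁻ x in A, ENNReal.ofReal (‖φ n (x + h) - φ n x‖ ^ 2)) atTop := by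
    refine le_trans (le_of_eq ?_) (lintegral_liminf_le hmeas)
    refine lintegral_congr_ae ?_
    filter_upwards [ae_restrict_of_ae hae, ae_restrict_of_ae hae'] with x hx hx'
    have h1 : Tendsto (fun n => φ n x) atTop (𝓝 (U x).1) :=
      (continuous_fst.tendsto _).comp hx
    have h1' : Tendsto (fun n => φ n (x + h)) atTop (𝓝 (U (x + h)).1) :=
      (continuous_fst.tendsto _).comp hx'
    have h2 : Tendsto (fun n => ENNReal.ofReal (‖φ n (x + h) - φ n x‖ ^ 2)) atTop
        (𝓝 (ENNReal.ofReal (‖(U (x + h)).1 - (U x).1‖ ^ 2))) :=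
      ENNReal.tendsto_ofReal (((h1'.sub h1).norm).pow 2)
    exact h2.liminf_eq.symm
  set I1 := ∫⁻ x in A', ENNReal.ofReal (gsq (U x)) with hI1
  have hGm : AEMeasurable (fun x => ENNReal.ofReal (gsq (U x))) volume := by
    have : AEStronglyMeasurable (fun x => gsq (U x)) volume :=
      (hU.1.snd.fst.norm.pow 2).add (hU.1.snd.snd.norm.pow 2)
    exact this.aemeasurable.ennreal_ofReal
  have hb1 : ∀ n, ∫⁻ x in A', ENNReal.ofReal (gsq (jet (φ n) x)) ≤ 2 * I1 + 2 * δ n := by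
    intro n
    have h1 : ∀ x, ENNReal.ofReal (gsq (jet (φ n) x)) ≤ 2 * ENNReal.ofReal (gsq (U x))
        + 2 * ENNReal.ofReal (nsq x ((U - jet (φ n)) x)) := by
      intro x
      have h2 := h7_gsq_split (U x) (jet (φ n) x)
      have h3 : gsq (U x - jet (φ n) x) ≤ nsq x ((U - jet (φ n)) x) := by
        have h4 : nsq x ((U - jet (φ n)) x) = wt x * ‖(U x - jet (φ n) x).1‖ ^ 2
          + gsq (U x - jet (φ n) x) := rfl
        rw [h4]
        have := (wt_pos x).le
        nlinarith [mul_nonneg this (sq_nonneg ‖(U x - jet (φ n) x).1‖)]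
      calc ENNReal.ofReal (gsq (jet (φ n) x))
          ≤ ENNReal.ofReal (2 * gsq (U x) + 2 * nsq x ((U - jet (φ n)) x)) := by
            apply ENNReal.ofReal_le_ofReal
            linarith
        _ = _ := by
            rw [ENNReal.ofReal_add (mul_nonneg (by norm_num) (h7_gsq_nonneg _))
              (mul_nonneg (by norm_num) (hnsq0 _ _)), ENNReal.ofReal_mul (by norm_num),
              ENNReal.ofReal_mul (by norm_num)]
            norm_num
    refine (lintegral_mono h1).trans ?_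
    rw [lintegral_add_left' ((hGm.restrict).const_mul 2), lintegral_const_mul' _ _ (by norm_num),
      lintegral_const_mul' _ _ (by norm_num)]
    gcongr
    exact setLIntegral_le_lintegral _ _
  set K := ENNReal.ofReal (‖h‖ ^ 2) with hK
  have hbound : ∀ n, ∫⁻ x in A, ENNReal.ofReal (‖φ n (x + h) - φ n x‖ ^ 2) ≤
      K * (2 * I1) + K * 2 * δ n := by
    intro n
    refine (h7_trans_test (hφ n) h A A' hA hA' hAA').trans ?_
    calc K * ∫⁻ x in A', ENNReal.ofReal (gsq (jet (φ n) x)) ≤ K * (2 * I1 + 2 * δ n) := by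
          gcongr
          exact hb1 n
      _ = _ := by ring
  have hlim : Tendsto (fun n => K * (2 * I1) + K * 2 * δ n) atTop (𝓝 (K * (2 * I1))) := by
    have h1 : Tendsto (fun n => K * 2 * δ n) atTop (𝓝 (K * 2 * 0)) :=
      ENNReal.Tendsto.const_mul hδ0 (Or.inr (ENNReal.mul_ne_top ENNReal.ofReal_ne_top (by norm_num)))
    rw [mul_zero] at h1
    have h2 := (tendsto_const_nhds (x := K * (2 * I1))).add h1
    rwa [add_zero] at h2
  refine hfatou.trans ?_
  rw [← hlim.liminf_eq]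
  exact liminf_le_liminf (Eventually.of_forall hbound)

/-- the averaging step: `a ≤ F + a m` -/
theorem h7_avg (B : Set ℂ) (hvol : 3 ≤ volume B) (a : ℝ≥0∞) (ha : a ≠ ⊤) (F m : ℂ → ℝ≥0∞)
    (hF : Measurable F)
    (h1 : ∀ h, a ≤ F h + a * m h) (h2 : ∫⁻ h in B, m h ≤ 1) :
    a ≤ ∫⁻ h in B, F h := by
  have h3 : 3 * a ≤ (∫⁻ h in B, F h) + a := by
    calc 3 * a ≤ volume B * a := by gcongr
      _ = ∫⁻ _h in B, a := by rw [setLIntegral_const, mul_comm]
      _ ≤ ∫⁻ h in B, (F h + a * m h) := lintegral_mono fun h => h1 h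
      _ = (∫⁻ h in B, F h) + a * ∫⁻ h in B, m h := by
          rw [lintegral_add_left hF, lintegral_const_mul' _ _ ha]
      _ ≤ (∫⁻ h in B, F h) + a * 1 := by gcongr
      _ = _ := by rw [mul_one]
  have h4 : (3 : ℝ≥0∞) * a = 2 * a + a := by ring
  rw [h4] at h3
  have h5 := (ENNReal.add_le_add_iff_right ha).1 h3
  refine le_trans ?_ h5
  calc a = 1 * a := (one_mul a).symm
    _ ≤ 2 * a := by gcongr; norm_num

theorem h7_shift (M : ℂ → ℝ≥0∞) (x : ℂ) (B A' : Set ℂ) (hB : MeasurableSet B)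
    (hA' : MeasurableSet A') (h : ∀ y ∈ B, x + y ∈ A') :
    ∫⁻ y in B, M (x + y) ≤ ∫⁻ y in A', M y := by
  rw [← lintegral_indicator hB, ← lintegral_indicator hA',
    ← lintegral_add_left_eq_self (fun y => A'.indicator M y) x]
  refine lintegral_mono fun y => ?_
  by_cases hy : y ∈ B
  · rw [indicator_of_mem hy, indicator_of_mem (h y hy)]
  · rw [indicator_of_notMem hy]
    exact bot_le

/-! ### H7 control of the value by truncated energy (no small-set information needed) -/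
theorem trunc_poincare : ∃ C : ℝ, ∀ r₁ r₂ : ℝ, 1 ≤ r₁ → r₁ ≤ r₂ → ∀ U : Fld ι, IsSob U →
    (∫ x in {x : ℂ | r₁ - 1 < ‖x‖ ∧ ‖x‖ < r₂ + 1}, min (‖(U x).1‖ ^ 2) 1) ≤ 1 / 2 →
    ∫ x in {x : ℂ | r₁ < ‖x‖ ∧ ‖x‖ < r₂}, ‖(U x).1‖ ^ 2 ≤
      C * ∫ x in {x : ℂ | r₁ - 1 < ‖x‖ ∧ ‖x‖ < r₂ + 1}, (gsq (U x) + min (‖(U x).1‖ ^ 2) 1) := by
  refine ⟨16, fun r₁ r₂ hr1 hr2 U hU hsmall => ?_⟩
  set A : Set ℂ := {x : ℂ | r₁ < ‖x‖ ∧ ‖x‖ < r₂} with hA
  set A' : Set ℂ := {x : ℂ | r₁ - 1 < ‖x‖ ∧ ‖x‖ < r₂ + 1} with hA'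
  set B : Set ℂ := Metric.ball 0 1 with hB
  have hAm : MeasurableSet A := (measurableSet_lt measurable_const measurable_norm).inter
      (measurableSet_lt measurable_norm measurable_const)
  have hA'm : MeasurableSet A' := (measurableSet_lt measurable_const measurable_norm).inter
      (measurableSet_lt measurable_norm measurable_const)
  have hBm : MeasurableSet B := measurableSet_ball
  have hvol : volume B = ENNReal.ofReal π := by
    rw [hB, Complex.volume_ball]
    simp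
    rw [ENNReal.ofReal, Real.toNNReal_of_nonneg Real.pi_nonneg]
    rfl
  have hAB : ∀ x ∈ A, ∀ h ∈ B, ∀ t ∈ Ioc (0 : ℝ) 1, x + t * h ∈ A' := by
    intro x hx h hh t ht
    have h1 : ‖h‖ < 1 := by simpa [hB] using hh
    have h2 : ‖(t : ℂ) * h‖ < 1 := by
      rw [norm_mul, Complex.norm_real, Real.norm_eq_abs, abs_of_pos ht.1]
      calc t * ‖h‖ ≤ 1 * ‖h‖ := by gcongr; exact ht.2
        _ < 1 := by rwa [one_mul]
    have h3 := norm_sub_norm_le x (-((t : ℂ) * h))
    rw [norm_neg, sub_neg_eq_add] at h3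
    have h4 := norm_add_le x ((t : ℂ) * h)
    exact ⟨by linarith [hx.1], by linarith [hx.2]⟩
  have hAB1 : ∀ x ∈ A, ∀ h ∈ B, x + h ∈ A' := by
    intro x hx h hh
    have := hAB x hx h hh 1 ⟨one_pos, le_rfl⟩
    simpa using this
  -- measurable representative
  obtain ⟨u, hum, hu⟩ : ∃ u : ℂ → Ev ι, StronglyMeasurable u ∧ (fun x => (U x).1) =ᵐ[volume] u :=
    hU.1.fst
  set M : ℂ → ℝ≥0∞ := fun x => ENNReal.ofReal (min (‖u x‖ ^ 2) 1) with hM
  have hMm : Measurable M := ((hum.norm.measurable.pow_const 2).min measurable_const).ennreal_ofReal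
  set I1 := ∫⁻ x in A', ENNReal.ofReal (gsq (U x)) with hI1
  set J := ∫⁻ x in A', M x with hJ
  have hint : IntegrableOn (fun x => min (‖(U x).1‖ ^ 2) 1) A' := by
    have hfin : volume A' ≠ ⊤ := by
      have h1 : A' ⊆ Metric.ball 0 (r₂ + 1) := fun x hx => by simpa using hx.2
      exact ne_top_of_le_ne_top measure_ball_lt_top.ne (measure_mono h1)
    have h1 : IntegrableOn (fun _ : ℂ => (1 : ℝ)) A' := integrableOn_const hfin
    refine Integrable.mono' h1 ?_ (Eventually.of_forall fun x => ?_)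
    · exact (((hU.1.fst.norm.pow 2).inf aestronglyMeasurable_const)).restrict
    · rw [Real.norm_eq_abs, abs_of_nonneg (le_min (by positivity) zero_le_one)]
      exact min_le_right _ _
  have hJeq : J = ENNReal.ofReal (∫ x in A', min (‖(U x).1‖ ^ 2) 1) := by
    rw [ofReal_integral_eq_lintegral_ofReal hint
      (Eventually.of_forall fun x => le_min (by positivity) zero_le_one)]
    refine lintegral_congr_ae ?_
    filter_upwards [ae_restrict_of_ae hu] with x hx
    rw [hM]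
    simp only at hx ⊢
    rw [hx]
  have hJ1 : J ≤ 1 := by
    rw [hJeq, ← ENNReal.ofReal_one]
    apply ENNReal.ofReal_le_ofReal
    linarith
  -- the pointwise estimate
  have hpt : ∀ x ∈ A, ENNReal.ofReal (‖u x‖ ^ 2) ≤
      ∫⁻ h in B, (2 * ENNReal.ofReal (‖u (x + h) - u x‖ ^ 2) + 2 * M (x + h)) := by
    intro x hx
    refine h7_avg B ?_ _ ENNReal.ofReal_ne_top _ (fun h => M (x + h)) ?_ ?_ ?_
    · rw [hvol]
      have : (3 : ℝ≥0∞) = ENNReal.ofReal 3 := by norm_num
      rw [this]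
      exact ENNReal.ofReal_le_ofReal Real.pi_gt_three.le
    · have hux : Measurable fun h => u (x + h) := hum.measurable.comp (measurable_const_add x)
      have h1 : Measurable fun h => ENNReal.ofReal (‖u (x + h) - u x‖ ^ 2) :=
        (((hux.sub_const (u x)).norm).pow_const 2).ennreal_ofReal
      exact (h1.const_mul 2).add ((hMm.comp (measurable_const_add x)).const_mul 2)
    · intro h
      rcases le_total (‖u (x + h)‖ ^ 2) 1 with h1 | h1
      · refine le_add_right ?_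
        have h2 : M (x + h) = ENNReal.ofReal (‖u (x + h)‖ ^ 2) := by
          rw [hM]; simp only; rw [min_eq_left h1]
        rw [h2]
        have e2 : ∀ y : ℝ, 2 * ENNReal.ofReal y = ENNReal.ofReal (2 * y) := by
          intro y
          rw [ENNReal.ofReal_mul (by norm_num)]
          norm_num
        rw [e2, e2, ← ENNReal.ofReal_add (by positivity) (by positivity)]
        apply ENNReal.ofReal_le_ofReal
        have h3 : ‖u x‖ ≤ ‖u (x + h)‖ + ‖u (x + h) - u x‖ := by
          have := norm_sub_le (u (x + h)) (u (x + h) - u x)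
          rwa [sub_sub_cancel] at this
        have h4 := pow_le_pow_left₀ (norm_nonneg _) h3 2
        nlinarith [sq_nonneg (‖u (x + h)‖ - ‖u (x + h) - u x‖)]
      · have h2 : M (x + h) = 1 := by
          rw [hM]; simp only; rw [min_eq_right h1, ENNReal.ofReal_one]
        rw [h2]
        exact le_add_left (by rw [mul_one])
    · exact (h7_shift M x B A' hBm hA'm (hAB1 x hx)).trans hJ1
  -- integrate
  have hsw : Measurable fun p : ℂ × ℂ =>
      2 * ENNReal.ofReal (‖u (p.1 + p.2) - u p.1‖ ^ 2) + 2 * M (p.1 + p.2) := by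
    have h1 : Measurable fun p : ℂ × ℂ => u (p.1 + p.2) :=
      hum.measurable.comp (measurable_fst.add measurable_snd)
    have h2 : Measurable fun p : ℂ × ℂ => u p.1 := hum.measurable.comp measurable_fst
    have h3 : Measurable fun p : ℂ × ℂ => M (p.1 + p.2) :=
      hMm.comp (measurable_fst.add measurable_snd)
    exact ((((h1.sub h2).norm).pow_const 2).ennreal_ofReal.const_mul 2).add (h3.const_mul 2)
  have hh : ∀ h ∈ B, ∫⁻ x in A, (2 * ENNReal.ofReal (‖u (x + h) - u x‖ ^ 2) + 2 * M (x + h)) ≤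
      4 * I1 + 2 * J := by
    intro h hh
    have h1 : ‖h‖ < 1 := by simpa [hB] using hh
    have hm1 : Measurable fun x => ENNReal.ofReal (‖u (x + h) - u x‖ ^ 2) := by
      have h2 : Measurable fun x => u (x + h) := hum.measurable.comp (measurable_add_const h)
      exact (((h2.sub hum.measurable).norm).pow_const 2).ennreal_ofReal
    rw [lintegral_add_left (hm1.const_mul 2), lintegral_const_mul' _ _ (by norm_num),
      lintegral_const_mul' _ _ (by norm_num)]
    have h3 : ∫⁻ x in A, ENNReal.ofReal (‖u (x + h) - u x‖ ^ 2) ≤ 2 * I1 := by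
      have h4 := h7_trans hU h A A' hAm hA'm (fun x hx t ht => hAB x hx h hh t ht)
      have hu' : ∀ᵐ x : ℂ, (U (x + h)).1 = u (x + h) :=
        (measurePreserving_add_right volume h).quasiMeasurePreserving.ae hu
      have h5 : ∫⁻ x in A, ENNReal.ofReal (‖u (x + h) - u x‖ ^ 2)
          = ∫⁻ x in A, ENNReal.ofReal (‖(U (x + h)).1 - (U x).1‖ ^ 2) := by
        refine lintegral_congr_ae ?_
        filter_upwards [ae_restrict_of_ae hu, ae_restrict_of_ae hu'] with x hx hx'
        rw [hx, hx']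
      rw [h5]
      refine h4.trans ?_
      calc ENNReal.ofReal (‖h‖ ^ 2) * (2 * I1) ≤ ENNReal.ofReal 1 * (2 * I1) := by
            gcongr
            nlinarith [norm_nonneg h]
        _ = 2 * I1 := by rw [ENNReal.ofReal_one, one_mul]
    have h6 : ∫⁻ x in A, M (x + h) ≤ J := by
      have := h7_shift M h A A' hAm hA'm (fun x hx => by
        rw [add_comm]; exact hAB1 x hx h hh)
      simpa [add_comm] using this
    calc 2 * (∫⁻ x in A, ENNReal.ofReal (‖u (x + h) - u x‖ ^ 2)) + 2 * ∫⁻ x in A, M (x + h)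
        ≤ 2 * (2 * I1) + 2 * J := by gcongr
      _ = 4 * I1 + 2 * J := by ring
  have hfinal : ∫⁻ x in A, ENNReal.ofReal (‖u x‖ ^ 2) ≤ 16 * (I1 + J) := by
    calc ∫⁻ x in A, ENNReal.ofReal (‖u x‖ ^ 2)
        ≤ ∫⁻ x in A, ∫⁻ h in B, (2 * ENNReal.ofReal (‖u (x + h) - u x‖ ^ 2) + 2 * M (x + h)) :=
          setLIntegral_mono' hAm hpt
      _ = ∫⁻ h in B, ∫⁻ x in A, (2 * ENNReal.ofReal (‖u (x + h) - u x‖ ^ 2) + 2 * M (x + h)) := by
          rw [lintegral_lintegral_swap]
          exact hsw.aemeasurable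
      _ ≤ ∫⁻ _h in B, (4 * I1 + 2 * J) := setLIntegral_mono' hBm hh
      _ = (4 * I1 + 2 * J) * volume B := by rw [setLIntegral_const]
      _ ≤ (4 * I1 + 4 * J) * 4 := by
          have h4 : volume B ≤ 4 := by
            rw [hvol]
            have : (4 : ℝ≥0∞) = ENNReal.ofReal 4 := by norm_num
            rw [this]
            exact ENNReal.ofReal_le_ofReal Real.pi_le_four
          have h5 : (2 : ℝ≥0∞) ≤ 4 := by norm_num
          gcongr
      _ = 16 * (I1 + J) := by ring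
  -- back to real integrals
  have hi1 : IntegrableOn (fun x => ‖(U x).1‖ ^ 2) A :=
    (hU.integrableOn_sq r₂).mono_set fun x hx => by simpa using hx.2
  have hi3 : IntegrableOn (fun x => gsq (U x)) A' := hU.integrable_gsq.integrableOn
  have h1 : ∫⁻ x in A, ENNReal.ofReal (‖u x‖ ^ 2) = ENNReal.ofReal (∫ x in A, ‖(U x).1‖ ^ 2) := by
    rw [ofReal_integral_eq_lintegral_ofReal hi1 (Eventually.of_forall fun x => by positivity)]
    refine lintegral_congr_ae ?_
    filter_upwards [ae_restrict_of_ae hu] with x hx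
    rw [hx]
  have h2 : I1 = ENNReal.ofReal (∫ x in A', gsq (U x)) :=
    (ofReal_integral_eq_lintegral_ofReal hi3 (Eventually.of_forall fun x => h7_gsq_nonneg _)).symm
  have hn1 : 0 ≤ ∫ x in A', gsq (U x) := integral_nonneg fun x => h7_gsq_nonneg _
  have hn2 : 0 ≤ ∫ x in A', min (‖(U x).1‖ ^ 2) 1 :=
    integral_nonneg fun x => le_min (by positivity) zero_le_one
  rw [h1, h2, hJeq, ← ENNReal.ofReal_add hn1 hn2, show (16 : ℝ≥0∞) = ENNReal.ofReal 16 by norm_num,
    ← ENNReal.ofReal_mul (by norm_num), ENNReal.ofReal_le_ofReal_iff (by positivity)] at hfinal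
  rw [integral_add hi3 hint]
  exact hfinal

end Pool.MP_ad5d82_an.Wl
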