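import Pool.Agent.Lib.MP_ad5d82_an.h24.HDefs

set_option autoImplicit false

namespace Pool.MP_ad5d82_an.Wl

open Real Set MeasureTheory Filter Topology
open scoped ContDiff

variable {ι : Type} [Fintype ι] [DecidableEq ι]

/-! ### H8a iteration of the Gagliardo-Nirenberg inequality -/

private theorem H8a_opNorm (L : ℂ →L[ℝ] ℝ) : ‖L‖ ^ 2 ≤ L 1 ^ 2 + L Complex.I ^ 2 := by
  have h0 : 0 ≤ L 1 ^ 2 + L Complex.I ^ 2 := by positivity
  have h1 : ‖L‖ ≤ Real.sqrt (L 1 ^ 2 + L Complex.I ^ 2) := by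
    apply ContinuousLinearMap.opNorm_le_bound _ (Real.sqrt_nonneg _)
    intro z
    have hz : L z = z.re * L 1 + z.im * L Complex.I := by
      have : z = z.re • (1 : ℂ) + z.im • Complex.I := by
        simp [Complex.re_add_im]
      conv_lhs => rw [this]
      rw [map_add, map_smul, map_smul]
      simp
    rw [hz, Real.norm_eq_abs, Complex.norm_eq_sqrt_sq_add_sq, ← Real.sqrt_mul h0]
    apply Real.abs_le_sqrt
    nlinarith [sq_nonneg (z.re * L Complex.I - z.im * L 1)]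
  calc ‖L‖ ^ 2 ≤ Real.sqrt (L 1 ^ 2 + L Complex.I ^ 2) ^ 2 := by
        gcongr
    _ = _ := Real.sq_sqrt h0

private theorem H8a_gn : ∃ C₁ : ℝ, 0 < C₁ ∧ ∀ v : ℂ → ℝ, ContDiff ℝ 1 v → HasCompactSupport v →
    ∫ z, v z ^ 2 ≤ C₁ * (∫ z, ‖fderiv ℝ v z‖) ^ 2 := by
  set K : NNReal := eLpNormLESNormFDerivOneConst (volume : Measure ℂ) 2 with hK
  refine ⟨(K : ℝ) ^ 2 + 1, by positivity, ?_⟩
  intro v hv hc
  have hp : NNReal.HolderConjugate (Module.finrank ℝ ℂ) 2 := by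
    rw [Complex.finrank_real_complex]
    exact NNReal.HolderConjugate.two_two
  have h := eLpNorm_le_eLpNorm_fderiv_one (volume : Measure ℂ) hv hc hp
  have hcv : Continuous v := hv.continuous
  have hcf : Continuous (fderiv ℝ v) := hv.continuous_fderiv one_ne_zero
  have hcs : HasCompactSupport (fderiv ℝ v) := hc.fderiv (𝕜 := ℝ)
  have m1 : MemLp v 2 volume := hcv.memLp_of_hasCompactSupport hc
  have m2 : MemLp (fderiv ℝ v) 1 volume := hcf.memLp_of_hasCompactSupport hcs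
  have e1 := m1.eLpNorm_eq_integral_rpow_norm (by norm_num) (by norm_num)
  have e2 := m2.eLpNorm_eq_integral_rpow_norm (by norm_num) (by norm_num)
  have h' : eLpNorm v 2 volume ≤ (K : ENNReal) * eLpNorm (fderiv ℝ v) 1 volume := h
  rw [e1, e2] at h'
  simp only [ENNReal.toReal_ofNat, ENNReal.toReal_one, Real.rpow_one, inv_one] at h'
  have hK' : (K : ENNReal) = ENNReal.ofReal (K : ℝ) := by simp
  rw [hK', ← ENNReal.ofReal_mul (by positivity)] at h'
  have hnn : 0 ≤ ∫ z, ‖fderiv ℝ v z‖ := integral_nonneg fun z => norm_nonneg _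
  rw [ENNReal.ofReal_le_ofReal_iff (by positivity)] at h'
  have e3 : ∫ z, ‖v z‖ ^ (2 : ℝ) = ∫ z, v z ^ 2 := by
    apply integral_congr_ae
    filter_upwards with z
    rw [Real.rpow_two, Real.norm_eq_abs, sq_abs]
  rw [e3] at h'
  have hnn2 : 0 ≤ ∫ z, v z ^ 2 := integral_nonneg fun z => by positivity
  have h2 : ∫ z, v z ^ 2 = ((∫ z, v z ^ 2) ^ ((2 : ℝ)⁻¹)) ^ 2 := by
    rw [← Real.rpow_natCast, ← Real.rpow_mul hnn2]
    norm_num
  rw [h2]
  calc ((∫ z, v z ^ 2) ^ ((2 : ℝ)⁻¹)) ^ 2 ≤ ((K : ℝ) * ∫ z, ‖fderiv ℝ v z‖) ^ 2 := by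
        apply pow_le_pow_left₀ (by positivity) h'
    _ ≤ ((K : ℝ) ^ 2 + 1) * (∫ z, ‖fderiv ℝ v z‖) ^ 2 := by
        rw [mul_pow]
        nlinarith [sq_nonneg (∫ z, ‖fderiv ℝ v z‖)]

private theorem H8a_cs (f g : ℂ → ℝ) (hf : Continuous f) (hg : Continuous g)
    (hcg : HasCompactSupport g) (hcf : HasCompactSupport f) (hf0 : ∀ z, 0 ≤ f z)
    (hg0 : ∀ z, 0 ≤ g z) :
    (∫ z, f z * g z) ^ 2 ≤ (∫ z, f z ^ 2) * ∫ z, g z ^ 2 := by
  have h := integral_mul_le_Lp_mul_Lq_of_nonneg (μ := (volume : Measure ℂ))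
    Real.HolderConjugate.two_two (Eventually.of_forall hf0)
    (Eventually.of_forall hg0) (f := f) (g := g)
    (by
      have : ENNReal.ofReal 2 = 2 := by norm_num
      rw [this]
      exact hf.memLp_of_hasCompactSupport hcf)
    (by
      have : ENNReal.ofReal 2 = 2 := by norm_num
      rw [this]
      exact hg.memLp_of_hasCompactSupport hcg)
  simp only [Real.rpow_two] at h
  have n1 : 0 ≤ ∫ z, f z ^ 2 := integral_nonneg fun z => by positivity
  have n2 : 0 ≤ ∫ z, g z ^ 2 := integral_nonneg fun z => by positivity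
  have n3 : 0 ≤ ∫ z, f z * g z := integral_nonneg fun z => mul_nonneg (hf0 z) (hg0 z)
  have e1 : ((∫ z, f z ^ 2) ^ (1 / 2 : ℝ)) ^ 2 = ∫ z, f z ^ 2 := by
    rw [← Real.rpow_natCast, ← Real.rpow_mul n1]; norm_num
  have e2 : ((∫ z, g z ^ 2) ^ (1 / 2 : ℝ)) ^ 2 = ∫ z, g z ^ 2 := by
    rw [← Real.rpow_natCast, ← Real.rpow_mul n2]; norm_num
  calc (∫ z, f z * g z) ^ 2 ≤ ((∫ z, f z ^ 2) ^ (1 / 2 : ℝ) * (∫ z, g z ^ 2) ^ (1 / 2 : ℝ)) ^ 2 :=
        pow_le_pow_left₀ n3 h 2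
    _ = _ := by rw [mul_pow, e1, e2]

private theorem H8a_step : ∃ C₀ : ℝ, 0 < C₀ ∧ ∀ u : ℂ → ℝ, IsTestR u → ∀ m : ℕ,
    ∫ z, u z ^ (2 * (m + 2)) ≤
      (C₀ * ∫ z, (fderiv ℝ u z 1 ^ 2 + fderiv ℝ u z Complex.I ^ 2)) * ((m + 2 : ℕ) : ℝ) ^ 2 *
        ∫ z, u z ^ (2 * (m + 1)) := by
  obtain ⟨C₁, hC₁, hgn⟩ := H8a_gn
  refine ⟨C₁, hC₁, ?_⟩
  intro u hu m
  obtain ⟨hsm, hcs⟩ := hu
  have hsm1 : ContDiff ℝ 1 u := hsm.of_le (by exact_mod_cast le_top)
  have hcu : Continuous u := hsm.continuous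
  have hcf : Continuous (fderiv ℝ u) := hsm1.continuous_fderiv one_ne_zero
  have hcsf : HasCompactSupport (fderiv ℝ u) := hcs.fderiv (𝕜 := ℝ)
  have hv : ContDiff ℝ 1 (fun z => u z ^ (m + 2)) := hsm1.pow _
  have hcv : HasCompactSupport (fun z => u z ^ (m + 2)) := by
    have := hcs.comp_left (g := fun x : ℝ => x ^ (m + 2)) (by simp)
    exact this
  have h := hgn _ hv hcv
  have hfd : ∀ z, ‖fderiv ℝ (fun z => u z ^ (m + 2)) z‖ =
      ((m + 2 : ℕ) : ℝ) * (|u z| ^ (m + 1) * ‖fderiv ℝ u z‖) := by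
    intro z
    have hd : HasFDerivAt u (fderiv ℝ u z) z :=
      (hsm1.differentiable one_ne_zero).differentiableAt.hasFDerivAt
    have h1 := hd.pow (m + 2)
    have h2 : fderiv ℝ (fun z => u z ^ (m + 2)) z = _ := h1.fderiv
    rw [h2, norm_smul]
    simp only [nsmul_eq_mul, norm_mul, Real.norm_eq_abs, abs_pow, Nat.abs_cast]
    have : m + 2 - 1 = m + 1 := by omega
    rw [this]
    ring
  have hI : ∫ z, ‖fderiv ℝ (fun z => u z ^ (m + 2)) z‖ =
      ((m + 2 : ℕ) : ℝ) * ∫ z, |u z| ^ (m + 1) * ‖fderiv ℝ u z‖ := by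
    rw [← integral_const_mul]
    apply integral_congr_ae
    filter_upwards with z
    exact hfd z
  have hcs2 := H8a_cs (fun z => |u z| ^ (m + 1)) (fun z => ‖fderiv ℝ u z‖)
    (by fun_prop) hcf.norm hcsf.norm
    (by
      have := hcs.comp_left (g := fun x : ℝ => |x| ^ (m + 1)) (by simp)
      exact this)
    (fun z => by positivity) (fun z => norm_nonneg _)
  have e1 : ∫ z, (|u z| ^ (m + 1)) ^ 2 = ∫ z, u z ^ (2 * (m + 1)) := by
    apply integral_congr_ae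
    filter_upwards with z
    show (|u z| ^ (m + 1)) ^ 2 = u z ^ (2 * (m + 1))
    rw [← pow_mul, mul_comm (m + 1) 2, pow_mul, sq_abs, ← pow_mul]
  have e2 : ∫ z, (u z ^ (m + 2)) ^ 2 = ∫ z, u z ^ (2 * (m + 2)) := by
    apply integral_congr_ae
    filter_upwards with z
    show (u z ^ (m + 2)) ^ 2 = u z ^ (2 * (m + 2))
    rw [← pow_mul, mul_comm]
  have hint1 : Integrable (fun z => ‖fderiv ℝ u z‖ ^ 2) volume := by
    apply Continuous.integrable_of_hasCompactSupport (by fun_prop)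
    have := hcsf.comp_left (g := fun x : ℂ →L[ℝ] ℝ => ‖x‖ ^ 2) (by simp)
    exact this
  have hint2 : Integrable (fun z => fderiv ℝ u z 1 ^ 2 + fderiv ℝ u z Complex.I ^ 2) volume := by
    apply Continuous.integrable_of_hasCompactSupport
    · have a1 : Continuous fun z => fderiv ℝ u z 1 := hcf.clm_apply continuous_const
      have a2 : Continuous fun z => fderiv ℝ u z Complex.I := hcf.clm_apply continuous_const
      exact (a1.pow 2).add (a2.pow 2)
    · have := hcsf.comp_left (g := fun x : ℂ →L[ℝ] ℝ => x 1 ^ 2 + x Complex.I ^ 2) (by simp)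
      exact this
  have hD : ∫ z, ‖fderiv ℝ u z‖ ^ 2 ≤
      ∫ z, (fderiv ℝ u z 1 ^ 2 + fderiv ℝ u z Complex.I ^ 2) :=
    integral_mono hint1 hint2 fun z => H8a_opNorm _
  rw [e2, hI] at h
  rw [e1] at hcs2
  have n1 : 0 ≤ ∫ z, u z ^ (2 * (m + 1)) := integral_nonneg fun z => by
    show 0 ≤ u z ^ (2 * (m + 1))
    rw [pow_mul]; positivity
  set D := ∫ z, (fderiv ℝ u z 1 ^ 2 + fderiv ℝ u z Complex.I ^ 2)
  set X := ∫ z, |u z| ^ (m + 1) * ‖fderiv ℝ u z‖
  set Y := ∫ z, u z ^ (2 * (m + 1))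
  calc ∫ z, u z ^ (2 * (m + 2)) ≤ C₁ * (((m + 2 : ℕ) : ℝ) * X) ^ 2 := h
    _ = C₁ * ((m + 2 : ℕ) : ℝ) ^ 2 * X ^ 2 := by ring
    _ ≤ C₁ * ((m + 2 : ℕ) : ℝ) ^ 2 * (Y * D) := by
        apply mul_le_mul_of_nonneg_left _ (by positivity)
        exact hcs2.trans (mul_le_mul_of_nonneg_left hD n1)
    _ = _ := by ring

theorem gn_iter : ∃ C₀ : ℝ, 0 < C₀ ∧ ∀ u : ℂ → ℝ, IsTestR u → ∀ m : ℕ, 1 ≤ m →
    ∫ z, u z ^ (2 * m) ≤ (C₀ * ∫ z, (fderiv ℝ u z 1 ^ 2 + fderiv ℝ u z Complex.I ^ 2)) ^ (m - 1)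
      * (m.factorial : ℝ) ^ 2 * ∫ z, u z ^ 2 := by
  obtain ⟨C₀, hC₀, hstep⟩ := H8a_step
  refine ⟨C₀, hC₀, ?_⟩
  intro u hu m hm
  have hD0 : 0 ≤ ∫ z, (fderiv ℝ u z 1 ^ 2 + fderiv ℝ u z Complex.I ^ 2) :=
    integral_nonneg fun z => by positivity
  induction m, hm using Nat.le_induction with
  | base => simp
  | succ m hm ih =>
    obtain ⟨k, rfl⟩ : ∃ k, m = k + 1 := ⟨m - 1, by omega⟩
    have h := hstep u hu k
    set D := ∫ z, (fderiv ℝ u z 1 ^ 2 + fderiv ℝ u z Complex.I ^ 2)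
    refine h.trans ?_
    calc (C₀ * D) * ((k + 2 : ℕ) : ℝ) ^ 2 * ∫ z, u z ^ (2 * (k + 1))
        ≤ (C₀ * D) * ((k + 2 : ℕ) : ℝ) ^ 2 *
          ((C₀ * D) ^ (k + 1 - 1) * ((k + 1).factorial : ℝ) ^ 2 * ∫ z, u z ^ 2) := by
          apply mul_le_mul_of_nonneg_left ih (by positivity)
      _ = (C₀ * D) ^ (k + 1 + 1 - 1) * ((k + 1 + 1).factorial : ℝ) ^ 2 * ∫ z, u z ^ 2 := by
          rw [Nat.factorial_succ (k + 1)]
          simp only [Nat.add_sub_cancel]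
          push_cast
          ring

theorem gn_exp (α : ℝ) (hα : 0 < α) : ∃ δ > 0, ∃ C : ℝ, ∀ u : ℂ → ℝ, IsTestR u →
    ∫ z, (fderiv ℝ u z 1 ^ 2 + fderiv ℝ u z Complex.I ^ 2) ≤ δ →
    Integrable (fun z => u z ^ 2 * exp (α * |u z|)) volume ∧
    ∫ z, u z ^ 2 * exp (α * |u z|) ≤ C * ∫ z, u z ^ 2 := by
  obtain ⟨C₀, hC₀, hit⟩ := gn_iter
  refine ⟨1 / (2 * α ^ 2 * C₀), by positivity, ∑' k : ℕ, 2 * ((k : ℝ) + 1) ^ 2 * (1 / 2) ^ k, ?_⟩
  intro u hu hD
  obtain ⟨hsm, hcs⟩ := hu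
  have hcu : Continuous u := hsm.continuous
  have hint : Integrable (fun z => u z ^ 2 * exp (α * |u z|)) volume := by
    apply Continuous.integrable_of_hasCompactSupport (by fun_prop)
    have := hcs.comp_left (g := fun x : ℝ => x ^ 2 * exp (α * |x|)) (by simp)
    exact this
  refine ⟨hint, ?_⟩
  have hsummable : Summable (fun k : ℕ => 2 * ((k : ℝ) + 1) ^ 2 * (1 / 2 : ℝ) ^ k) := by
    have h2 := summable_pow_mul_geometric_of_norm_lt_one 2 (r := (1 / 2 : ℝ)) (by norm_num)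
    have h1 := summable_pow_mul_geometric_of_norm_lt_one 1 (r := (1 / 2 : ℝ)) (by norm_num)
    have h0 := summable_pow_mul_geometric_of_norm_lt_one 0 (r := (1 / 2 : ℝ)) (by norm_num)
    have := ((h2.mul_left 2).add (h1.mul_left 4)).add (h0.mul_left 2)
    refine this.congr ?_
    intro k
    ring
  set F : ℕ → ℂ → ℝ := fun k z => 2 * α ^ (2 * k) / ((2 * k).factorial : ℝ) * u z ^ (2 * (k + 1))
    with hF
  have hFint : ∀ k, Integrable (F k) volume := by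
    intro k
    apply Continuous.integrable_of_hasCompactSupport (by fun_prop)
    have := hcs.comp_left (g := fun x : ℝ => 2 * α ^ (2 * k) / ((2 * k).factorial : ℝ) *
      x ^ (2 * (k + 1))) (by simp)
    exact this
  have hF0 : ∀ k z, 0 ≤ F k z := by
    intro k z
    have : 0 ≤ u z ^ (2 * (k + 1)) := by rw [pow_mul]; positivity
    simp only [hF]
    positivity
  have hu2 : 0 ≤ ∫ z, u z ^ 2 := integral_nonneg fun z => by positivity
  have hD0 : 0 ≤ ∫ z, (fderiv ℝ u z 1 ^ 2 + fderiv ℝ u z Complex.I ^ 2) :=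
    integral_nonneg fun z => by positivity
  have hbound : ∀ k, ∫ z, F k z ≤ 2 * ((k : ℝ) + 1) ^ 2 * (1 / 2 : ℝ) ^ k * ∫ z, u z ^ 2 := by
    intro k
    have h1 := hit u ⟨hsm, hcs⟩ (k + 1) (by omega)
    simp only [hF]
    rw [integral_const_mul]
    set D := ∫ z, (fderiv ℝ u z 1 ^ 2 + fderiv ℝ u z Complex.I ^ 2)
    have hfac : ((k + 1).factorial : ℝ) ^ 2 ≤ ((k : ℝ) + 1) ^ 2 * ((2 * k).factorial : ℝ) := by
      have h2 : k.factorial * k.factorial ≤ (k + k).factorial :=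
        Nat.le_of_dvd (Nat.factorial_pos _) (Nat.factorial_mul_factorial_dvd_factorial_add k k)
      have h3 : (k.factorial : ℝ) * k.factorial ≤ ((2 * k).factorial : ℝ) := by
        rw [two_mul]
        exact_mod_cast h2
      rw [Nat.factorial_succ]
      push_cast
      have h4 : (0 : ℝ) ≤ ((k : ℝ) + 1) ^ 2 := by positivity
      nlinarith
    have hαD : α ^ (2 * k) * (C₀ * D) ^ k ≤ (1 / 2) ^ k := by
      rw [pow_mul, ← mul_pow]
      apply pow_le_pow_left₀ (by positivity)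
      have : D ≤ 1 / (2 * α ^ 2 * C₀) := hD
      calc α ^ 2 * (C₀ * D) ≤ α ^ 2 * (C₀ * (1 / (2 * α ^ 2 * C₀))) := by gcongr
        _ = 1 / 2 := by field_simp
    have hf0 : (0 : ℝ) < ((2 * k).factorial : ℝ) := by exact_mod_cast Nat.factorial_pos _
    simp only [Nat.add_sub_cancel] at h1
    calc 2 * α ^ (2 * k) / ((2 * k).factorial : ℝ) * ∫ z, u z ^ (2 * (k + 1))
        ≤ 2 * α ^ (2 * k) / ((2 * k).factorial : ℝ) *
          ((C₀ * D) ^ k * ((k + 1).factorial : ℝ) ^ 2 * ∫ z, u z ^ 2) := by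
          apply mul_le_mul_of_nonneg_left h1 (by positivity)
      _ ≤ 2 * α ^ (2 * k) / ((2 * k).factorial : ℝ) *
          ((C₀ * D) ^ k * (((k : ℝ) + 1) ^ 2 * ((2 * k).factorial : ℝ)) * ∫ z, u z ^ 2) := by
          gcongr
      _ = 2 * ((k : ℝ) + 1) ^ 2 * (α ^ (2 * k) * (C₀ * D) ^ k) * ∫ z, u z ^ 2 := by
          field_simp
      _ ≤ 2 * ((k : ℝ) + 1) ^ 2 * (1 / 2 : ℝ) ^ k * ∫ z, u z ^ 2 := by
          gcongr
  have hsumint : Summable (fun k => ∫ z, ‖F k z‖) := by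
    have hnorm : ∀ k, ∫ z, ‖F k z‖ = ∫ z, F k z := by
      intro k
      apply integral_congr_ae
      filter_upwards with z
      rw [Real.norm_eq_abs, abs_of_nonneg (hF0 k z)]
    simp only [hnorm]
    exact Summable.of_nonneg_of_le (fun k => integral_nonneg (hF0 k)) hbound
      (hsummable.mul_right _)
  have hs := hasSum_integral_of_summable_integral_norm hFint hsumint
  have hpt : ∀ z, ∑' k, F k z = 2 * (u z ^ 2 * Real.cosh (α * u z)) := by
    intro z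
    have h1 := (Real.hasSum_cosh (α * u z)).mul_left (2 * u z ^ 2)
    have h2 : HasSum (fun k => F k z) (2 * u z ^ 2 * Real.cosh (α * u z)) := by
      refine h1.congr_fun ?_
      intro k
      simp only [hF]
      rw [mul_pow]
      ring
    rw [h2.tsum_eq]
    ring
  have hle : ∀ z, u z ^ 2 * exp (α * |u z|) ≤ ∑' k, F k z := by
    intro z
    rw [hpt z]
    have h1 : exp (α * |u z|) ≤ 2 * Real.cosh (α * u z) := by
      rw [Real.cosh_eq]
      rcases abs_cases (u z) with ⟨h, -⟩ | ⟨h, -⟩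
      · rw [h]
        have := Real.exp_pos (-(α * u z))
        linarith
      · rw [h]
        have := Real.exp_pos (α * u z)
        have e : α * -u z = -(α * u z) := by ring
        rw [e]
        linarith
    nlinarith [sq_nonneg (u z)]
  have hsint : Integrable (fun z => ∑' k, F k z) volume := by
    simp only [hpt]
    apply Continuous.integrable_of_hasCompactSupport (by fun_prop)
    have := hcs.comp_left (g := fun x : ℝ => 2 * (x ^ 2 * Real.cosh (α * x))) (by simp)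
    exact this
  calc ∫ z, u z ^ 2 * exp (α * |u z|) ≤ ∫ z, ∑' k, F k z := integral_mono hint hsint hle
    _ = ∑' k, ∫ z, F k z := hs.tsum_eq.symm
    _ ≤ ∑' k : ℕ, 2 * ((k : ℝ) + 1) ^ 2 * (1 / 2 : ℝ) ^ k * ∫ z, u z ^ 2 :=
        Summable.tsum_le_tsum hbound hs.summable (hsummable.mul_right _)
    _ = _ := by rw [tsum_mul_right]

end Pool.MP_ad5d82_an.Wl
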