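import Pool.Agent.Lib.MP_ad5d82_an.h24.HDefs
import Pool.Agent.Lib.MP_ad5d82_an.h24.H.H1
import Pool.Agent.Lib.MP_ad5d82_an.h24.H.H8a

set_option autoImplicit false

namespace Pool.MP_ad5d82_an.Wl

open Real Set MeasureTheory Filter Topology
open scoped ContDiff

variable {ι : Type} [Fintype ι] [DecidableEq ι]

/-! ### H8b exponential integrability for fields -/

omit [DecidableEq ι] in
private theorem H8b_norm_sq (v : Ev ι) : ‖v‖ ^ 2 = ∑ j, v j ^ 2 := by
  rw [EuclideanSpace.norm_sq_eq]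
  simp [Real.norm_eq_abs, sq_abs]

omit [DecidableEq ι] in
private theorem H8b_pt (α : ℝ) (hα : 0 < α) (v : Ev ι) :
    ‖v‖ ^ 2 * exp (α * ‖v‖) ≤ (Fintype.card ι : ℝ) *
      ∑ j, v j ^ 2 * exp (α * ((Fintype.card ι : ℝ) + 1) * |v j|) := by
  rcases isEmpty_or_nonempty ι with hι | hι
  · have : ‖v‖ ^ 2 = 0 := by rw [H8b_norm_sq]; simp
    rw [this]; simp
  obtain ⟨j, hj⟩ := Finite.exists_max (fun j => |v j|)
  set N : ℝ := (Fintype.card ι : ℝ) with hN
  have hN0 : 0 ≤ N := Nat.cast_nonneg _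
  have h1 : ‖v‖ ^ 2 ≤ N * v j ^ 2 := by
    rw [H8b_norm_sq]
    calc ∑ i, v i ^ 2 ≤ ∑ _i : ι, v j ^ 2 := by
          apply Finset.sum_le_sum
          intro i _
          exact sq_le_sq.2 (hj i)
      _ = N * v j ^ 2 := by simp [hN]
  have h2 : ‖v‖ ≤ (N + 1) * |v j| := by
    apply le_of_sq_le_sq _ (by positivity)
    rw [mul_pow, sq_abs]
    nlinarith [sq_nonneg (v j)]
  calc ‖v‖ ^ 2 * exp (α * ‖v‖) ≤ N * v j ^ 2 * exp (α * (N + 1) * |v j|) := by
        apply mul_le_mul h1 _ (exp_pos _).le (by positivity)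
        apply exp_le_exp.2
        rw [mul_assoc]
        exact mul_le_mul_of_nonneg_left h2 hα.le
    _ = N * (v j ^ 2 * exp (α * (N + 1) * |v j|)) := by ring
    _ ≤ N * ∑ j, v j ^ 2 * exp (α * (N + 1) * |v j|) := by
        apply mul_le_mul_of_nonneg_left _ hN0
        exact Finset.single_le_sum (f := fun j => v j ^ 2 * exp (α * (N + 1) * |v j|))
          (fun i _ => by positivity) (Finset.mem_univ j)

/-- local part of the energy -/
private noncomputable def loc (u : Ev ι × Ev ι × Ev ι) : ℝ := gsq u + ‖u.1‖ ^ 2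

omit [DecidableEq ι] in
private theorem loc_nonneg (u : Ev ι × Ev ι × Ev ι) : 0 ≤ loc u := by
  unfold loc gsq; positivity

omit [DecidableEq ι] in
private theorem loc_le (x₀ z : ℂ) (hz : z ∈ Metric.ball x₀ 2) (u : Ev ι × Ev ι × Ev ι) :
    loc u ≤ (1 + (‖x₀‖ + 2) ^ 2) ^ 2 * nsq z u := by
  have h1 : ‖z‖ ≤ ‖x₀‖ + 2 := by
    have : ‖z - x₀‖ < 2 := by simpa [dist_eq_norm] using hz
    calc ‖z‖ = ‖x₀ + (z - x₀)‖ := by ring_nf
      _ ≤ ‖x₀‖ + ‖z - x₀‖ := norm_add_le _ _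
      _ ≤ _ := by linarith
  set K : ℝ := (1 + (‖x₀‖ + 2) ^ 2) ^ 2 with hK
  have hK1 : 1 ≤ K := by
    rw [hK]
    nlinarith [sq_nonneg (‖x₀‖ + 2), norm_nonneg x₀]
  have hKw : 1 ≤ K * wt z := by
    unfold wt
    have h2 : (1 + ‖z‖ ^ 2) ^ 2 ≤ K := by
      rw [hK]
      gcongr
    have h3 : 0 < (1 + ‖z‖ ^ 2) ^ 2 := by positivity
    rw [← div_eq_mul_inv, le_div_iff₀ h3]
    linarith
  unfold loc nsq
  have h4 : 0 ≤ gsq u := by unfold gsq; positivity
  have h5 : 0 ≤ ‖u.1‖ ^ 2 := by positivity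
  nlinarith

omit [DecidableEq ι] in
private theorem loc_sub (u v : Ev ι × Ev ι × Ev ι) : loc v ≤ 2 * loc u + 2 * loc (u - v) := by
  have h : ∀ a b : Ev ι, ‖b‖ ^ 2 ≤ 2 * ‖a‖ ^ 2 + 2 * ‖a - b‖ ^ 2 := by
    intro a b
    have h1 : ‖b‖ ≤ ‖a‖ + ‖a - b‖ := by
      calc ‖b‖ = ‖a - (a - b)‖ := by simp
        _ ≤ _ := norm_sub_le _ _
    nlinarith [sq_nonneg (‖a‖ - ‖a - b‖), norm_nonneg a, norm_nonneg (a - b), norm_nonneg b]
  unfold loc gsq
  have h1 := h u.1 v.1
  have h2 := h u.2.1 v.2.1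
  have h3 := h u.2.2 v.2.2
  simp only [Prod.fst_sub, Prod.snd_sub] at *
  linarith

omit [DecidableEq ι] in
private theorem continuous_jet {φ : ℂ → Ev ι} (hφ : IsTest φ) : Continuous (jet φ) := by
  have h1 : ContDiff ℝ 1 φ := hφ.1.of_le (by exact_mod_cast le_top)
  have h2 : Continuous (fderiv ℝ φ) := h1.continuous_fderiv one_ne_zero
  exact hφ.1.continuous.prodMk ((h2.clm_apply continuous_const).prodMk
    (h2.clm_apply continuous_const))

omit [DecidableEq ι] in
private theorem continuous_loc : Continuous (loc (ι := ι)) := by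
  unfold loc gsq
  fun_prop

private theorem integrableOn_loc {U : Fld ι} (hU : IsSob U) (x₀ : ℂ) :
    IntegrableOn (fun z => loc (U z)) (Metric.ball x₀ 2) volume := by
  have h1 := (hU.integrable.const_mul ((1 + (‖x₀‖ + 2) ^ 2) ^ 2)).integrableOn
    (s := Metric.ball x₀ 2)
  refine Integrable.mono' h1 ?_ ?_
  · exact (continuous_loc.comp_aestronglyMeasurable hU.1).restrict
  · rw [ae_restrict_iff' measurableSet_ball]
    filter_upwards with z hz
    rw [Real.norm_eq_abs, abs_of_nonneg (loc_nonneg _)]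
    exact loc_le x₀ z hz _

private theorem loc_int_le {U : Fld ι} (hU : IsSob U) (x₀ : ℂ) :
    ∫ z in Metric.ball x₀ 2, loc (U z) ≤ (1 + (‖x₀‖ + 2) ^ 2) ^ 2 * En U := by
  unfold En
  rw [← integral_const_mul]
  have h1 := hU.integrable.const_mul ((1 + (‖x₀‖ + 2) ^ 2) ^ 2)
  refine (setIntegral_mono_on (integrableOn_loc hU x₀) h1.integrableOn measurableSet_ball
    (fun z hz => loc_le x₀ z hz _)).trans ?_
  apply setIntegral_le_integral h1
  filter_upwards with z
  have : 0 ≤ nsq z (U z) := by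
    unfold nsq gsq
    have := (wt_pos z).le
    positivity
  positivity

/-- the key estimate for test functions -/
private theorem H8b_test (α : ℝ) (hα : 0 < α) : ∃ δ > 0, ∃ C : ℝ, 0 ≤ C ∧
    ∀ (x₀ : ℂ) (φ : ℂ → Ev ι), IsTest φ →
    ∫ z in Metric.ball x₀ 2, loc (jet φ z) ≤ δ →
    ∫⁻ z in Metric.ball x₀ 1, ENNReal.ofReal (‖φ z‖ ^ 2 * exp (α * ‖φ z‖)) ≤
      ENNReal.ofReal (C * ∫ z in Metric.ball x₀ 2, loc (jet φ z)) := by
  set N : ℝ := (Fintype.card ι : ℝ) with hN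
  have hN0 : 0 ≤ N := Nat.cast_nonneg _
  obtain ⟨δ, hδ, C, hgn⟩ := gn_exp (α * (N + 1)) (by positivity)
  -- a cut-off
  let b : ContDiffBump (0 : ℂ) := ⟨1, 3 / 2, by norm_num, by norm_num⟩
  have hbs : ContDiff ℝ ∞ (fun z : ℂ => b z) := b.contDiff
  have hbs1 : ContDiff ℝ 1 (fun z : ℂ => b z) := hbs.of_le (by exact_mod_cast le_top)
  have hbc : HasCompactSupport (fun z : ℂ => b z) := b.hasCompactSupport
  obtain ⟨M, hM⟩ := (hbs1.continuous_fderiv one_ne_zero).bounded_above_of_compact_support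
    (hbc.fderiv (𝕜 := ℝ))
  have hM0 : 0 ≤ M := (norm_nonneg _).trans (hM 0)
  refine ⟨δ / (2 + 4 * M ^ 2), by positivity, N * (N * max C 0), by positivity, ?_⟩
  intro x₀ φ hφ hle
  set A := ∫ z in Metric.ball x₀ 2, loc (jet φ z) with hA
  have hA0 : 0 ≤ A := integral_nonneg fun z => loc_nonneg _
  have hφ1 : ContDiff ℝ 1 φ := hφ.1.of_le (by exact_mod_cast le_top)
  have hloc_int : IntegrableOn (fun z => loc (jet φ z)) (Metric.ball x₀ 2) volume :=
    integrableOn_loc (isSob_jet hφ) x₀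
  set χ : ℂ → ℝ := fun z => b (z - x₀) with hχ
  have hχs : ContDiff ℝ ∞ χ := hbs.comp (contDiff_id.sub contDiff_const)
  have hχs1 : ContDiff ℝ 1 χ := hχs.of_le (by exact_mod_cast le_top)
  have hχ1 : ∀ z ∈ Metric.ball x₀ 1, χ z = 1 := by
    intro z hz
    apply b.one_of_mem_closedBall
    simp only [mem_closedBall_zero_iff]
    have : ‖z - x₀‖ < 1 := by simpa [dist_eq_norm] using hz
    exact this.le
  have hχle : ∀ z, χ z ^ 2 ≤ 1 := by
    intro z
    have h1 : 0 ≤ χ z := b.nonneg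
    have h2 : χ z ≤ 1 := b.le_one
    nlinarith
  have hfdχ : ∀ z, fderiv ℝ χ z = fderiv ℝ (fun z : ℂ => b z) (z - x₀) := by
    intro z
    exact fderiv_comp_sub (f := fun z : ℂ => b z) (x := z) x₀
  have hχM : ∀ z, ‖fderiv ℝ χ z‖ ≤ M := by
    intro z
    rw [hfdχ]
    exact hM _
  have hoff : ∀ z, z ∉ Metric.ball x₀ 2 → χ z = 0 ∧ fderiv ℝ χ z = 0 := by
    intro z hz
    have h2 : 2 ≤ ‖z - x₀‖ := by simpa [dist_eq_norm] using hz
    have hts : z - x₀ ∉ tsupport (fun z : ℂ => b z) := by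
      rw [b.tsupport_eq]
      simp only [mem_closedBall_zero_iff, not_le]
      calc (3 / 2 : ℝ) < 2 := by norm_num
        _ ≤ _ := h2
    refine ⟨image_eq_zero_of_notMem_tsupport (f := fun z : ℂ => b z) hts, ?_⟩
    rw [hfdχ]
    have := support_fderiv_subset ℝ (f := fun z : ℂ => b z)
    by_contra hne
    exact hts (this hne)
  -- components
  set u : ι → ℂ → ℝ := fun j z => χ z * φ z j with hu
  have hφj : ∀ j, ContDiff ℝ ∞ (fun z => φ z j) := by
    intro j
    exact (contDiff_euclidean.1 hφ.1) j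
  have hut : ∀ j, IsTestR (u j) := by
    intro j
    refine ⟨hχs.mul (hφj j), ?_⟩
    apply HasCompactSupport.mul_left
    have := hφ.2.comp_left (g := fun x : Ev ι => x j) (by simp)
    exact this
  have hfdφ : ∀ j z v, fderiv ℝ (fun z => φ z j) z v = (fderiv ℝ φ z v) j := by
    intro j z v
    have hd : HasFDerivAt φ (fderiv ℝ φ z) z :=
      (hφ1.differentiable one_ne_zero).differentiableAt.hasFDerivAt
    have h1 := (EuclideanSpace.proj (𝕜 := ℝ) j).hasFDerivAt.comp z hd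
    have h2 : HasFDerivAt (fun z => φ z j) ((EuclideanSpace.proj (𝕜 := ℝ) j).comp
      (fderiv ℝ φ z)) z := h1
    rw [h2.fderiv]
    rfl
  have hfdu : ∀ j z v, fderiv ℝ (u j) z v = χ z * (fderiv ℝ φ z v) j +
      (fderiv ℝ χ z v) * φ z j := by
    intro j z v
    have hd1 : DifferentiableAt ℝ χ z := (hχs1.differentiable one_ne_zero).differentiableAt
    have hd2 : DifferentiableAt ℝ (fun z => φ z j) z :=
      (((hφj j).of_le (by exact_mod_cast le_top : (1 : WithTop ℕ∞) ≤ ∞)).differentiable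
        one_ne_zero).differentiableAt
    have := fderiv_mul hd1 hd2
    have h3 : fderiv ℝ (u j) z = _ := this
    rw [h3]
    simp only [ContinuousLinearMap.add_apply, ContinuousLinearMap.smul_apply, smul_eq_mul, hfdφ]
    ring
  have hcomp : ∀ (w : Ev ι) j, w j ^ 2 ≤ ‖w‖ ^ 2 := by
    intro w j
    rw [H8b_norm_sq]
    exact Finset.single_le_sum (f := fun j => w j ^ 2) (fun i _ => sq_nonneg _)
      (Finset.mem_univ j)
  have hptD : ∀ j z, z ∈ Metric.ball x₀ 2 → fderiv ℝ (u j) z 1 ^ 2 +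
      fderiv ℝ (u j) z Complex.I ^ 2 ≤ (2 + 4 * M ^ 2) * loc (jet φ z) := by
    intro j z _
    have key : ∀ v : ℂ, ‖v‖ = 1 → fderiv ℝ (u j) z v ^ 2 ≤
        2 * ‖fderiv ℝ φ z v‖ ^ 2 + 2 * M ^ 2 * ‖φ z‖ ^ 2 := by
      intro v hv
      rw [hfdu]
      have a1 : (χ z * (fderiv ℝ φ z v) j) ^ 2 ≤ ‖fderiv ℝ φ z v‖ ^ 2 := by
        rw [mul_pow]
        calc χ z ^ 2 * (fderiv ℝ φ z v) j ^ 2 ≤ 1 * ‖fderiv ℝ φ z v‖ ^ 2 := by
              apply mul_le_mul (hχle z) (hcomp _ _) (sq_nonneg _) zero_le_one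
          _ = _ := one_mul _
      have a2 : ((fderiv ℝ χ z v) * φ z j) ^ 2 ≤ M ^ 2 * ‖φ z‖ ^ 2 := by
        rw [mul_pow]
        apply mul_le_mul _ (hcomp _ _) (sq_nonneg _) (sq_nonneg _)
        have : |fderiv ℝ χ z v| ≤ M := by
          calc |fderiv ℝ χ z v| = ‖fderiv ℝ χ z v‖ := (Real.norm_eq_abs _).symm
            _ ≤ ‖fderiv ℝ χ z‖ * ‖v‖ := (fderiv ℝ χ z).le_opNorm v
            _ ≤ M * 1 := by rw [hv]; gcongr; exact hχM z
            _ = M := mul_one _
        calc fderiv ℝ χ z v ^ 2 = |fderiv ℝ χ z v| ^ 2 := (sq_abs _).symm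
          _ ≤ M ^ 2 := pow_le_pow_left₀ (abs_nonneg _) this 2
      nlinarith [sq_nonneg (χ z * (fderiv ℝ φ z v) j - (fderiv ℝ χ z v) * φ z j)]
    have k1 := key 1 (by simp)
    have k2 := key Complex.I (by simp)
    have hloc : loc (jet φ z) = ‖fderiv ℝ φ z 1‖ ^ 2 + ‖fderiv ℝ φ z Complex.I‖ ^ 2 +
        ‖φ z‖ ^ 2 := rfl
    rw [hloc]
    have p1 : 0 ≤ ‖fderiv ℝ φ z 1‖ ^ 2 := sq_nonneg _
    have p2 : 0 ≤ ‖fderiv ℝ φ z Complex.I‖ ^ 2 := sq_nonneg _
    have p3 : 0 ≤ ‖φ z‖ ^ 2 := sq_nonneg _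
    have p4 : 0 ≤ M ^ 2 := sq_nonneg _
    nlinarith [mul_nonneg p4 p1, mul_nonneg p4 p2]
  have hDint : ∀ j, Integrable (fun z => fderiv ℝ (u j) z 1 ^ 2 +
      fderiv ℝ (u j) z Complex.I ^ 2) volume := by
    intro j
    have h1 : ContDiff ℝ 1 (u j) := (hut j).1.of_le (by exact_mod_cast le_top)
    have hcf := h1.continuous_fderiv one_ne_zero
    have hcsf : HasCompactSupport (fderiv ℝ (u j)) := (hut j).2.fderiv (𝕜 := ℝ)
    apply Continuous.integrable_of_hasCompactSupport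
    · exact ((hcf.clm_apply continuous_const).pow 2).add ((hcf.clm_apply continuous_const).pow 2)
    · have := hcsf.comp_left (g := fun x : ℂ →L[ℝ] ℝ => x 1 ^ 2 + x Complex.I ^ 2) (by simp)
      exact this
  have hD : ∀ j, ∫ z, (fderiv ℝ (u j) z 1 ^ 2 + fderiv ℝ (u j) z Complex.I ^ 2) ≤ δ := by
    intro j
    have e1 : ∫ z, (fderiv ℝ (u j) z 1 ^ 2 + fderiv ℝ (u j) z Complex.I ^ 2) =
        ∫ z in Metric.ball x₀ 2, (fderiv ℝ (u j) z 1 ^ 2 + fderiv ℝ (u j) z Complex.I ^ 2) := by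
      rw [setIntegral_eq_integral_of_forall_compl_eq_zero]
      intro z hz
      obtain ⟨h1, h2⟩ := hoff z hz
      rw [hfdu, hfdu, h1, h2]
      simp
    rw [e1]
    calc ∫ z in Metric.ball x₀ 2, (fderiv ℝ (u j) z 1 ^ 2 + fderiv ℝ (u j) z Complex.I ^ 2)
        ≤ ∫ z in Metric.ball x₀ 2, (2 + 4 * M ^ 2) * loc (jet φ z) :=
          setIntegral_mono_on (hDint j).integrableOn (hloc_int.const_mul _) measurableSet_ball
            (hptD j)
      _ = (2 + 4 * M ^ 2) * A := by rw [integral_const_mul]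
      _ ≤ (2 + 4 * M ^ 2) * (δ / (2 + 4 * M ^ 2)) := by gcongr
      _ = δ := by field_simp
  have hU2 : ∀ j, ∫ z, u j z ^ 2 ≤ A := by
    intro j
    have e1 : ∫ z, u j z ^ 2 = ∫ z in Metric.ball x₀ 2, u j z ^ 2 := by
      rw [setIntegral_eq_integral_of_forall_compl_eq_zero]
      intro z hz
      obtain ⟨h1, -⟩ := hoff z hz
      simp [hu, h1]
    rw [e1]
    have hint : Integrable (fun z => u j z ^ 2) volume := by
      apply Continuous.integrable_of_hasCompactSupport ((hut j).1.continuous.pow 2)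
      have := (hut j).2.comp_left (g := fun x : ℝ => x ^ 2) (by simp)
      exact this
    apply setIntegral_mono_on hint.integrableOn hloc_int measurableSet_ball
    intro z _
    have hloc : loc (jet φ z) = ‖fderiv ℝ φ z 1‖ ^ 2 + ‖fderiv ℝ φ z Complex.I‖ ^ 2 +
        ‖φ z‖ ^ 2 := rfl
    rw [hloc]
    have p1 : 0 ≤ ‖fderiv ℝ φ z 1‖ ^ 2 := sq_nonneg _
    have p2 : 0 ≤ ‖fderiv ℝ φ z Complex.I‖ ^ 2 := sq_nonneg _
    have : u j z ^ 2 ≤ ‖φ z‖ ^ 2 := by
      simp only [hu]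
      rw [mul_pow]
      calc χ z ^ 2 * φ z j ^ 2 ≤ 1 * ‖φ z‖ ^ 2 := by
            apply mul_le_mul (hχle z) (hcomp _ _) (sq_nonneg _) zero_le_one
        _ = _ := one_mul _
    linarith
  have hg := fun j => hgn (u j) (hut j) (hD j)
  have hsum : ∑ j, ∫ z, u j z ^ 2 * exp (α * (N + 1) * |u j z|) ≤ N * max C 0 * A := by
    calc ∑ j, ∫ z, u j z ^ 2 * exp (α * (N + 1) * |u j z|) ≤ ∑ _j : ι, max C 0 * A := by
          apply Finset.sum_le_sum
          intro j _
          refine (hg j).2.trans ?_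
          have h0 : 0 ≤ ∫ z, u j z ^ 2 := integral_nonneg fun z => sq_nonneg _
          calc C * ∫ z, u j z ^ 2 ≤ max C 0 * ∫ z, u j z ^ 2 :=
                mul_le_mul_of_nonneg_right (le_max_left _ _) h0
            _ ≤ max C 0 * A := mul_le_mul_of_nonneg_left (hU2 j) (le_max_right _ _)
      _ = N * max C 0 * A := by
          rw [Finset.sum_const, Finset.card_univ, nsmul_eq_mul, ← hN]
          ring
  have hGint : Integrable (fun z => N * ∑ j, u j z ^ 2 * exp (α * (N + 1) * |u j z|)) volume :=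
    (integrable_finsetSum _ fun j _ => (hg j).1).const_mul _
  calc ∫⁻ z in Metric.ball x₀ 1, ENNReal.ofReal (‖φ z‖ ^ 2 * exp (α * ‖φ z‖))
      ≤ ∫⁻ z in Metric.ball x₀ 1, ENNReal.ofReal
          (N * ∑ j, u j z ^ 2 * exp (α * (N + 1) * |u j z|)) := by
        apply setLIntegral_mono' measurableSet_ball
        intro z hz
        apply ENNReal.ofReal_le_ofReal
        have h1 := hχ1 z hz
        have := H8b_pt α hα (φ z)
        simpa [hu, h1] using this
    _ ≤ ∫⁻ z, ENNReal.ofReal (N * ∑ j, u j z ^ 2 * exp (α * (N + 1) * |u j z|)) :=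
        setLIntegral_le_lintegral _ _
    _ = ENNReal.ofReal (∫ z, N * ∑ j, u j z ^ 2 * exp (α * (N + 1) * |u j z|)) := by
        rw [ofReal_integral_eq_lintegral_ofReal hGint]
        filter_upwards with z
        positivity
    _ ≤ ENNReal.ofReal (N * (N * max C 0) * A) := by
        apply ENNReal.ofReal_le_ofReal
        rw [integral_const_mul, integral_finsetSum _ (fun j _ => (hg j).1)]
        calc N * ∑ j, ∫ z, u j z ^ 2 * exp (α * (N + 1) * |u j z|) ≤ N * (N * max C 0 * A) :=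
              mul_le_mul_of_nonneg_left hsum hN0
          _ = _ := by ring

theorem exp_small (α : ℝ) (hα : 0 < α) : ∃ δ > 0, ∃ C : ℝ, ∀ (x₀ : ℂ) (U : Fld ι), IsSob U →
    ∫ z in Metric.ball x₀ 2, (gsq (U z) + ‖(U z).1‖ ^ 2) ≤ δ →
    IntegrableOn (fun z => ‖(U z).1‖ ^ 2 * exp (α * ‖(U z).1‖)) (Metric.ball x₀ 1) volume ∧
    ∫ z in Metric.ball x₀ 1, ‖(U z).1‖ ^ 2 * exp (α * ‖(U z).1‖) ≤
      C * ∫ z in Metric.ball x₀ 2, (gsq (U z) + ‖(U z).1‖ ^ 2) := by
  obtain ⟨δ, hδ, C, hC, htest⟩ := H8b_test (ι := ι) α hα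
  refine ⟨δ / 4, by positivity, C * 2, ?_⟩
  intro x₀ U hU hle
  obtain ⟨φ, hφ, hφlim, hφae⟩ := hU.exists_seq
  set A := ∫ z in Metric.ball x₀ 2, (gsq (U z) + ‖(U z).1‖ ^ 2) with hA
  have hA' : A = ∫ z in Metric.ball x₀ 2, loc (U z) := rfl
  have hA0 : 0 ≤ A := by rw [hA']; exact integral_nonneg fun z => loc_nonneg _
  set e : ℕ → ℝ := fun n => (1 + (‖x₀‖ + 2) ^ 2) ^ 2 * En (U - jet (φ n)) with he
  have he0 : ∀ n, 0 ≤ e n := fun n => by
    have := En_nonneg (U - jet (φ n))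
    simp only [he]
    positivity
  have helim : Tendsto e atTop (𝓝 0) := by
    have := hφlim.const_mul ((1 + (‖x₀‖ + 2) ^ 2) ^ 2)
    simpa using this
  have hE : ∀ n, ∫ z in Metric.ball x₀ 2, loc (jet (φ n) z) ≤ 2 * A + 2 * e n := by
    intro n
    have hs := hU.sub (isSob_jet (hφ n))
    have h1 := loc_int_le hs x₀
    calc ∫ z in Metric.ball x₀ 2, loc (jet (φ n) z)
        ≤ ∫ z in Metric.ball x₀ 2, (2 * loc (U z) + 2 * loc ((U - jet (φ n)) z)) := by
          apply setIntegral_mono_on (integrableOn_loc (isSob_jet (hφ n)) x₀)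
            (((integrableOn_loc hU x₀).const_mul 2).add
              ((integrableOn_loc hs x₀).const_mul 2)) measurableSet_ball
          intro z _
          exact loc_sub _ _
      _ = 2 * A + 2 * ∫ z in Metric.ball x₀ 2, loc ((U - jet (φ n)) z) := by
          rw [integral_add ((integrableOn_loc hU x₀).const_mul 2)
            ((integrableOn_loc hs x₀).const_mul 2), integral_const_mul, integral_const_mul, hA']
      _ ≤ 2 * A + 2 * e n := by linarith
  have hev : ∀ᶠ n in atTop, e n ≤ δ / 4 := by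
    have := helim.eventually (gt_mem_nhds (show (0 : ℝ) < δ / 4 by positivity))
    exact this.mono fun n hn => hn.le
  have hbound : ∀ᶠ n in atTop,
      ∫⁻ z in Metric.ball x₀ 1, ENNReal.ofReal (‖φ n z‖ ^ 2 * exp (α * ‖φ n z‖)) ≤
        ENNReal.ofReal (C * (2 * A + 2 * e n)) := by
    filter_upwards [hev] with n hn
    refine (htest x₀ (φ n) (hφ n) ?_).trans ?_
    · refine (hE n).trans ?_
      linarith
    · apply ENNReal.ofReal_le_ofReal
      exact mul_le_mul_of_nonneg_left (hE n) hC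
  have hmeas : ∀ n, Measurable (fun z => ENNReal.ofReal (‖φ n z‖ ^ 2 * exp (α * ‖φ n z‖))) := by
    intro n
    have hc : Continuous (φ n) := (hφ n).1.continuous
    have : Continuous (fun z => ‖φ n z‖ ^ 2 * exp (α * ‖φ n z‖)) := by fun_prop
    exact this.measurable.ennreal_ofReal
  have hfatou : ∫⁻ z in Metric.ball x₀ 1, ENNReal.ofReal (‖(U z).1‖ ^ 2 * exp (α * ‖(U z).1‖)) ≤
      ENNReal.ofReal (C * (2 * A)) := by
    have h1 : ∫⁻ z in Metric.ball x₀ 1, ENNReal.ofReal (‖(U z).1‖ ^ 2 * exp (α * ‖(U z).1‖)) ≤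
        liminf (fun n => ∫⁻ z in Metric.ball x₀ 1,
          ENNReal.ofReal (‖φ n z‖ ^ 2 * exp (α * ‖φ n z‖))) atTop := by
      refine le_trans (le_of_eq ?_) (lintegral_liminf_le hmeas)
      apply lintegral_congr_ae
      filter_upwards [ae_restrict_of_ae hφae] with z hz
      have hz1 : Tendsto (fun n => φ n z) atTop (𝓝 (U z).1) := by
        have := (continuous_fst.tendsto (U z)).comp hz
        exact this
      have hz2 : Tendsto (fun n => ENNReal.ofReal (‖φ n z‖ ^ 2 * exp (α * ‖φ n z‖))) atTop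
          (𝓝 (ENNReal.ofReal (‖(U z).1‖ ^ 2 * exp (α * ‖(U z).1‖)))) := by
        apply ENNReal.tendsto_ofReal
        have hcont : Continuous (fun x : Ev ι => ‖x‖ ^ 2 * exp (α * ‖x‖)) := by fun_prop
        exact (hcont.tendsto _).comp hz1
      exact hz2.liminf_eq.symm
    refine h1.trans ?_
    have hlim : Tendsto (fun n => ENNReal.ofReal (C * (2 * A + 2 * e n))) atTop
        (𝓝 (ENNReal.ofReal (C * (2 * A)))) := by
      apply ENNReal.tendsto_ofReal
      have := ((helim.const_mul 2).const_add (2 * A)).const_mul C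
      simpa using this
    rw [← hlim.liminf_eq]
    exact liminf_le_liminf hbound
  have hmeasU : AEStronglyMeasurable (fun z => ‖(U z).1‖ ^ 2 * exp (α * ‖(U z).1‖))
      (volume.restrict (Metric.ball x₀ 1)) := by
    have hcont : Continuous (fun x : Ev ι × Ev ι × Ev ι => ‖x.1‖ ^ 2 * exp (α * ‖x.1‖)) := by
      fun_prop
    exact (hcont.comp_aestronglyMeasurable hU.1).restrict
  have hint : IntegrableOn (fun z => ‖(U z).1‖ ^ 2 * exp (α * ‖(U z).1‖))
      (Metric.ball x₀ 1) volume := by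
    refine ⟨hmeasU, ?_⟩
    rw [hasFiniteIntegral_iff_ofReal (by filter_upwards with z; positivity)]
    exact hfatou.trans_lt ENNReal.ofReal_lt_top
  refine ⟨hint, ?_⟩
  rw [← ofReal_integral_eq_lintegral_ofReal hint (by filter_upwards with z; positivity),
    ENNReal.ofReal_le_ofReal_iff (by positivity)] at hfatou
  linarith

theorem exp_integrable {U : Fld ι} (hU : IsSob U) (α R : ℝ) :
    IntegrableOn (fun z => exp (α * ‖(U z).1‖)) (Metric.ball 0 R) volume := by
  have hmeas : ∀ β : ℝ, AEStronglyMeasurable (fun z => exp (β * ‖(U z).1‖)) volume := by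
    intro β
    have hcont : Continuous (fun x : Ev ι × Ev ι × Ev ι => exp (β * ‖x.1‖)) := by
      fun_prop
    exact hcont.comp_aestronglyMeasurable hU.1
  have hfin : volume (Metric.ball (0 : ℂ) R) ≠ ⊤ := measure_ball_lt_top.ne
  rcases le_or_gt α 0 with hα | hα
  · refine Integrable.mono' (g := fun _ => (1 : ℝ)) (integrableOn_const hfin) (hmeas α).restrict ?_
    filter_upwards with z
    rw [Real.norm_eq_abs, abs_of_pos (exp_pos _)]
    apply exp_le_one_iff.2
    nlinarith [norm_nonneg (U z).1]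
  obtain ⟨δ, hδ, C, hsm⟩ := exp_small (ι := ι) α hα
  obtain ⟨φ, hφ, hφlim, -⟩ := hU.exists_seq
  set K : ℝ := (1 + (|R| + 2) ^ 2) ^ 2 with hK
  have hK0 : 0 < K := by positivity
  obtain ⟨n, hn⟩ : ∃ n, En (U - jet (φ n)) < δ / K :=
    (hφlim.eventually (gt_mem_nhds (show (0 : ℝ) < δ / K by positivity))).exists
  set V : Fld ι := U - jet (φ n) with hV
  have hVs : IsSob V := hU.sub (isSob_jet (hφ n))
  obtain ⟨M, hM⟩ := (hφ n).1.continuous.bounded_above_of_compact_support (hφ n).2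
  have hmeasV : AEStronglyMeasurable (fun z => exp (α * ‖(V z).1‖)) volume := by
    have hcont : Continuous (fun x : Ev ι × Ev ι × Ev ι => exp (α * ‖x.1‖)) := by
      fun_prop
    exact hcont.comp_aestronglyMeasurable hVs.1
  have hloc : ∀ x₀ ∈ Metric.closedBall (0 : ℂ) |R|,
      IntegrableOn (fun z => exp (α * ‖(V z).1‖)) (Metric.ball x₀ 1) volume := by
    intro x₀ hx₀
    have hx : ‖x₀‖ ≤ |R| := by simpa using hx₀
    have h1 : ∫ z in Metric.ball x₀ 2, (gsq (V z) + ‖(V z).1‖ ^ 2) ≤ δ := by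
      have h2 := loc_int_le hVs x₀
      have h3 : ∫ z in Metric.ball x₀ 2, (gsq (V z) + ‖(V z).1‖ ^ 2) =
        ∫ z in Metric.ball x₀ 2, loc (V z) := rfl
      rw [h3]
      refine h2.trans ?_
      have h4 : (1 + (‖x₀‖ + 2) ^ 2) ^ 2 ≤ K := by
        rw [hK]
        have := norm_nonneg x₀
        gcongr
      calc (1 + (‖x₀‖ + 2) ^ 2) ^ 2 * En V ≤ K * (δ / K) :=
            mul_le_mul h4 hn.le (En_nonneg _) hK0.le
        _ = δ := by field_simp
    have h5 := (hsm x₀ V hVs h1).1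
    have h6 : IntegrableOn (fun _ : ℂ => exp α) (Metric.ball x₀ 1) volume :=
      integrableOn_const measure_ball_lt_top.ne
    refine Integrable.mono' (h6.add h5) hmeasV.restrict ?_
    filter_upwards with z
    rw [Real.norm_eq_abs, abs_of_pos (exp_pos _)]
    have hn0 := norm_nonneg (V z).1
    simp only [Pi.add_apply]
    rcases le_or_gt ‖(V z).1‖ 1 with h | h
    · have a1 : exp (α * ‖(V z).1‖) ≤ exp α := exp_le_exp.2 (by nlinarith)
      have a2 : 0 ≤ ‖(V z).1‖ ^ 2 * exp (α * ‖(V z).1‖) := by positivity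
      linarith
    · have a1 : 0 < exp α := exp_pos _
      have a2 : exp (α * ‖(V z).1‖) ≤ ‖(V z).1‖ ^ 2 * exp (α * ‖(V z).1‖) := by
        have : 1 ≤ ‖(V z).1‖ ^ 2 := by nlinarith
        nlinarith [exp_pos (α * ‖(V z).1‖)]
      linarith
  have hcomp : IntegrableOn (fun z => exp (α * ‖(V z).1‖)) (Metric.closedBall (0 : ℂ) |R|)
      volume := by
    refine LocallyIntegrableOn.integrableOn_isCompact ?_ (isCompact_closedBall _ _)
    intro x hx
    exact ⟨Metric.ball x 1, mem_nhdsWithin_of_mem_nhds (Metric.ball_mem_nhds x one_pos),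
      hloc x hx⟩
  have hcomp2 : IntegrableOn (fun z => exp (α * ‖(V z).1‖)) (Metric.ball (0 : ℂ) R) volume :=
    hcomp.mono_set (fun z hz => by
      simp only [mem_ball_zero_iff, mem_closedBall_zero_iff] at *
      exact hz.le.trans (le_abs_self R))
  refine Integrable.mono' (hcomp2.const_mul (exp (α * M))) (hmeas α).restrict ?_
  filter_upwards with z
  rw [Real.norm_eq_abs, abs_of_pos (exp_pos _), ← exp_add]
  apply exp_le_exp.2
  have h1 : ‖(U z).1‖ ≤ ‖(V z).1‖ + M := by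
    have h2 : (U z).1 = (V z).1 + φ n z := by
      simp [hV, jet]
    rw [h2]
    exact (norm_add_le _ _).trans (by linarith [hM z])
  nlinarith

end Pool.MP_ad5d82_an.Wl
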